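import Pool.Agent.PT.Fold

/-!
# Polynomial time on trees: input and output, the theorem `core`
-/

set_option autoImplicit false

namespace Pool.Agent.PT

open Pool.Agent.StackProg Function

/-- Main to aux. -/
def loopMA : Prog Stk Sym Reg := .loop .main (fun v c => (some c, v.2)) (ps .aux)
/-- Aux to main. -/
def loopAM : Prog Stk Sym Reg := .loop .aux (fun v c => (some c, v.2)) (ps .main)
/-- Encode the string on aux. -/
def loopE : Prog Stk Sym Reg := .loop .aux (fun v c => (some c, v.2)) (enc syms)

theorem q_loopMA (w : List Sym) : ∀ x : List Sym, Q loopMA (mkS w x [] [] []) (2 * w.length + 1)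
    (mkS [] (w.reverse ++ x) [] [] []) := by
  induction w with
  | nil => intro x v; exact ⟨v, R.loopNil rfl⟩
  | cons c w ih =>
    intro x v
    have h1 : R (ps .aux) (some c, v.2) (update (mkS (c :: w) x [] [] []) .main w) 1 (some c, v.2)
        (mkS w (c :: x) [] [] []) := by
      rw [upd_main]
      exact R.ps .aux rfl rfl (upd_aux ..)
    obtain ⟨v', h2⟩ := ih (c :: x) (some c, v.2)
    refine ⟨v', ?_⟩
    have h3 := R.loopCons (f := fun v c => (some c, v.2)) (k := .main)
      (S := mkS (c :: w) x [] [] []) rfl h1 h2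
    have e : (c :: w).reverse ++ x = w.reverse ++ c :: x := by simp
    rw [e]
    exact h3.mono (by simp only [List.length_cons]; omega)

theorem q_loopAM (w : List Sym) : ∀ x : List Sym, Q loopAM (mkS x w [] [] []) (2 * w.length + 1)
    (mkS (w.reverse ++ x) [] [] [] []) := by
  induction w with
  | nil => intro x v; exact ⟨v, R.loopNil rfl⟩
  | cons c w ih =>
    intro x v
    have h1 : R (ps .main) (some c, v.2) (update (mkS x (c :: w) [] [] []) .aux w) 1 (some c, v.2)
        (mkS (c :: x) w [] [] []) := by
      rw [upd_aux]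
      exact R.ps .main rfl rfl (upd_main ..)
    obtain ⟨v', h2⟩ := ih (c :: x) (some c, v.2)
    refine ⟨v', ?_⟩
    have h3 := R.loopCons (f := fun v c => (some c, v.2)) (k := .aux)
      (S := mkS x (c :: w) [] [] []) rfl h1 h2
    have e : (c :: w).reverse ++ x = w.reverse ++ c :: x := by simp
    rw [e]
    exact h3.mono (by simp only [List.length_cons]; omega)

/-- The code of a string. -/
def codeS (w : List Sym) : List Sym := (D.ofList (w.map D.ofSym)).code

theorem codeS_cons (c : Sym) (w : List Sym) : codeS (c :: w) = .i :: ((D.ofSym c).code ++ codeS w) :=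
  rfl

theorem q_loopE (w : List Sym) : ∀ x : List Sym, Q loopE (mkS (codeS x) w [] [] [])
    (29 * w.length + 1) (mkS (codeS (w.reverse ++ x)) [] [] [] []) := by
  induction w with
  | nil => intro x v; exact ⟨v, R.loopNil rfl⟩
  | cons c w ih =>
    intro x v
    obtain ⟨v1, h1⟩ := r_enc c (codeS x) w [] [] syms (mem_syms c) (some c, v.2) rfl
    obtain ⟨v', h2⟩ := ih (c :: x) v1
    refine ⟨v', ?_⟩
    rw [← codeS_cons] at h1
    have h3 := R.loopCons (f := fun v c => (some c, v.2)) (k := .aux)
      (S := mkS (codeS x) (c :: w) [] [] []) (v := v) rfl (by rw [upd_aux]; exact h1) h2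
    have e : (c :: w).reverse ++ x = w.reverse ++ c :: x := by simp
    rw [e]
    have e2 : syms.length = 8 := rfl
    exact h3.mono (by simp only [List.length_cons, e2]; omega)

/-- Decode one symbol. -/
def decStep : Prog Stk Sym Reg :=
  .seq (.pop .main (fun v o => (o, decide (o = some .i), v.2.2)))
    (.ite (fun v => v.2.1) (.seq (dec syms) (.load (fun v => (v.1, true, v.2.2)))) .skip)

theorem dec_it (w : List Sym) : ∀ (x : List Sym) (v : Reg), ∃ v' : Reg, v'.2.1 = false ∧
    It (fun v => v.2.1) decStep v (mkS (codeS w) x [] [] []) (40 * (w.length + 1)) v'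
      (mkS [] (w.reverse ++ x) [] [] []) := by
  induction w with
  | nil =>
    intro x v
    refine ⟨(some .o, false, v.2.2), rfl, .one rfl rfl ?_⟩
    have h1 : R (.pop .main (fun v o => (o, decide (o = some .i), v.2.2))) v
        (mkS [.o] x [] [] []) 1 (some .o, false, v.2.2) (mkS [] x [] [] []) :=
      R.popD .main _ (o := some .o) (l := []) rfl rfl (by simp) (upd_main ..)
    exact (h1.seq (R.iteF rfl R.skip)).mono (by simp only [List.length_nil]; omega)
  | cons c w ih =>
    intro x v
    have h1 : R (.pop .main (fun v o => (o, decide (o = some .i), v.2.2))) v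
        (mkS (codeS (c :: w)) x [] [] []) 1 (some .i, true, v.2.2)
        (mkS ((D.ofSym c).code ++ codeS w) x [] [] []) :=
      R.popD .main _ (o := some .i) (l := (D.ofSym c).code ++ codeS w) rfl rfl (by simp)
        (upd_main ..)
    obtain ⟨v1, h2⟩ := q_dec (codeS w) x [] [] syms c.idx c (syms_idx c) (some .i, true, v.2.2)
    have h4 := h1.seq (R.iteT (f := fun v : Reg => v.2.1) (q := .skip) rfl
      (h2.seq (R.load (fun v => (v.1, true, v.2.2)))))
    obtain ⟨v', hv', h5⟩ := ih (c :: x) (v1.1, true, v1.2.2)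
    refine ⟨v', hv', ?_⟩
    have h6 := It.cons (f := fun v : Reg => v.2.1) rfl rfl h4 rfl h5
    have e : (c :: w).reverse ++ x = w.reverse ++ c :: x := by simp
    have e2 : syms.length = 8 := rfl
    rw [e]
    exact h6.mono (by simp only [List.length_cons, e2]; omega)

/-- The program with input and output. -/
def ioProg (p : Prog Stk Sym Reg) : Prog Stk Sym Reg :=
  .seq loopMA (.seq (pc .main .o) (.seq loopE (.seq p
    (.seq (doWhile (fun v => v.2.1) decStep) (.seq loopAM (.load (fun _ => (none, false, false))))))))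

theorem only_eq (w : List Sym) : only Stk.main w = mkS w [] [] [] [] := by
  funext k
  cases k <;> rfl

theorem size_ofList_le (w : List Sym) : (D.ofList (w.map D.ofSym)).size ≤ 16 * w.length + 1 := by
  induction w with
  | nil => simp [D.ofList, D.size]
  | cons c w ih =>
    have := size_ofSym c
    simp only [List.map_cons, D.ofList, D.size, List.length_cons]
    omega

theorem le_size_ofList (w : List Sym) : w.length ≤ (D.ofList (w.map D.ofSym)).size := by
  induction w with
  | nil => simp
  | cons c w ih =>
    simp only [List.map_cons, D.ofList, D.size, List.length_cons]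
    omega

theorem ptd_io {α β : Type} (ea : α → List Sym) (eb : β → List Sym) (f : α → β) (g : D → D)
    (hg : PTD (Set.range fun a => D.ofList ((ea a).map D.ofSym)) g)
    (h : ∀ a, g (D.ofList ((ea a).map D.ofSym)) = D.ofList ((eb (f a)).map D.ofSym)) :
    Nonempty (Turing.TM2ComputableInPolyTime ea eb f) := by
  obtain ⟨p, T, ⟨c, hT⟩, ⟨d, hd⟩, hp⟩ := ptd_iff.1 hg
  refine computable (ioProg p) Stk.main Stk.main (none, false, false)
    (Polynomial.C 31 * Polynomial.X + (Polynomial.C 16 * Polynomial.X + Polynomial.C 3) ^ c +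
      Polynomial.C 42 * (Polynomial.C 16 * Polynomial.X + Polynomial.C 3) ^ d +
      Polynomial.C 60) fun a => ?_
  have ht : D.ofList ((ea a).map D.ofSym) ∈ Set.range fun a => D.ofList ((ea a).map D.ofSym) :=
    ⟨a, rfl⟩
  have hs := size_ofList_le (ea a)
  have hT' := hT _ ht
  have hd' := hd _ ht
  have hu := le_size_ofList (eb (f a))
  rw [← h a] at hu
  dsimp only at hd'
  have hc1 : ((D.ofList ((ea a).map D.ofSym)).size + 2) ^ c ≤ (16 * (ea a).length + 3) ^ c :=
    Nat.pow_le_pow_left (by omega) c
  have hc2 : ((D.ofList ((ea a).map D.ofSym)).size + 2) ^ d ≤ (16 * (ea a).length + 3) ^ d :=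
    Nat.pow_le_pow_left (by omega) d
  have h1 := q_loopMA (ea a) []
  rw [List.append_nil] at h1
  have h2 : Q (pc .main .o) (mkS [] (ea a).reverse [] [] []) 1
      (mkS (codeS []) (ea a).reverse [] [] []) := Q.pc _ _ (upd_main ..)
  have h3 := q_loopE (ea a).reverse []
  rw [List.reverse_reverse, List.append_nil, List.length_reverse] at h3
  have h4 := hp _ ht [] [] [] []
  rw [List.append_nil, List.append_nil, h a] at h4
  have h5 : Q (doWhile (fun v => v.2.1) decStep) (mkS (codeS (eb (f a))) [] [] [] [])
      (40 * ((eb (f a)).length + 1) + 5) (mkS [] (eb (f a)).reverse [] [] []) := by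
    intro v
    obtain ⟨v', hv', h6⟩ := dec_it (eb (f a)) [] v
    rw [List.append_nil] at h6
    exact ⟨v', h6.doWhile hv'⟩
  have h6 := q_loopAM (eb (f a)).reverse []
  rw [List.reverse_reverse, List.append_nil, List.length_reverse] at h6
  obtain ⟨v1, h1⟩ := h1 (none, false, false)
  obtain ⟨v2, h2⟩ := h2 v1
  obtain ⟨v3, h3⟩ := h3 v2
  obtain ⟨v4, h4⟩ := h4 v3
  obtain ⟨v5, h5⟩ := h5 v4
  obtain ⟨v6, h6⟩ := h6 v5
  have h7 := R.load (v := v6) (S := mkS (eb (f a)) [] [] [] []) (fun _ => (none, false, false))
  obtain ⟨n, hn, he⟩ := h1.seq (h2.seq (h3.seq (h4.seq (h5.seq (h6.seq h7)))))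
  refine ⟨n, hn.trans ?_, ?_⟩
  · simp only [Polynomial.eval_add, Polynomial.eval_mul, Polynomial.eval_C, Polynomial.eval_X,
      Polynomial.eval_pow]
    omega
  · rw [only_eq, only_eq]
    exact he

/-- The closure properties. -/
theorem core : Core where
  id := ptd_id
  comp := ptd_comp
  const := ptd_const
  fst := ptd_fst
  snd := ptd_snd
  node := ptd_node
  cas := ptd_cas
  eq := ptd_eq
  fold := ptd_fold
  io := ptd_io

end Pool.Agent.PT
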