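import Pool.Agent.PT.Typed

/-!
# Polynomial time arithmetic
-/

set_option autoImplicit false

namespace Pool.Agent.PT

theorem sz_nat (n : ℕ) : sz n = sz n.bits := rfl

theorem sz_bits_le (l : List Bool) : sz l ≤ 4 * l.length + 1 := by
  induction l with
  | nil => simp [sz_nil]
  | cons a l ih =>
    have := sz_bool a
    rw [sz_cons, List.length_cons]
    omega

theorem le_sz_bits (l : List Bool) : 2 * l.length + 1 ≤ sz l := by
  induction l with
  | nil => simp [sz_nil]
  | cons a l ih =>
    have := sz_pos a
    rw [sz_cons, List.length_cons]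
    omega

theorem sz_nat_mono {m n : ℕ} (h : m ≤ n) : sz m ≤ 2 * sz n := by
  rw [sz_nat, sz_nat]
  have h1 := sz_bits_le m.bits
  have h2 := le_sz_bits n.bits
  rw [Nat.size_eq_bits_len] at h1 h2
  have h3 := Nat.size_le_size h
  omega

theorem sz_nat_le (n : ℕ) : sz n ≤ 4 * n + 1 := by
  rw [sz_nat]
  have h1 := sz_bits_le n.bits
  rw [Nat.size_eq_bits_len] at h1
  have h3 : n.size ≤ n := by
    rw [Nat.size_le]
    exact Nat.lt_two_pow_self
  omega

theorem val_bits_foldr (l : List Bool) :
    (val l).bits = l.foldr (fun b s => if b = false ∧ s = [] then [] else b :: s) [] := by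
  induction l with
  | nil => simp [val]
  | cons b l ih =>
    rw [List.foldr_cons, ← ih, val, bits_step]
    have : (val l).bits = [] ↔ val l = 0 := by
      constructor
      · intro h
        rw [← val_bits (val l), h]
        rfl
      · intro h
        rw [h]; simp
    simp only [this]

/-! ### Addition and comparison of digit lists -/

/-- One step of the serial adder. -/
def addStep (s : List Bool × List Bool × Bool × List Bool) :
    List Bool × List Bool × Bool × List Bool :=
  (s.1.tail, s.2.1.tail,
    (s.1.headD false && s.2.1.headD false) ||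
      (s.2.2.1 && (s.1.headD false || s.2.1.headD false)),
    decide (decide (s.1.headD false = s.2.1.headD false) = s.2.2.1) :: s.2.2.2)

/-- The digits of the sum. -/
def addR : ℕ → List Bool → List Bool → Bool → List Bool
  | 0, _, _, _ => []
  | T + 1, l, m, c => decide (decide (l.headD false = m.headD false) = c) ::
      addR T l.tail m.tail ((l.headD false && m.headD false) ||
        (c && (l.headD false || m.headD false)))

theorem addR_zero (T : ℕ) : val (addR T [] [] false) = 0 := by
  induction T with
  | zero => rfl
  | succ T ih => simp [addR, val, ih]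

theorem addR_length (T : ℕ) : ∀ (l m : List Bool) (c : Bool), (addR T l m c).length = T := by
  induction T with
  | zero => intro l m c; rfl
  | succ T ih => intro l m c; rw [addR, List.length_cons, ih]

theorem addR_val (T : ℕ) : ∀ (l m : List Bool) (c : Bool), l.length + 1 ≤ T → m.length + 1 ≤ T →
    val (addR T l m c) = val l + val m + (if c then 1 else 0) := by
  induction T with
  | zero => intro l m c h; omega
  | succ T ih =>
    intro l m c hl hm
    by_cases he : l = [] ∧ m = []
    · obtain ⟨rfl, rfl⟩ := he
      simp only [addR, val, List.headD_nil, List.tail_nil]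
      have := addR_zero T
      cases c <;> simp [this]
    · have h1 : val (addR T l.tail m.tail ((l.headD false && m.headD false) ||
          (c && (l.headD false || m.headD false)))) = _ := ih _ _ _ (by
            rcases l with _ | ⟨a, l⟩ <;> rcases m with _ | ⟨b, m⟩ <;> simp at hl hm he ⊢ <;> omega)
          (by rcases l with _ | ⟨a, l⟩ <;> rcases m with _ | ⟨b, m⟩ <;> simp at hl hm he ⊢ <;> omega)
      simp only [addR, val]
      rw [h1]
      rcases l with _ | ⟨a, l⟩ <;> rcases m with _ | ⟨b, m⟩
      · simp at he
      · cases b <;> cases c <;> simp [val] <;> omega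
      · cases a <;> cases c <;> simp [val] <;> omega
      · cases a <;> cases b <;> cases c <;> simp [val] <;> omega

theorem add_foldl {κ : Type} (K : List κ) : ∀ (l m : List Bool) (c : Bool) (o : List Bool),
    ∃ c', K.foldl (fun s _ => addStep s) (l, m, c, o) =
      (l.drop K.length, m.drop K.length, c', (addR K.length l m c).reverse ++ o) := by
  induction K with
  | nil => intro l m c o; exact ⟨c, rfl⟩
  | cons k K ih =>
    intro l m c o
    rw [List.foldl_cons, List.length_cons, addR]
    obtain ⟨c', h⟩ := ih l.tail m.tail ((l.headD false && m.headD false) ||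
        (c && (l.headD false || m.headD false)))
        (decide (decide (l.headD false = m.headD false) = c) :: o)
    refine ⟨c', ?_⟩
    rw [show addStep (l, m, c, o) = (l.tail, m.tail, ((l.headD false && m.headD false) ||
        (c && (l.headD false || m.headD false))),
        decide (decide (l.headD false = m.headD false) = c) :: o) from rfl, h]
    simp

/-- One step of the comparison. -/
def leStep (s : List Bool × List Bool × Bool) : List Bool × List Bool × Bool :=
  (s.1.tail, s.2.1.tail, if decide (s.1.headD false = s.2.1.headD false) = true then s.2.2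
    else s.2.1.headD false)

theorem le_foldl {κ : Type} (K : List κ) : ∀ (l m : List Bool) (c : Bool),
    ∃ c', K.foldl (fun s _ => leStep s) (l, m, c) = (l.drop K.length, m.drop K.length, c') ∧
      (l.length ≤ K.length → m.length ≤ K.length →
        c' = if val l = val m then c else decide (val l < val m)) := by
  induction K with
  | nil =>
    intro l m c
    refine ⟨c, rfl, fun h1 h2 => ?_⟩
    have h3 : l = [] := by simpa using h1
    have h4 : m = [] := by simpa using h2
    rw [h3, h4]; simp
  | cons k K ih =>
    intro l m c
    rw [List.foldl_cons, List.length_cons]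
    obtain ⟨c', h, h'⟩ := ih l.tail m.tail
      (if decide (l.headD false = m.headD false) = true then c else m.headD false)
    refine ⟨c', ?_, fun h1 h2 => ?_⟩
    · rw [show leStep (l, m, c) = (l.tail, m.tail,
        if decide (l.headD false = m.headD false) = true then c else m.headD false) from rfl, h]
      simp
    · rw [h' (by simp; omega) (by simp; omega)]
      rcases l with _ | ⟨a, l⟩ <;> rcases m with _ | ⟨b, m⟩
      · simp
      · cases b
        · simp only [val, List.headD_nil, List.headD_cons, List.tail_nil, List.tail_cons]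
          by_cases hv : val m = 0
          · simp [hv]
          · have h3 : ¬ (0 = val m) := fun h => hv h.symm
            have h4 : ¬ (0 = 2 * val m) := by omega
            simp [h3, h4]
        · simp only [val, List.headD_nil, List.headD_cons, List.tail_nil, List.tail_cons]
          by_cases hv : val m = 0
          · simp [hv]
          · have h3 : ¬ (0 = val m) := fun h => hv h.symm
            have h4 : ¬ (0 = 1 + 2 * val m) := by omega
            simp [h3, h4, Nat.pos_of_ne_zero hv]
      · cases a
        · simp only [val, List.headD_nil, List.headD_cons, List.tail_nil, List.tail_cons]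
          by_cases hv : val l = 0
          · simp [hv]
          · simp [hv]
        · simp only [val, List.headD_nil, List.headD_cons, List.tail_nil, List.tail_cons]
          by_cases hv : val l = 0
          · simp [hv]
          · simp [hv]
      · have key : ∀ (x y : ℕ) (a b : Bool),
            (if x = y then (if decide (a = b) = true then c else b) else decide (x < y)) =
            (if (if a then 1 else 0) + 2 * x = (if b then 1 else 0) + 2 * y then c
              else decide ((if a then 1 else 0) + 2 * x < (if b then 1 else 0) + 2 * y)) := by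
          intro x y a b
          by_cases hv : x = y
          · subst hv
            cases a <;> cases b <;> simp
          · have h3 : ¬ ((if a then 1 else 0) + 2 * x = (if b then 1 else 0) + 2 * y) := by
              cases a <;> cases b <;> simp <;> omega
            rw [if_neg hv, if_neg h3]
            simp only [decide_eq_decide]
            cases a <;> cases b <;> simp <;> omega
        exact key _ _ _ _

variable {α β γ δ : Type} [Dat α] [Dat β] [Dat γ] [Dat δ] [hC : Fact Core]

@[fun_prop] theorem PolyF.bits {f : γ → ℕ} (hf : PolyF f) : PolyF (fun x => (f x).bits) := by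
  have h : PolyF (fun n : ℕ => n.bits) := ⟨fun t => t, pt_univ hC.out.id _, fun _ => rfl⟩
  exact h.comp hf

@[fun_prop] theorem PolyF.val {f : γ → List Bool} (hf : PolyF f) :
    PolyF (fun x => val (f x)) := by
  have h1 : PolyF (fun l : List Bool => l.reverse.foldl
      (fun (s : List Bool) b => if (decide (b = false) && s.isEmpty) = true then [] else b :: s) []) := by
    refine PolyF.foldl (by fun_prop) (by fun_prop) (by fun_prop) (fun l => sz l) PolyB.sz ?_
    intro l l₁ hl₁
    have h2 : ∀ (m s : List Bool), sz (m.foldl (fun (s : List Bool) b =>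
        if (decide (b = false) && s.isEmpty) = true then [] else b :: s) s) + 1 ≤ sz m + sz s := by
      intro m
      induction m with
      | nil => intro s; simp [sz_nil, Nat.add_comm]
      | cons b m ih =>
        intro s
        rw [List.foldl_cons, sz_cons]
        by_cases hc : (decide (b = false) && s.isEmpty) = true
        · rw [if_pos hc]
          have h5 := ih []
          have h6 := sz_pos s
          rw [sz_nil] at h5
          omega
        · rw [if_neg hc]
          have := ih (b :: s)
          rw [sz_cons] at this
          omega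
    have h3 := h2 l₁ []
    have h4 := sz_le_of_prefix hl₁
    rw [sz_nil] at h3
    rw [sz_reverse] at h4
    omega
  have h2 : PolyF (fun l : List Bool => (Pool.Agent.PT.val l).bits) := by
    refine h1.congr (fun l => ?_)
    rw [val_bits_foldr, List.foldl_reverse]
    simp
  obtain ⟨g, hg, hg'⟩ := h2
  have h3 : PolyF (fun l : List Bool => Pool.Agent.PT.val l) := ⟨g, hg, hg'⟩
  exact h3.comp hf

@[fun_prop] theorem PolyF.nat_add {f g : γ → ℕ} (hf : PolyF f) (hg : PolyF g) :
    PolyF (fun x => f x + g x) := by
  have h1 : PolyF (fun p : ℕ × ℕ => (true :: (p.1.bits ++ p.2.bits)).foldl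
      (fun s _ => addStep s) (p.1.bits, p.2.bits, false, [])) := by
    refine PolyF.foldl (f := fun _ s _ => addStep s) ?_ (by fun_prop) (by fun_prop)
      (fun p => sz p + 4 * sz p + 20) ((PolyB.sz.add ((PolyB.const 4).mul PolyB.sz)).add (PolyB.const 20)) ?_
    · unfold addStep
      fun_prop
    · rintro ⟨a, b⟩ K hK
      obtain ⟨c', h⟩ := add_foldl K a.bits b.bits false []
      rw [h, sz_pair, sz_pair, sz_pair, List.append_nil, sz_reverse]
      have h2 := sz_drop K.length a.bits
      have h3 := sz_drop K.length b.bits
      have h4 := sz_bool c'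
      have h5 := sz_bits_le (addR K.length a.bits b.bits false)
      rw [addR_length] at h5
      have h6 := hK.length_le
      have h7 := le_sz_bits a.bits
      have h8 := le_sz_bits b.bits
      simp only [List.length_cons, List.length_append] at h6
      rw [sz_pair, sz_nat a, sz_nat b]
      omega
  have h2 : PolyF (fun p : ℕ × ℕ => p.1 + p.2) := by
    refine (h1.snd.snd.snd.reverse.val).congr ?_
    rintro ⟨a, b⟩
    obtain ⟨c', h⟩ := add_foldl (true :: (a.bits ++ b.bits)) a.bits b.bits false []
    show Pool.Agent.PT.val ((true :: (a.bits ++ b.bits)).foldl (fun s _ => addStep s)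
      (a.bits, b.bits, false, [])).2.2.2.reverse = _
    rw [h]
    simp only [List.append_nil, List.reverse_reverse]
    rw [addR_val _ _ _ _ (by simp) (by simp), val_bits, val_bits]
    simp
  exact h2.comp (hf.pair hg)

@[fun_prop] theorem PolyF.nat_le {f g : γ → ℕ} (hf : PolyF f) (hg : PolyF g) :
    PolyF (fun x => decide (f x ≤ g x)) := by
  have h1 : PolyF (fun p : ℕ × ℕ => (p.1.bits ++ p.2.bits).foldl
      (fun s _ => leStep s) (p.1.bits, p.2.bits, true)) := by
    refine PolyF.foldl (f := fun _ s _ => leStep s) ?_ (by fun_prop) (by fun_prop)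
      (fun p => sz p + 20) (PolyB.sz.add (PolyB.const 20)) ?_
    · unfold leStep
      fun_prop
    · rintro ⟨a, b⟩ K hK
      obtain ⟨c', h, _⟩ := le_foldl K a.bits b.bits true
      rw [h, sz_pair, sz_pair]
      have h2 := sz_drop K.length a.bits
      have h3 := sz_drop K.length b.bits
      have h4 := sz_bool c'
      rw [sz_pair, sz_nat a, sz_nat b]
      omega
  have h2 : PolyF (fun p : ℕ × ℕ => decide (p.1 ≤ p.2)) := by
    refine (h1.snd.snd).congr ?_
    rintro ⟨a, b⟩
    obtain ⟨c', h, h'⟩ := le_foldl (a.bits ++ b.bits) a.bits b.bits true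
    show ((a.bits ++ b.bits).foldl (fun s _ => leStep s) (a.bits, b.bits, true)).2.2 = _
    rw [h]
    show c' = _
    rw [h' (by simp) (by simp), val_bits, val_bits]
    by_cases hab : a = b
    · simp [hab]
    · rw [if_neg hab]
      simp only [decide_eq_decide]
      omega
  exact h2.comp (hf.pair hg)

@[fun_prop] theorem PolyF.nat_lt {f g : γ → ℕ} (hf : PolyF f) (hg : PolyF g) :
    PolyF (fun x => decide (f x < g x)) :=
  (PolyF.not (hg.nat_le hf)).congr (fun x => by
    rw [Bool.eq_iff_iff]; simp)

@[fun_prop] theorem PolyF.nat_min {f g : γ → ℕ} (hf : PolyF f) (hg : PolyF g) :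
    PolyF (fun x => min (f x) (g x)) :=
  (PolyF.iteb (hf.nat_le hg) hf hg).congr (fun x => by
    by_cases h : f x ≤ g x
    · simp [h]
    · simp [h]; omega)

@[fun_prop] theorem PolyF.nat_max {f g : γ → ℕ} (hf : PolyF f) (hg : PolyF g) :
    PolyF (fun x => max (f x) (g x)) :=
  (PolyF.iteb (hf.nat_le hg) hg hf).congr (fun x => by
    by_cases h : f x ≤ g x
    · simp [h]
    · simp [h]; omega)

omit hC in
theorem bits_headD (n : ℕ) : n.bits.headD false = decide (n % 2 = 1) := by
  rcases Nat.even_or_odd' n with ⟨m, h | h⟩
  · by_cases hm : m = 0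
    · subst hm; subst h; simp
    · rw [h, Nat.bit0_bits _ hm]
      simp
  · rw [h, Nat.bit1_bits]
    simp only [List.headD_cons]
    symm
    simp only [decide_eq_true_eq]
    omega

@[fun_prop] theorem PolyF.nat_odd {f : γ → ℕ} (hf : PolyF f) :
    PolyF (fun x => decide (f x % 2 = 1)) :=
  (hf.bits.headD (PolyF.const false)).congr (fun _ => bits_headD _)

/-! ### Lists and numbers -/

omit hC [Dat α] in
theorem length_foldl (l : List α) : ∀ n : ℕ, l.foldl (fun s _ => s + 1) n = n + l.length := by
  induction l with
  | nil => intro n; rfl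
  | cons a l ih => intro n; rw [List.foldl_cons, ih, List.length_cons]; omega

@[fun_prop] theorem PolyF.length {f : γ → List α} (hf : PolyF f) :
    PolyF (fun x => (f x).length) := by
  have h1 : PolyF (fun x => (f x).foldl (fun (s : ℕ) _ => s + 1) 0) := by
    refine PolyF.foldl (by fun_prop) (by fun_prop) hf (fun x => 4 * sz (f x) + 1)
      (((PolyB.const 4).mul hf.bound).add (PolyB.const 1)) ?_
    intro x l₁ hl₁
    rw [length_foldl]
    have h2 := sz_nat_le (0 + l₁.length)
    have h3 := length_lt_sz l₁
    have h4 := sz_le_of_prefix hl₁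
    omega
  exact h1.congr (fun x => by rw [length_foldl]; omega)

@[fun_prop] theorem PolyF.countP {f : γ → α → Bool} {l : γ → List α}
    (hf : PolyF (fun p : γ × α => f p.1 p.2)) (hl : PolyF l) :
    PolyF (fun x => (l x).countP (f x)) :=
  (PolyF.length (hf.filter (l := l) hl)).congr (fun x => by rw [List.countP_eq_length_filter])

omit hC [Dat α] in
theorem getD_foldl (n : ℕ) (l : List α) : ∀ (i : ℕ) (r : α),
    l.foldl (fun (s : ℕ × α) a => (s.1 + 1, if decide (s.1 = n) = true then a else s.2)) (i, r) =
      (i + l.length, if i ≤ n then l.getD (n - i) r else r) := by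
  induction l with
  | nil => intro i r; simp
  | cons a l ih =>
    intro i r
    rw [List.foldl_cons, ih]
    simp only [Prod.mk.injEq, List.length_cons]
    refine ⟨by omega, ?_⟩
    by_cases h : i = n
    · subst h
      simp
    · by_cases h' : i ≤ n
      · have h1 : i + 1 ≤ n := by omega
        have h2 : n - i = (n - (i + 1)) + 1 := by omega
        rw [if_pos h1, if_pos h', h2, List.getD_cons_succ]
        simp [h]
      · have h1 : ¬ i + 1 ≤ n := by omega
        rw [if_neg h1, if_neg h']
        simp [h]

@[fun_prop] theorem PolyF.getD {f : γ → List α} {n : γ → ℕ} {d : γ → α} (hf : PolyF f)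
    (hn : PolyF n) (hd : PolyF d) : PolyF (fun x => (f x).getD (n x) (d x)) := by
  have h1 : PolyF (fun x => (f x).foldl
      (fun (s : ℕ × α) a => (s.1 + 1, if decide (s.1 = n x) = true then a else s.2)) (0, d x)) := by
    refine PolyF.foldl (by fun_prop) (by fun_prop) hf
      (fun x => (4 * sz (f x) + 1) + (sz (f x) + sz (d x)) + 1)
      (((((PolyB.const 4).mul hf.bound).add (PolyB.const 1)).add (hf.bound.add hd.bound)).add
        (PolyB.const 1)) ?_
    intro x l₁ hl₁
    rw [getD_foldl, sz_pair]
    have h2 := sz_nat_le (0 + l₁.length)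
    have h3 := length_lt_sz l₁
    have h4 := sz_le_of_prefix hl₁
    have h5 : sz (if 0 ≤ n x then l₁.getD (n x - 0) (d x) else d x) ≤ sz (f x) + sz (d x) := by
      rw [if_pos (Nat.zero_le _)]
      by_cases hlt : n x - 0 < l₁.length
      · have := sz_mem (List.getElem_mem hlt)
        rw [List.getD_eq_getElem _ _ hlt]
        omega
      · rw [List.getD_eq_default _ _ (by omega)]
        omega
    omega
  refine h1.snd.congr (fun x => ?_)
  rw [getD_foldl]
  simp

omit hC [Dat α] in
theorem range_foldl (l : List α) : ∀ (i : ℕ) (r : List ℕ),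
    l.foldl (fun (s : ℕ × List ℕ) _ => (s.1 + 1, s.1 :: s.2)) (i, r) =
      (i + l.length, (List.range' i l.length).reverse ++ r) := by
  induction l with
  | nil => intro i r; simp
  | cons a l ih =>
    intro i r
    rw [List.foldl_cons, ih, List.length_cons, List.range'_succ]
    simp only [Prod.mk.injEq]
    refine ⟨by omega, ?_⟩
    simp

@[fun_prop] theorem PolyF.range_length {f : γ → List α} (hf : PolyF f) :
    PolyF (fun x => List.range (f x).length) := by
  have h1 : PolyF (fun x => (f x).foldl
      (fun (s : ℕ × List ℕ) _ => (s.1 + 1, s.1 :: s.2)) (0, [])) := by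
    refine PolyF.foldl (by fun_prop) (by fun_prop) hf
      (fun x => (4 * sz (f x) + 1) + (sz (f x) * (4 * sz (f x) + 2) + 1) + 1)
      (((((PolyB.const 4).mul hf.bound).add (PolyB.const 1)).add ((hf.bound.mul
        (((PolyB.const 4).mul hf.bound).add (PolyB.const 2))).add (PolyB.const 1))).add (PolyB.const 1)) ?_
    intro x l₁ hl₁
    rw [range_foldl, sz_pair, List.append_nil, sz_reverse]
    have h2 := sz_nat_le (0 + l₁.length)
    have h3 := length_lt_sz l₁
    have h4 := sz_le_of_prefix hl₁
    have h5 : sz (List.range' 0 l₁.length) ≤ l₁.length * ((4 * l₁.length + 1) + 1) + 1 := by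
      have := sz_list_le (l := List.range' 0 l₁.length) (M := 4 * l₁.length + 1) (by
        intro a ha
        have h6 := sz_nat_le a
        have h7 : a < l₁.length := by
          simpa using ha
        omega)
      rwa [List.length_range'] at this
    have h6 : l₁.length * ((4 * l₁.length + 1) + 1) ≤ sz (f x) * (4 * sz (f x) + 2) :=
      Nat.mul_le_mul (by omega) (by omega)
    omega
  refine h1.snd.reverse.congr (fun x => ?_)
  rw [range_foldl, List.range_eq_range']
  simp

/-! ### Integers -/

@[fun_prop] theorem PolyF.toNat {f : γ → ℤ} (hf : PolyF f) : PolyF (fun x => (f x).toNat) := by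
  have h : PolyF (fun z : ℤ => z.toNat) := ⟨D.fst, pt_univ hC.out.fst _, fun _ => rfl⟩
  exact h.comp hf

@[fun_prop] theorem PolyF.negToNat {f : γ → ℤ} (hf : PolyF f) :
    PolyF (fun x => (-(f x)).toNat) := by
  have h : PolyF (fun z : ℤ => (-z).toNat) := ⟨D.snd, pt_univ hC.out.snd _, fun _ => rfl⟩
  exact h.comp hf

@[fun_prop] theorem PolyF.natCast {f : γ → ℕ} (hf : PolyF f) : PolyF (fun x => (f x : ℤ)) := by
  have h : PolyF (fun n : ℕ => (n, 0)) := by fun_prop
  obtain ⟨g, hg, hg'⟩ := h
  have h2 : PolyF (fun n : ℕ => (n : ℤ)) := by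
    refine ⟨g, hg, fun n => ?_⟩
    rw [hg']
    show enc (n, 0) = enc ((n : ℤ).toNat, (-(n : ℤ)).toNat)
    congr 2
    omega
  exact h2.comp hf

@[fun_prop] theorem PolyF.negNatCast {f : γ → ℕ} (hf : PolyF f) :
    PolyF (fun x => -(f x : ℤ)) := by
  have h : PolyF (fun n : ℕ => (0, n)) := by fun_prop
  obtain ⟨g, hg, hg'⟩ := h
  have h2 : PolyF (fun n : ℕ => -(n : ℤ)) := by
    refine ⟨g, hg, fun n => ?_⟩
    rw [hg']
    show enc (0, n) = enc ((-(n : ℤ)).toNat, (-(-(n : ℤ))).toNat)
    congr 2 <;> omega
  exact h2.comp hf

@[fun_prop] theorem PolyF.natAbs {f : γ → ℤ} (hf : PolyF f) : PolyF (fun x => (f x).natAbs) :=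
  (hf.toNat.nat_add hf.negToNat).congr (fun x => by omega)

@[fun_prop] theorem PolyF.int_le {f g : γ → ℤ} (hf : PolyF f) (hg : PolyF g) :
    PolyF (fun x => decide (f x ≤ g x)) :=
  (PolyF.and (hf.toNat.nat_le hg.toNat) (hg.negToNat.nat_le hf.negToNat)).congr (fun x => by
    rw [Bool.eq_iff_iff]
    simp only [Bool.and_eq_true, decide_eq_true_eq]
    omega)

@[fun_prop] theorem PolyF.int_lt {f g : γ → ℤ} (hf : PolyF f) (hg : PolyF g) :
    PolyF (fun x => decide (f x < g x)) :=
  (PolyF.not (hg.int_le hf)).congr (fun x => by
    rw [Bool.eq_iff_iff]; simp)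

@[fun_prop] theorem PolyF.int_min {f g : γ → ℤ} (hf : PolyF f) (hg : PolyF g) :
    PolyF (fun x => min (f x) (g x)) :=
  (PolyF.iteb (hf.int_le hg) hf hg).congr (fun x => by
    by_cases h : f x ≤ g x
    · simp [h]
    · simp [h]; omega)

@[fun_prop] theorem PolyF.int_max {f g : γ → ℤ} (hf : PolyF f) (hg : PolyF g) :
    PolyF (fun x => max (f x) (g x)) :=
  (PolyF.iteb (hf.int_le hg) hg hf).congr (fun x => by
    by_cases h : f x ≤ g x
    · simp [h]
    · simp [h]; omega)

end Pool.Agent.PT
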