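import Pool.Agent.PT.GProg
import Pool.Agent.PT.Core
import Pool.Agent.PT.Num

/-!
# Input and output over arbitrary finite alphabets

`tm_of_polyF`: if `F : List Γ₁ → List Γ₂` is computable in polynomial time (`PolyF F`) and
`F (ea a) = eb (f a)` for all `a`, then `f` is computed by a polynomial time Turing machine with
input encoding `ea` over the alphabet `Γ₁` and output encoding `eb` over the alphabet `Γ₂`.
-/

set_option autoImplicit false

namespace Pool.Agent.PT

open Pool.Agent.StackProg Function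

/-- The stacks: those of the tree machine, the input stack and the output stack. -/
abbrev GK : Type := Stk ⊕ Bool

/-- The alphabets. -/
@[reducible] def GA (Γ₁ Γ₂ : Type) : GK → Type
  | .inl _ => Sym
  | .inr false => Γ₁
  | .inr true => Γ₂

/-- The register. -/
abbrev GReg (Γ₁ : Type) : Type := Reg × Option Γ₁

section

variable {Γ₁ Γ₂ : Type}

/-- Stack contents. -/
def stk (S : Stk → List Sym) (a : List Γ₁) (b : List Γ₂) : ∀ k : GK, List (GA Γ₁ Γ₂ k)
  | .inl k => S k
  | .inr false => a
  | .inr true => b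

theorem stk_l (S : Stk → List Sym) (a : List Γ₁) (b : List Γ₂) (k : Stk) (x : List Sym) :
    update (stk S a b) (.inl k) x = stk (update S k x) a b := by
  funext j
  by_cases h : j = .inl k
  · subst h
    exact (update_self (β := fun k => List (GA Γ₁ Γ₂ k)) _ _ _).trans
      (update_self (β := fun _ => List Sym) k x S).symm
  · refine (update_of_ne (β := fun k => List (GA Γ₁ Γ₂ k)) h _ _).trans ?_
    rcases j with j | j
    · have h' : j ≠ k := fun h' => h (by rw [h'])
      exact (update_of_ne (β := fun _ => List Sym) h' x S).symm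
    · cases j <;> rfl

theorem stk_in (S : Stk → List Sym) (a : List Γ₁) (b : List Γ₂) (x : List Γ₁) :
    update (stk S a b) (.inr false) x = stk S x b := by
  funext j
  by_cases h : j = .inr false
  · subst h; exact update_self (β := fun k => List (GA Γ₁ Γ₂ k)) _ _ _
  · refine (update_of_ne (β := fun k => List (GA Γ₁ Γ₂ k)) h _ _).trans ?_
    rcases j with j | j
    · rfl
    · cases j
      · exact absurd rfl h
      · rfl

theorem stk_out (S : Stk → List Sym) (a : List Γ₁) (b : List Γ₂) (x : List Γ₂) :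
    update (stk S a b) (.inr true) x = stk S a x := by
  funext j
  by_cases h : j = .inr true
  · subst h; exact update_self (β := fun k => List (GA Γ₁ Γ₂ k)) _ _ _
  · refine (update_of_ne (β := fun k => List (GA Γ₁ Γ₂ k)) h _ _).trans ?_
    rcases j with j | j
    · rfl
    · cases j
      · rfl
      · exact absurd rfl h

/-- Programs of the tree machine as programs of the big machine. -/
def embP : Prog Stk Sym Reg → GProg GK (GA Γ₁ Γ₂) (GReg Γ₁)
  | .skip => .skip
  | .push k f => .push (.inl k) (fun v => f v.1)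
  | .pop k f => .pop (.inl k) (fun v o => (f v.1 o, v.2))
  | .load f => .load (fun v => (f v.1, v.2))
  | .seq p q => .seq (embP p) (embP q)
  | .ite f p q => .ite (fun v => f v.1) (embP p) (embP q)
  | .loop k f p => .loop (.inl k) (fun v c => (f v.1 c, v.2)) (embP p)

theorem embP_exec {p : Prog Stk Sym Reg} {s s' : Reg × (Stk → List Sym)} {n : ℕ}
    (h : Exec p s n s') : ∀ (t : Option Γ₁) (a : List Γ₁) (b : List Γ₂),
      GExec (embP p) ((s.1, t), stk s.2 a b) n ((s'.1, t), stk s'.2 a b) := by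
  induction h with
  | skip s => intro t a b; exact .skip _
  | push k f v S =>
    intro t a b
    have := GExec.push (Γ := GA Γ₁ Γ₂) (.inl k) (fun v : GReg Γ₁ => f v.1) (v, t) (stk S a b)
    rw [stk_l] at this
    exact this
  | pop k f v S =>
    intro t a b
    have := GExec.pop (Γ := GA Γ₁ Γ₂) (.inl k) (fun (v : GReg Γ₁) o => (f v.1 o, v.2)) (v, t)
      (stk S a b)
    rw [stk_l] at this
    exact this
  | load f v S => intro t a b; exact .load _ _ _
  | seq _ _ ih1 ih2 => intro t a b; exact .seq (ih1 t a b) (ih2 t a b)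
  | iteT hf _ ih => intro t a b; exact .iteT (by exact hf) (ih t a b)
  | iteF hf _ ih => intro t a b; exact .iteF (by exact hf) (ih t a b)
  | loopNil hS => intro t a b; exact .loopNil (by exact hS)
  | @loopCons k f p v S c l s' s'' n n' hS _ _ ih1 ih2 =>
    intro t a b
    have h1 := ih1 t a b
    rw [← stk_l] at h1
    exact GExec.loopCons (Γ := GA Γ₁ Γ₂) (k := .inl k)
      (f := fun (v : GReg Γ₁) c => (f v.1 c, v.2)) (v := (v, t)) (S := stk S a b) hS h1
      (ih2 t a b)

/-- Bounded execution. -/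
def GR (p : GProg GK (GA Γ₁ Γ₂) (GReg Γ₁)) (v : GReg Γ₁) (S : ∀ k, List (GA Γ₁ Γ₂ k)) (T : ℕ)
    (v' : GReg Γ₁) (S' : ∀ k, List (GA Γ₁ Γ₂ k)) : Prop :=
  ∃ n, n ≤ T ∧ GExec p (v, S) n (v', S')

theorem GR.mono {p : GProg GK (GA Γ₁ Γ₂) (GReg Γ₁)} {v v' : GReg Γ₁}
    {S S' : ∀ k, List (GA Γ₁ Γ₂ k)} {T T' : ℕ} (h : GR p v S T v' S') (hT : T ≤ T') :
    GR p v S T' v' S' := by
  obtain ⟨n, hn, h⟩ := h
  exact ⟨n, hn.trans hT, h⟩

theorem GR.seq {p q : GProg GK (GA Γ₁ Γ₂) (GReg Γ₁)} {v v' v'' : GReg Γ₁}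
    {S S' S'' : ∀ k, List (GA Γ₁ Γ₂ k)} {T T' : ℕ} (h : GR p v S T v' S')
    (h' : GR q v' S' T' v'' S'') : GR (.seq p q) v S (T + T') v'' S'' := by
  obtain ⟨n, hn, h⟩ := h
  obtain ⟨n', hn', h'⟩ := h'
  exact ⟨n + n', by omega, .seq h h'⟩

theorem GR.iteT {p q : GProg GK (GA Γ₁ Γ₂) (GReg Γ₁)} {v v' : GReg Γ₁}
    {S S' : ∀ k, List (GA Γ₁ Γ₂ k)} {T : ℕ} {f : GReg Γ₁ → Bool} (hf : f v = true)
    (h : GR p v S T v' S') : GR (.ite f p q) v S (T + 1) v' S' := by
  obtain ⟨n, hn, h⟩ := h
  exact ⟨1 + n, by omega, .iteT hf h⟩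

theorem GR.iteF {p q : GProg GK (GA Γ₁ Γ₂) (GReg Γ₁)} {v v' : GReg Γ₁}
    {S S' : ∀ k, List (GA Γ₁ Γ₂ k)} {T : ℕ} {f : GReg Γ₁ → Bool} (hf : f v = false)
    (h : GR q v S T v' S') : GR (.ite f p q) v S (T + 1) v' S' := by
  obtain ⟨n, hn, h⟩ := h
  exact ⟨1 + n, by omega, .iteF hf h⟩

theorem GR.emb {p : Prog Stk Sym Reg} {v v' : Reg} {S S' : Stk → List Sym} {T : ℕ}
    (h : R p v S T v' S') (t : Option Γ₁) (a : List Γ₁) (b : List Γ₂) :
    GR (embP p) (v, t) (stk S a b) T (v', t) (stk S' a b) := by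
  obtain ⟨n, hn, h⟩ := h
  exact ⟨n, hn, embP_exec h t a b⟩

variable [DecidableEq Γ₁] [DecidableEq Γ₂]

/-- The code of a string over the alphabet with the given list of letters. -/
def uD {Γ : Type} [DecidableEq Γ] (u : List Γ) (w : List Γ) : D :=
  D.ofList (w.map (fun c => D.un (u.idxOf c)))

/-- Write the code of the letter in the register. -/
def selE : List Γ₁ → ℕ → GProg GK (GA Γ₁ Γ₂) (GReg Γ₁)
  | [], _ => .skip
  | c :: l, k => .ite (fun v => decide (v.2 = some c)) (embP (pushL (.i :: (D.un k).code)))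
      (selE l (k + 1))

theorem gr_selE (c : Γ₁) (a : List Γ₁) (b : List Γ₂) (r : List Sym) :
    ∀ (l : List Γ₁) (k : ℕ) (v : Reg), c ∈ l → ∃ v' : Reg,
      GR (selE l k) (v, some c) (stk (mkS r [] [] [] []) a b) (3 * l.length + 2 * k + 4)
        (v', some c)
        (stk (mkS (.i :: ((D.un (k + l.idxOf c)).code ++ r)) [] [] [] []) a b) := by
  intro l
  induction l with
  | nil => intro k v h; simp at h
  | cons x l ih =>
    intro k v h
    by_cases hx : x = c
    · subst hx
      obtain ⟨v', h1⟩ := q_pushL r [] [] [] (.i :: (D.un k).code) v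
      refine ⟨v', ?_⟩
      rw [List.idxOf_cons_self, Nat.add_zero]
      refine (GR.iteT (by simp) (GR.emb h1 (some x) a b)).mono ?_
      simp only [List.length_cons, D.code_length, size_un]
      omega
    · have hm : c ∈ l := by
        rcases List.mem_cons.1 h with h | h
        · exact absurd h.symm hx
        · exact h
      obtain ⟨v', h1⟩ := ih (k + 1) v hm
      refine ⟨v', ?_⟩
      have h2 := (GR.iteF (p := embP (pushL (.i :: (D.un k).code)))
        (f := fun v : GReg Γ₁ => decide (v.2 = some x)) (by simpa using fun h => hx h.symm) h1).mono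
        (T' := 3 * (x :: l).length + 2 * k + 4) (by simp only [List.length_cons]; omega)
      rw [List.idxOf_cons_ne _ hx]
      rw [show k + (List.idxOf c l).succ = k + 1 + List.idxOf c l by omega]
      exact h2

/-- Read the input. -/
def loopIn (u : List Γ₁) : GProg GK (GA Γ₁ Γ₂) (GReg Γ₁) :=
  .loop (.inr false) (fun v c => (v.1, some c)) (selE u 0)

theorem gr_loopIn (u : List Γ₁) (hu : ∀ c, c ∈ u) (b : List Γ₂) :
    ∀ (w x : List Γ₁) (v : GReg Γ₁), ∃ v' : GReg Γ₁,
      GR (loopIn u) v (stk (mkS (uD u x).code [] [] [] []) w b)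
        ((3 * u.length + 5) * w.length + 1) v'
        (stk (mkS (uD u (w.reverse ++ x)).code [] [] [] []) [] b) := by
  intro w
  induction w with
  | nil => intro x v; exact ⟨v, 1, by simp, .loopNil rfl⟩
  | cons c w ih =>
    intro x v
    obtain ⟨v1, n, hn, h1⟩ := gr_selE c w b (uD u x).code u 0 v.1 (hu c)
    obtain ⟨v', n', hn', h2⟩ := ih (c :: x) (v1, some c)
    refine ⟨v', 1 + n + n', ?_, ?_⟩
    · simp only [List.length_cons]
      rw [Nat.mul_add]
      omega
    · have e : (c :: w).reverse ++ x = w.reverse ++ c :: x := by simp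
      rw [e]
      refine GExec.loopCons (c := c) (l := w) rfl ?_ h2
      rw [stk_in]
      rw [Nat.zero_add] at h1
      exact h1

/-- Read the code of a letter and write it on the output stack. -/
def decG : List Γ₂ → GProg GK (GA Γ₁ Γ₂) (GReg Γ₁)
  | [] => .skip
  | c :: l => .seq (.pop (.inl .main) (fun v o => ((o, v.1.2), v.2)))
      (.ite (fun v => decide (v.1.1 = some .o)) (.push (.inr true) (fun _ => c))
        (.seq (.pop (.inl .main) (fun v _ => v)) (decG l)))

omit [DecidableEq Γ₁] in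
theorem gr_popMain (f : GReg Γ₁ → Option Sym → GReg Γ₁) (v : GReg Γ₁) (s : Sym)
    (r C : List Sym) (a : List Γ₁) (b : List Γ₂) :
    GR (.pop (.inl .main) f) v (stk (mkS (s :: r) [] [] [] C) a b) 1 (f v (some s))
      (stk (mkS r [] [] [] C) a b) := by
  refine ⟨1, le_refl _, ?_⟩
  have := GExec.pop (Γ := GA Γ₁ Γ₂) (.inl .main) f v (stk (mkS (s :: r) [] [] [] C) a b)
  rw [stk_l, upd_main] at this
  exact this

omit [DecidableEq Γ₁] in
theorem gr_decG (c : Γ₂) (a : List Γ₁) (r : List Sym) :
    ∀ (l : List Γ₂) (b : List Γ₂) (v : GReg Γ₁), c ∈ l → ∃ v' : GReg Γ₁,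
      GR (decG l) v (stk (mkS ((D.un (l.idxOf c)).code ++ r) [] [] [] []) a b)
        (3 * l.length + 3) v' (stk (mkS r [] [] [] []) a (c :: b)) := by
  intro l
  induction l with
  | nil => intro b v h; simp at h
  | cons x l ih =>
    intro b v h
    by_cases hx : x = c
    · subst hx
      rw [List.idxOf_cons_self]
      have h1 := gr_popMain (fun (v : GReg Γ₁) o => ((o, v.1.2), v.2)) v .o r [] a b
      have h2 : GR (.push (.inr true) (fun _ => x)) ((some .o, v.1.2), v.2)
          (stk (mkS r [] [] [] []) a b) 1 ((some .o, v.1.2), v.2)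
          (stk (mkS r [] [] [] []) a (x :: b)) := by
        refine ⟨1, le_refl _, ?_⟩
        have := GExec.push (Γ := GA Γ₁ Γ₂) (.inr true) (fun _ : GReg Γ₁ => x)
          ((some .o, v.1.2), v.2) (stk (mkS r [] [] [] []) a b)
        rw [stk_out] at this
        exact this
      refine ⟨_, (h1.seq (GR.iteT (by simp) h2)).mono ?_⟩
      omega
    · have hm : c ∈ l := by
        rcases List.mem_cons.1 h with h | h
        · exact absurd h.symm hx
        · exact h
      rw [List.idxOf_cons_ne _ hx]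
      have h1 := gr_popMain (fun (v : GReg Γ₁) o => ((o, v.1.2), v.2)) v .i
        (.o :: ((D.un (l.idxOf c)).code ++ r)) [] a b
      have h2 := gr_popMain (fun (v : GReg Γ₁) _ => v) ((some .i, v.1.2), v.2) .o
        ((D.un (l.idxOf c)).code ++ r) [] a b
      obtain ⟨v', h3⟩ := ih b ((some .i, v.1.2), v.2) hm
      refine ⟨v', (h1.seq (GR.iteF (by simp) (h2.seq h3))).mono ?_⟩
      simp only [List.length_cons]
      omega

/-- The body of the output loop. -/
def decBody (u : List Γ₂) : GProg GK (GA Γ₁ Γ₂) (GReg Γ₁) :=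
  .seq (.pop (.inl .main) (fun v o => ((o, v.1.2), v.2)))
    (.ite (fun v => decide (v.1.1 = some .i))
      (.seq (decG u) (.push (.inl .ctl) (fun _ => .m))) .skip)

/-- Write the output. -/
def loopOut (u : List Γ₂) : GProg GK (GA Γ₁ Γ₂) (GReg Γ₁) :=
  .loop (.inl .ctl) (fun v _ => v) (decBody u)

omit [DecidableEq Γ₁] in
theorem gr_loopOut (u : List Γ₂) (hu : ∀ c, c ∈ u) (a : List Γ₁) :
    ∀ (w b : List Γ₂) (v : GReg Γ₁), ∃ v' : GReg Γ₁,
      GR (loopOut u) v (stk (mkS (uD u w).code [] [] [] [.m]) a b)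
        ((3 * u.length + 7) * w.length + 5) v' (stk (mkS [] [] [] [] []) a (w.reverse ++ b)) := by
  intro w
  induction w with
  | nil =>
    intro b v
    have h1 := gr_popMain (fun (v : GReg Γ₁) o => ((o, v.1.2), v.2)) v .o [] [] a b
    obtain ⟨n, hn, h2⟩ := h1.seq (GR.iteF (f := fun v : GReg Γ₁ => decide (v.1.1 = some .i))
      (p := .seq (decG u) (.push (.inl .ctl) (fun _ => .m))) (q := .skip) (by simp)
      ⟨1, le_refl _, .skip _⟩)
    refine ⟨((some .o, v.1.2), v.2), 1 + n + 1, by simp; omega, ?_⟩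
    refine GExec.loopCons (c := Sym.m) (l := []) rfl ?_ (.loopNil rfl)
    rw [stk_l, upd_ctl]
    exact h2
  | cons c w ih =>
    intro b v
    have h1 := gr_popMain (fun (v : GReg Γ₁) o => ((o, v.1.2), v.2)) v .i
      ((D.un (u.idxOf c)).code ++ (uD u w).code) [] a b
    obtain ⟨v1, h2⟩ := gr_decG (Γ₁ := Γ₁) c a (uD u w).code u b ((some .i, v.1.2), v.2) (hu c)
    have h3 : GR (.push (.inl .ctl) (fun _ => .m)) v1
        (stk (mkS (uD u w).code [] [] [] []) a (c :: b)) 1 v1
        (stk (mkS (uD u w).code [] [] [] [.m]) a (c :: b)) := by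
      refine ⟨1, le_refl _, ?_⟩
      have := GExec.push (Γ := GA Γ₁ Γ₂) (.inl .ctl) (fun _ : GReg Γ₁ => Sym.m) v1
        (stk (mkS (uD u w).code [] [] [] []) a (c :: b))
      rw [stk_l, upd_ctl] at this
      exact this
    obtain ⟨n, hn, h4⟩ := h1.seq (GR.iteT (f := fun v : GReg Γ₁ => decide (v.1.1 = some .i))
      (q := .skip) (by simp) (h2.seq h3))
    obtain ⟨v', n', hn', h5⟩ := ih (c :: b) v1
    refine ⟨v', 1 + n + n', ?_, ?_⟩
    · simp only [List.length_cons]
      rw [Nat.mul_add]
      omega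
    · have e : (c :: w).reverse ++ b = w.reverse ++ c :: b := by simp
      rw [e]
      refine GExec.loopCons (c := Sym.m) (l := []) rfl ?_ h5
      rw [stk_l, upd_ctl]
      exact h4

theorem size_uD_le {Γ : Type} [DecidableEq Γ] (u : List Γ) (w : List Γ) :
    (uD u w).size ≤ (2 * u.length + 4) * w.length + 1 := by
  induction w with
  | nil => simp [uD, D.ofList, D.size]
  | cons c w ih =>
    have h1 := List.idxOf_le_length (a := c) (l := u)
    have h2 := size_un (u.idxOf c)
    unfold uD at ih ⊢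
    simp only [List.map_cons, D.ofList, D.size, List.length_cons]
    rw [Nat.mul_add]
    omega

theorem length_le_uD {Γ : Type} [DecidableEq Γ] (u : List Γ) (w : List Γ) :
    w.length ≤ (uD u w).size := by
  induction w with
  | nil => simp
  | cons c w ih =>
    unfold uD at ih ⊢
    simp only [List.map_cons, D.ofList, D.size, List.length_cons]
    omega

/-- The whole program. -/
def genProg (u₁ : List Γ₁) (u₂ : List Γ₂) (p : Prog Stk Sym Reg) :
    GProg GK (GA Γ₁ Γ₂) (GReg Γ₁) :=
  .seq (embP (pushL [.o])) (.seq (loopIn u₁) (.seq (embP p) (.seq (embP (ps' .ctl .m))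
    (.seq (loopOut u₂) (.load (fun _ => ((none, false, false), none)))))))
where
  /-- Push a constant. -/
  ps' (k : Stk) (s : Sym) : Prog Stk Sym Reg := .push k (fun _ => s)

theorem gonly_in (w : List Γ₁) :
    gonly (K := GK) (Γ := GA Γ₁ Γ₂) (.inr false) w = stk (mkS [] [] [] [] []) w [] := by
  funext k
  rcases k with k | k
  · rw [gonly_ne _ (by simp)]; cases k <;> rfl
  · cases k
    · rw [gonly_self]; rfl
    · rw [gonly_ne _ (by simp)]; rfl

theorem gonly_out (w : List Γ₂) :
    gonly (K := GK) (Γ := GA Γ₁ Γ₂) (.inr true) w = stk (mkS [] [] [] [] []) [] w := by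
  funext k
  rcases k with k | k
  · rw [gonly_ne _ (by simp)]; cases k <;> rfl
  · cases k
    · rw [gonly_ne _ (by simp)]; rfl
    · rw [gonly_self]; rfl

instance [Fintype Γ₁] [Fintype Γ₂] : ∀ k, Fintype (GA Γ₁ Γ₂ k)
  | .inl _ => inferInstanceAs (Fintype Sym)
  | .inr false => inferInstanceAs (Fintype Γ₁)
  | .inr true => inferInstanceAs (Fintype Γ₂)

/-- Input and output over finite alphabets, for functions on trees. -/
theorem tm_of_ptd [Fintype Γ₁] [Fintype Γ₂] (u₁ : List Γ₁) (hu₁ : ∀ c, c ∈ u₁) (u₂ : List Γ₂)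
    (hu₂ : ∀ c, c ∈ u₂) {α β : Type} (ea : α → List Γ₁) (eb : β → List Γ₂) (f : α → β)
    (g : D → D) (hg : PTD (Set.range fun a => uD u₁ (ea a).reverse) g)
    (h : ∀ a, g (uD u₁ (ea a).reverse) = uD u₂ (eb (f a)).reverse) :
    Nonempty (Turing.TM2ComputableInPolyTime ea eb f) := by
  obtain ⟨p, T, ⟨c, hT⟩, ⟨d, hd⟩, hp⟩ := ptd_iff.1 hg
  refine gcomputable (K := GK) (Γ := GA Γ₁ Γ₂) (.inr false) (.inr true) (genProg u₁ u₂ p)
    ((none, false, false), none)
    (Polynomial.C (3 * u₁.length + 5) * Polynomial.X +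
      (Polynomial.C (2 * u₁.length + 4) * Polynomial.X + Polynomial.C 3) ^ c +
      Polynomial.C (3 * u₂.length + 7) *
        (Polynomial.C (2 * u₁.length + 4) * Polynomial.X + Polynomial.C 3) ^ d +
      Polynomial.C 20) fun a => ?_
  have ht : uD u₁ (ea a).reverse ∈ Set.range fun a => uD u₁ (ea a).reverse := ⟨a, rfl⟩
  have hs := size_uD_le u₁ (ea a).reverse
  rw [List.length_reverse] at hs
  have hT' := hT _ ht
  have hd' := hd _ ht
  have hu := length_le_uD u₂ (eb (f a)).reverse
  rw [← h a, List.length_reverse] at hu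
  dsimp only at hd'
  have hc1 : ((uD u₁ (ea a).reverse).size + 2) ^ c ≤
      ((2 * u₁.length + 4) * (ea a).length + 3) ^ c := Nat.pow_le_pow_left (by omega) c
  have hc2 : ((uD u₁ (ea a).reverse).size + 2) ^ d ≤
      ((2 * u₁.length + 4) * (ea a).length + 3) ^ d := Nat.pow_le_pow_left (by omega) d
  obtain ⟨v1, h1⟩ := q_pushL [] [] [] [] [Sym.o] (none, false, false)
  have h1' := GR.emb h1 (none : Option Γ₁) (ea a) ([] : List Γ₂)
  obtain ⟨v2, h2⟩ := gr_loopIn u₁ hu₁ ([] : List Γ₂) (ea a) [] (v1, none)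
  rw [List.append_nil] at h2
  obtain ⟨v3, h3⟩ := hp _ ht [] [] [] [] v2.1
  rw [List.append_nil, List.append_nil, h a] at h3
  have h3' := GR.emb h3 v2.2 ([] : List Γ₁) ([] : List Γ₂)
  have h4 : GR (embP (genProg.ps' .ctl .m)) (v3, v2.2)
      (stk (mkS (uD u₂ (eb (f a)).reverse).code [] [] [] []) ([] : List Γ₁) ([] : List Γ₂)) 1
      (v3, v2.2) (stk (mkS (uD u₂ (eb (f a)).reverse).code [] [] [] [.m]) [] []) := by
    refine GR.emb ?_ _ _ _
    have := R.push (v := v3) (S := mkS (uD u₂ (eb (f a)).reverse).code [] [] [] []) .ctl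
      (fun _ => Sym.m)
    rw [upd_ctl] at this
    exact this
  obtain ⟨v5, h5⟩ := gr_loopOut u₂ hu₂ ([] : List Γ₁) (eb (f a)).reverse [] (v3, v2.2)
  rw [List.reverse_reverse, List.append_nil] at h5
  have h6 : GR (.load (fun _ => ((none, false, false), none))) v5
      (stk (mkS [] [] [] [] []) ([] : List Γ₁) (eb (f a))) 1 ((none, false, false), none)
      (stk (mkS [] [] [] [] []) ([] : List Γ₁) (eb (f a))) := ⟨1, le_refl _, .load _ _ _⟩
  obtain ⟨n, hn, he⟩ := h1'.seq (h2.seq (h3'.seq (h4.seq (h5.seq h6))))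
  refine ⟨n, hn.trans ?_, ?_⟩
  · simp only [Polynomial.eval_add, Polynomial.eval_mul, Polynomial.eval_C, Polynomial.eval_X,
      Polynomial.eval_pow, List.length_cons, List.length_nil, List.length_reverse]
    have h7 : (3 * u₂.length + 7) * (eb (f a)).length ≤ (3 * u₂.length + 7) *
        ((2 * u₁.length + 4) * (ea a).length + 3) ^ d :=
      Nat.mul_le_mul_left _ (hu.trans (hd'.trans hc2))
    omega
  · rw [gonly_in, gonly_out]
    exact he

end

/-! ### Typed version -/

/-- Letters encoded by their number in the list of all letters. -/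
structure FW (Γ : Type) where
  val : Γ

noncomputable instance {Γ : Type} [Fintype Γ] [DecidableEq Γ] : Dat (FW Γ) :=
  ⟨fun c => D.un ((Finset.univ : Finset Γ).toList.idxOf c.val), fun a b h => by
    have h1 := D.un_inj h
    have h2 := (List.idxOf_inj (by simp)).mp h1
    cases a; cases b; simp only at h2; rw [h2]⟩

variable {α β : Type} [Dat α] [Dat β] [hC : Fact Core]

/-- Every function on a finite type is computable in polynomial time. -/
theorem PolyF.finite [Finite α] (f : α → β) : PolyF f := by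
  classical
  have := Fintype.ofFinite α
  rcases isEmpty_or_nonempty α with he | ⟨⟨x₀⟩⟩
  · refine ⟨fun t => t, pt_univ hC.out.id _, fun a => (he.false a).elim⟩
  · have h : ∀ l : List α, PolyF (fun x => l.foldr (fun a r => bif decide (x = a) then f a else r)
        (f x₀)) := by
      intro l
      induction l with
      | nil => exact PolyF.const _
      | cons a l ih =>
        simp only [List.foldr_cons]
        exact PolyF.cond (PolyF.eq PolyF.id (PolyF.const _)) (PolyF.const _) ih
    refine (h (Finset.univ : Finset α).toList).congr (fun x => ?_)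
    have h2 : ∀ l : List α, x ∈ l →
        l.foldr (fun a r => bif decide (x = a) then f a else r) (f x₀) = f x := by
      intro l
      induction l with
      | nil => intro h; simp at h
      | cons a l ih =>
        intro hx
        rw [List.foldr_cons]
        by_cases hxa : x = a
        · subst hxa; simp
        · rw [decide_eq_false hxa, cond_false]
          exact ih ((List.mem_cons.mp hx).resolve_left hxa)
    exact h2 _ (by simp)

/-- Polynomial time functions on strings over finite alphabets are computed by polynomial time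
Turing machines. -/
theorem tm_of_polyF {Γ₁ Γ₂ : Type} [Fintype Γ₁] [Fintype Γ₂] [Dat Γ₁] [Dat Γ₂]
    {F : List Γ₁ → List Γ₂} (hF : PolyF F) {α β : Type} (ea : α → List Γ₁) (eb : β → List Γ₂)
    (f : α → β) (h : ∀ a, F (ea a) = eb (f a)) :
    Nonempty (Turing.TM2ComputableInPolyTime ea eb f) := by
  classical
  have : Finite (FW Γ₁) := Finite.of_injective FW.val (fun a b h => by
    cases a; cases b; simp only at h; rw [h])
  have h1 : PolyF (FW.val (Γ := Γ₁)) := PolyF.finite _
  have h2 : PolyF (FW.mk (Γ := Γ₂)) := PolyF.finite _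
  have h3 : PolyF (fun w : List (FW Γ₁) => (F (w.reverse.map FW.val)).reverse.map FW.mk) := by
    refine PolyF.map (f := fun _ => FW.mk) (h2.comp (PolyF.snd PolyF.id)) ?_
    refine PolyF.reverse (hF.comp ?_)
    exact PolyF.map (f := fun _ => FW.val) (h1.comp (PolyF.snd PolyF.id)) PolyF.id.reverse
  obtain ⟨g, hg, hg'⟩ := h3
  have e1 : ∀ w : List Γ₁, enc (w.map (FW.mk (Γ := Γ₁))) =
      uD (Finset.univ : Finset Γ₁).toList w := by
    intro w
    show D.ofList _ = D.ofList _
    rw [List.map_map]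
    rfl
  have e2 : ∀ w : List Γ₂, enc (w.map (FW.mk (Γ := Γ₂))) =
      uD (Finset.univ : Finset Γ₂).toList w := by
    intro w
    show D.ofList _ = D.ofList _
    rw [List.map_map]
    rfl
  refine tm_of_ptd (Finset.univ : Finset Γ₁).toList (by simp) (Finset.univ : Finset Γ₂).toList
    (by simp) ea eb f g (hg.mono ?_) ?_
  · rintro t ⟨a, rfl⟩
    exact ⟨(ea a).reverse.map FW.mk, e1 _⟩
  · intro a
    have h4 := hg' ((ea a).reverse.map FW.mk)
    simp only at h4
    rw [e1, e2] at h4
    rw [h4, ← List.map_reverse, List.map_map, List.reverse_reverse]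
    have e3 : (FW.val ∘ FW.mk : Γ₁ → Γ₁) = fun x => x := rfl
    rw [e3, List.map_id', h]

end Pool.Agent.PT
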