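import Pool.Agent.PT.Defs

/-!
# Polynomial time on trees: toolkit

Bounded execution, do-while loops, moving trees between the stacks.
-/

set_option autoImplicit false

namespace Pool.Agent.PT

open Pool.Agent.StackProg Function

/-! ### stacks -/

/-- The stack contents given by five lists. -/
def mkS (a b c d e : List Sym) : Stk → List Sym
  | .main => a
  | .aux => b
  | .tmp => c
  | .cnt => d
  | .ctl => e

section mkS
variable (a b c d e x : List Sym)
@[simp] theorem mkS_main : mkS a b c d e .main = a := rfl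
@[simp] theorem mkS_aux : mkS a b c d e .aux = b := rfl
@[simp] theorem mkS_tmp : mkS a b c d e .tmp = c := rfl
@[simp] theorem mkS_cnt : mkS a b c d e .cnt = d := rfl
@[simp] theorem mkS_ctl : mkS a b c d e .ctl = e := rfl
@[simp] theorem upd_main : update (mkS a b c d e) .main x = mkS x b c d e := by
  funext k; cases k <;> rfl
@[simp] theorem upd_aux : update (mkS a b c d e) .aux x = mkS a x c d e := by
  funext k; cases k <;> rfl
@[simp] theorem upd_tmp : update (mkS a b c d e) .tmp x = mkS a b x d e := by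
  funext k; cases k <;> rfl
@[simp] theorem upd_cnt : update (mkS a b c d e) .cnt x = mkS a b c x e := by
  funext k; cases k <;> rfl
@[simp] theorem upd_ctl : update (mkS a b c d e) .ctl x = mkS a b c d x := by
  funext k; cases k <;> rfl
end mkS

theorem eq_mkS (S : Stk → List Sym) : S = mkS (S .main) (S .aux) (S .tmp) (S .cnt) (S .ctl) := by
  funext k; cases k <;> rfl

/-! ### bounded execution -/

/-- `p` leads from `(v, S)` to `(v', S')` in at most `T` steps. -/
def R (p : Prog Stk Sym Reg) (v : Reg) (S : Stk → List Sym) (T : ℕ) (v' : Reg)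
    (S' : Stk → List Sym) : Prop :=
  ∃ n, n ≤ T ∧ Exec p (v, S) n (v', S')

section R
variable {p q : Prog Stk Sym Reg} {v v' v'' : Reg} {S S' S'' : Stk → List Sym} {T T' T'' : ℕ}

theorem R.mono (h : R p v S T v' S') (hT : T ≤ T') : R p v S T' v' S' := by
  obtain ⟨n, hn, h⟩ := h
  exact ⟨n, hn.trans hT, h⟩

theorem R.skip : R .skip v S 1 v S := ⟨1, le_rfl, .skip _⟩

theorem R.push (k : Stk) (f : Reg → Sym) : R (.push k f) v S 1 v (update S k (f v :: S k)) :=
  ⟨1, le_rfl, .push k f v S⟩

theorem R.pop (k : Stk) (f : Reg → Option Sym → Reg) :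
    R (.pop k f) v S 1 (f v (S k).head?) (update S k (S k).tail) :=
  ⟨1, le_rfl, .pop k f v S⟩

theorem R.load (f : Reg → Reg) : R (.load f) v S 1 (f v) S := ⟨1, le_rfl, .load f v S⟩

theorem R.seq (h : R p v S T v' S') (h' : R q v' S' T' v'' S'') :
    R (.seq p q) v S (T + T') v'' S'' := by
  obtain ⟨n, hn, h⟩ := h
  obtain ⟨n', hn', h'⟩ := h'
  exact ⟨n + n', by omega, .seq h h'⟩

theorem R.iteT {f : Reg → Bool} (hf : f v = true) (h : R p v S T v' S') :
    R (.ite f p q) v S (T + 1) v' S' := by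
  obtain ⟨n, hn, h⟩ := h
  exact ⟨1 + n, by omega, .iteT hf h⟩

theorem R.iteF {f : Reg → Bool} (hf : f v = false) (h : R q v S T v' S') :
    R (.ite f p q) v S (T + 1) v' S' := by
  obtain ⟨n, hn, h⟩ := h
  exact ⟨1 + n, by omega, .iteF hf h⟩

theorem R.loopNil {k : Stk} {f : Reg → Sym → Reg} (h : S k = []) :
    R (.loop k f p) v S 1 v S := ⟨1, le_rfl, .loopNil h⟩

theorem R.loopCons {k : Stk} {f : Reg → Sym → Reg} {c : Sym} {l : List Sym} (h : S k = c :: l)
    (h1 : R p (f v c) (update S k l) T v' S') (h2 : R (.loop k f p) v' S' T' v'' S'') :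
    R (.loop k f p) v S (T + T' + 1) v'' S'' := by
  obtain ⟨n, hn, h1⟩ := h1
  obtain ⟨n', hn', h2⟩ := h2
  exact ⟨1 + n + n', by omega, .loopCons h h1 h2⟩

end R

/-! ### do-while -/

/-- Run `p`, repeat as long as `f` holds. The control stack is empty while `p` runs. -/
def doWhile (f : Reg → Bool) (p : Prog Stk Sym Reg) : Prog Stk Sym Reg :=
  .seq (.push .ctl (fun _ => .m))
    (.loop .ctl (fun v _ => v) (.seq p (.ite f (.push .ctl (fun _ => .m)) .skip)))

/-- One or more iterations, `f` true in between. -/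
inductive It (f : Reg → Bool) (p : Prog Stk Sym Reg) :
    Reg → (Stk → List Sym) → ℕ → Reg → (Stk → List Sym) → Prop
  | one {v v' : Reg} {S S' : Stk → List Sym} {T : ℕ} : S .ctl = [] → S' .ctl = [] →
      R p v S T v' S' → It f p v S T v' S'
  | cons {v v' v'' : Reg} {S S' S'' : Stk → List Sym} {T T' : ℕ} : S .ctl = [] → S' .ctl = [] →
      R p v S T v' S' → f v' = true → It f p v' S' T' v'' S'' → It f p v S (T + T' + 3) v'' S''

section It
variable {f : Reg → Bool} {p : Prog Stk Sym Reg} {v v' v'' : Reg} {S S' S'' : Stk → List Sym}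
  {T T' : ℕ}

theorem It.trans (h : It f p v S T v' S') (hf : f v' = true) (h' : It f p v' S' T' v'' S'') :
    It f p v S (T + T' + 3) v'' S'' := by
  induction h with
  | one h1 h2 h3 => exact .cons h1 h2 h3 hf h'
  | @cons v v1 v2 S S1 S2 T1 T2 h1 h2 h3 h4 h5 ih =>
    have := It.cons h1 h2 h3 h4 (ih hf h')
    have e : T1 + (T2 + T' + 3) + 3 = T1 + T2 + 3 + T' + 3 := by ring
    rwa [e] at this

theorem It.mono (h : It f p v S T v' S') (hT : T ≤ T') : It f p v S T' v' S' := by
  cases h with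
  | one h1 h2 h3 => exact .one h1 h2 (h3.mono hT)
  | @cons _ v1 _ _ S1 _ T1 T2 h1 h2 h3 h4 h5 =>
    have h6 := It.cons h1 h2 (h3.mono (T' := T' - T2 - 3) (by omega)) h4 h5
    have e : T' - T2 - 3 + T2 + 3 = T' := by omega
    rwa [e] at h6

theorem It.ctl_left (h : It f p v S T v' S') : S .ctl = [] := by
  cases h <;> assumption

theorem It.ctl_right (h : It f p v S T v' S') : S' .ctl = [] := by
  induction h with
  | one _ h _ => exact h
  | cons _ _ _ _ _ ih => exact ih

theorem It.loop (h : It f p v S T v' S') (hf : f v' = false) :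
    R (.loop .ctl (fun v _ => v) (.seq p (.ite f (.push .ctl (fun _ => .m)) .skip))) v
      (update S .ctl [.m]) (T + 4) v' S' := by
  induction h with
  | @one v v' S S' T h1 h2 h3 =>
    have e : update (update S .ctl [.m]) .ctl [] = S := by
      rw [update_idem]; rw [← h1]; exact update_eq_self _ _
    have h4 : R (.seq p (.ite f (.push .ctl (fun _ => .m)) .skip)) v
        (update (update S .ctl [.m]) .ctl []) (T + 2) v' S' := by
      rw [e]
      exact (h3.seq (R.iteF hf R.skip)).mono (by omega)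
    have := R.loopCons (f := fun v _ => v) (k := .ctl) (S := update S .ctl [.m]) (c := .m)
      (l := []) (by simp) h4 (R.loopNil h2)
    exact this.mono (by omega)
  | @cons v v1 v2 S S1 S2 T1 T2 h1 h2 h3 h4 h5 ih =>
    have e : update (update S .ctl [.m]) .ctl [] = S := by
      rw [update_idem]; rw [← h1]; exact update_eq_self _ _
    have h6 : R (.seq p (.ite f (.push .ctl (fun _ => .m)) .skip)) v
        (update (update S .ctl [.m]) .ctl []) (T1 + 2) v1 (update S1 .ctl [.m]) := by
      rw [e]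
      have h7 : R (.push .ctl (fun _ => .m)) v1 S1 1 v1 (update S1 .ctl [.m]) := by
        have := R.push (v := v1) (S := S1) .ctl (fun _ => .m)
        rwa [h2] at this
      exact (h3.seq (R.iteT h4 h7)).mono (by omega)
    have := R.loopCons (f := fun v _ => v) (k := .ctl) (S := update S .ctl [.m]) (c := .m)
      (l := []) (by simp) h6 (ih hf)
    exact this.mono (by omega)

theorem It.doWhile (h : It f p v S T v' S') (hf : f v' = false) :
    R (doWhile f p) v S (T + 5) v' S' := by
  have h1 : R (.push .ctl (fun _ => .m)) v S 1 v (update S .ctl [.m]) := by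
    have := R.push (v := v) (S := S) .ctl (fun _ => .m)
    rwa [h.ctl_left] at this
  exact (h1.seq (h.loop hf)).mono (by omega)

end It

/-! ### moving strings up to a marker -/

/-- One step: pop a symbol from `A` into the register; unless it is the marker, run `q`. -/
def mvStep (A : Stk) (q : Prog Stk Sym Reg) : Prog Stk Sym Reg :=
  .seq (.pop A (fun v o => (o, decide (o ≠ some .m), v.2.2)))
    (.ite (fun v => v.2.1) q .skip)

/-- Move the string above the marker of `A`, symbol by symbol, with `q`. -/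
def mvMark (A : Stk) (q : Prog Stk Sym Reg) : Prog Stk Sym Reg :=
  doWhile (fun v => v.2.1) (mvStep A q)

/-- `st a x`: the stack `A` contains `a`, and `x` has been moved (reversed). -/
structure Mv (A : Stk) (q : Prog Stk Sym Reg) (st : List Sym → List Sym → Stk → List Sym)
    (T0 : ℕ) : Prop where
  get : ∀ a x, st a x A = a
  upd : ∀ a x a', update (st a x) A a' = st a' x
  ctl : ∀ a x, st a x .ctl = []
  run : ∀ (v : Reg) (c : Sym) (a x : List Sym), v.1 = some c → R q v (st a x) T0 v (st a (c :: x))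

theorem R.popD {v : Reg} {S : Stk → List Sym} (k : Stk) (f : Reg → Option Sym → Reg) {o : Option Sym}
    {l : List Sym} {v' : Reg} {S' : Stk → List Sym} (h1 : (S k).head? = o) (h2 : (S k).tail = l)
    (hv : f v o = v') (hS : update S k l = S') : R (.pop k f) v S 1 v' S' := by
  subst hv hS h1 h2
  exact R.pop k f

theorem R.pushD {v : Reg} {S S' : Stk → List Sym} (k : Stk) (f : Reg → Sym) {s : Sym}
    {l : List Sym} (h1 : S k = l) (h2 : f v = s) (hS : update S k (s :: l) = S') :
    R (.push k f) v S 1 v S' := by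
  subst h1 h2 hS
  exact R.push k f

theorem Mv.it {A : Stk} {q : Prog Stk Sym Reg} {st : List Sym → List Sym → Stk → List Sym}
    {T0 : ℕ} (h : Mv A q st T0) (w : List Sym) (hw : Sym.m ∉ w) :
    ∀ (v : Reg) (a x : List Sym), It (fun v => v.2.1) (mvStep A q) v (st (w ++ .m :: a) x)
      ((T0 + 5) * (w.length + 1)) (some .m, false, v.2.2) (st a (w.reverse ++ x)) := by
  induction w with
  | nil =>
    intro v a x
    refine .one (h.ctl _ _) (h.ctl _ _) ?_
    have h1 : R (.pop A (fun v o => (o, decide (o ≠ some .m), v.2.2))) v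
        (st ([] ++ .m :: a) x) 1 (some .m, false, v.2.2) (st a x) :=
      R.popD A _ (o := some .m) (l := a) (by rw [h.get]; rfl) (by rw [h.get]; rfl)
        (by simp) (h.upd _ _ _)
    exact (h1.seq (R.iteF (v := (some .m, false, v.2.2)) rfl R.skip)).mono
      (by simp only [List.length_nil]; omega)
  | cons c w ih =>
    intro v a x
    have hc : c ≠ .m := fun h' => hw (by simp [h'])
    have hw' : Sym.m ∉ w := fun h' => hw (by simp [h'])
    have h1 : R (.pop A (fun v o => (o, decide (o ≠ some .m), v.2.2))) v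
        (st (c :: w ++ .m :: a) x) 1 (some c, true, v.2.2) (st (w ++ .m :: a) x) :=
      R.popD A _ (o := some c) (l := w ++ .m :: a) (by rw [h.get]; rfl) (by rw [h.get]; rfl)
        (by simp [hc]) (h.upd _ _ _)
    have h2 : R (mvStep A q) v (st (c :: w ++ .m :: a) x) (T0 + 2) (some c, true, v.2.2)
        (st (w ++ .m :: a) (c :: x)) :=
      (h1.seq (R.iteT (v := (some c, true, v.2.2)) rfl (h.run _ c _ _ rfl))).mono (by omega)
    have h4 := It.cons (f := fun v : Reg => v.2.1) (h.ctl _ _) (h.ctl _ _) h2 rfl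
      (ih hw' (some c, true, v.2.2) a (c :: x))
    have e1 : (c :: w).reverse ++ x = w.reverse ++ c :: x := by simp
    have e2 : T0 + 2 + (T0 + 5) * (w.length + 1) + 3 = (T0 + 5) * ((c :: w).length + 1) := by
      simp only [List.length_cons]; ring
    rw [e1, ← e2]
    exact h4

theorem Mv.run_mark {A : Stk} {q : Prog Stk Sym Reg}
    {st : List Sym → List Sym → Stk → List Sym} {T0 : ℕ} (h : Mv A q st T0) (w : List Sym)
    (hw : Sym.m ∉ w) (v : Reg) (a x : List Sym) :
    R (mvMark A q) v (st (w ++ .m :: a) x) ((T0 + 5) * (w.length + 1) + 5)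
      (some .m, false, v.2.2) (st a (w.reverse ++ x)) :=
  (h.it w hw v a x).doWhile rfl

/-! ### codes of trees -/

theorem D.m_not_mem (t : D) : Sym.m ∉ t.code := by
  induction t with
  | nil => simp [D.code]
  | node a b iha ihb => simp [D.code, iha, ihb]

theorem D.m_not_mem_rev (t : D) : Sym.m ∉ t.code.reverse := by
  simpa using t.m_not_mem

theorem D.code_length (t : D) : t.code.length = t.size := by
  induction t with
  | nil => rfl
  | node a b iha ihb => simp [D.code, D.size, iha, ihb]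

theorem D.one_le_size (t : D) : 1 ≤ t.size := by
  cases t <;> simp [D.size]

theorem D.code_inj' (t : D) : ∀ (t' : D) (r r' : List Sym), t.code ++ r = t'.code ++ r' →
    t = t' ∧ r = r' := by
  induction t with
  | nil =>
    intro t' r r' h
    cases t' with
    | nil => simpa [D.code] using h
    | node a b => simp [D.code] at h
  | node a b iha ihb =>
    intro t' r r' h
    cases t' with
    | nil => simp [D.code] at h
    | node a' b' =>
      simp only [D.code, List.cons_append, List.append_assoc, List.cons.injEq, true_and] at h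
      obtain ⟨h1, h2⟩ := iha _ _ _ h
      obtain ⟨h3, h4⟩ := ihb _ _ _ h2
      exact ⟨by rw [h1, h3], h4⟩

theorem D.code_inj {t t' : D} (h : t.code = t'.code) : t = t' :=
  (D.code_inj' t t' [] [] (by simpa using h)).1

/-! ### moving a tree -/

/-- One step of moving a tree from `A`: pop a symbol, run `q`, keep track of the depth. -/
def trStep (A : Stk) (q : Prog Stk Sym Reg) : Prog Stk Sym Reg :=
  .seq (.pop A (fun v o => (o, v.2.1, v.2.2)))
    (.seq q
      (.ite (fun v => decide (v.1 = some .i))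
        (.seq (.push .cnt (fun _ => .i)) (.load (fun v => (v.1, true, v.2.2))))
        (.pop .cnt (fun v o => (v.1, decide (o ≠ some .m), v.2.2)))))

/-- Move the top tree of `A` with `q`. -/
def mvTree (A : Stk) (q : Prog Stk Sym Reg) : Prog Stk Sym Reg :=
  .seq (.push .cnt (fun _ => .m)) (doWhile (fun v => v.2.1) (trStep A q))

/-- `st a x c`: the stack `A` contains `a`, `x` has been moved, the counter stack contains `c`. -/
structure Tr (A : Stk) (q : Prog Stk Sym Reg) (st : List Sym → List Sym → List Sym → Stk → List Sym)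
    (T0 : ℕ) : Prop where
  get : ∀ a x c, st a x c A = a
  upd : ∀ a x c a', update (st a x c) A a' = st a' x c
  getc : ∀ a x c, st a x c .cnt = c
  updc : ∀ a x c c', update (st a x c) .cnt c' = st a x c'
  ctl : ∀ a x c, st a x c .ctl = []
  run : ∀ (v : Reg) (s : Sym) (a x c : List Sym), v.1 = some s →
    R q v (st a x c) T0 v (st a (s :: x) c)

theorem Tr.it {A : Stk} {q : Prog Stk Sym Reg}
    {st : List Sym → List Sym → List Sym → Stk → List Sym} {T0 : ℕ} (h : Tr A q st T0) (t : D) :
    ∀ (v : Reg) (r x : List Sym) (c : Sym) (C : List Sym), ∃ v' : Reg,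
      v'.2.1 = decide (c ≠ .m) ∧ v'.2.2 = v.2.2 ∧
      It (fun v => v.2.1) (trStep A q) v (st (t.code ++ r) x (c :: C))
        ((T0 + 12) * t.size) v' (st r (t.code.reverse ++ x) C) := by
  induction t with
  | nil =>
    intro v r x c C
    refine ⟨(some .o, decide (c ≠ .m), v.2.2), rfl, rfl, .one (h.ctl _ _ _) (h.ctl _ _ _) ?_⟩
    have h1 : R (.pop A (fun v o => (o, v.2.1, v.2.2))) v (st (.o :: r) x (c :: C)) 1
        (some .o, v.2.1, v.2.2) (st r x (c :: C)) :=
      R.popD A _ (o := some .o) (l := r) (by rw [h.get]; rfl) (by rw [h.get]; rfl) rfl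
        (h.upd _ _ _ _)
    have h2 := h.run (some .o, v.2.1, v.2.2) .o r x (c :: C) rfl
    have h3 : R (.pop .cnt (fun v o => (v.1, decide (o ≠ some .m), v.2.2)))
        (some .o, v.2.1, v.2.2) (st r (.o :: x) (c :: C)) 1
        (some .o, decide (c ≠ .m), v.2.2) (st r (.o :: x) C) :=
      R.popD .cnt _ (o := some c) (l := C) (by rw [h.getc]; rfl) (by rw [h.getc]; rfl)
        (by simp) (h.updc _ _ _ _)
    have h5 : R (trStep A q) v (st (.o :: r) x (c :: C)) (T0 + 3)
        (some .o, decide (c ≠ .m), v.2.2) (st r (.o :: x) C) :=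
      (h1.seq (h2.seq (R.iteF (v := (some .o, v.2.1, v.2.2)) (by simp) h3))).mono (by omega)
    exact h5.mono (by simp only [D.size]; omega)
  | node a b iha ihb =>
    intro v r x c C
    have h1 : R (.pop A (fun v o => (o, v.2.1, v.2.2))) v
        (st (.i :: (a.code ++ (b.code ++ r))) x (c :: C)) 1
        (some .i, v.2.1, v.2.2) (st (a.code ++ (b.code ++ r)) x (c :: C)) :=
      R.popD A _ (o := some .i) (l := a.code ++ (b.code ++ r)) (by rw [h.get]; rfl)
        (by rw [h.get]; rfl) rfl (h.upd _ _ _ _)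
    have h2 := h.run (some .i, v.2.1, v.2.2) .i (a.code ++ (b.code ++ r)) x (c :: C) rfl
    have h3 : R (.push .cnt (fun _ => .i)) (some .i, v.2.1, v.2.2)
        (st (a.code ++ (b.code ++ r)) (.i :: x) (c :: C)) 1 (some .i, v.2.1, v.2.2)
        (st (a.code ++ (b.code ++ r)) (.i :: x) (.i :: c :: C)) :=
      R.pushD .cnt _ (s := .i) (h.getc _ _ _) rfl (h.updc _ _ _ _)
    have h4 := R.load (v := (some .i, v.2.1, v.2.2))
      (S := st (a.code ++ (b.code ++ r)) (.i :: x) (.i :: c :: C)) (fun v => (v.1, true, v.2.2))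
    have h5 : R (trStep A q) v (st (.i :: (a.code ++ (b.code ++ r))) x (c :: C)) (T0 + 4)
        (some .i, true, v.2.2) (st (a.code ++ (b.code ++ r)) (.i :: x) (.i :: c :: C)) :=
      (h1.seq (h2.seq (R.iteT (v := (some .i, v.2.1, v.2.2)) (by simp) (h3.seq h4)))).mono
        (by omega)
    obtain ⟨v1, hv1, hv1', it1⟩ := iha (some .i, true, v.2.2) (b.code ++ r) (.i :: x) .i (c :: C)
    obtain ⟨v2, hv2, hv2', it2⟩ := ihb v1 r (a.code.reverse ++ .i :: x) c C
    refine ⟨v2, hv2, by rw [hv2', hv1'], ?_⟩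
    have h6 := It.cons (f := fun v : Reg => v.2.1) (h.ctl _ _ _) (h.ctl _ _ _) h5 rfl
      (it1.trans (by rw [hv1]; simp) it2)
    have e1 : (D.node a b).code ++ r = .i :: (a.code ++ (b.code ++ r)) := by
      simp [D.code]
    have e2 : (D.node a b).code.reverse ++ x = b.code.reverse ++ (a.code.reverse ++ .i :: x) := by
      simp [D.code]
    rw [e1, e2]
    have e3 : T0 + 4 + ((T0 + 12) * a.size + (T0 + 12) * b.size + 3) + 3 ≤
        (T0 + 12) * (D.node a b).size := by
      simp only [D.size]; nlinarith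
    exact h6.mono e3

theorem Tr.run_tree {A : Stk} {q : Prog Stk Sym Reg}
    {st : List Sym → List Sym → List Sym → Stk → List Sym} {T0 : ℕ} (h : Tr A q st T0) (t : D)
    (v : Reg) (r x C : List Sym) : ∃ v' : Reg,
      R (mvTree A q) v (st (t.code ++ r) x C) ((T0 + 12) * t.size + 6) v'
        (st r (t.code.reverse ++ x) C) := by
  obtain ⟨v', hv, -, h1⟩ := h.it t v r x .m C
  refine ⟨v', ?_⟩
  have h0 : R (.push .cnt (fun _ => .m)) v (st (t.code ++ r) x C) 1 v
      (st (t.code ++ r) x (.m :: C)) :=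
    R.pushD .cnt _ (s := .m) (h.getc _ _ _) rfl (h.updc _ _ _ _)
  exact (h0.seq (h1.doWhile (by rw [hv]; simp))).mono (by omega)

/-! ### runs with arbitrary registers -/

/-- Push the symbol in the register. -/
def ps (k : Stk) : Prog Stk Sym Reg := .push k (fun v => v.1.getD .m)

theorem R.ps {v : Reg} {S S' : Stk → List Sym} (k : Stk) {s : Sym} {l : List Sym}
    (h1 : S k = l) (h2 : v.1 = some s) (hS : update S k (s :: l) = S') :
    R (PT.ps k) v S 1 v S' :=
  R.pushD k _ (s := s) h1 (by rw [h2]; rfl) hS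

/-- Push the symbol `s`. -/
def pc (k : Stk) (s : Sym) : Prog Stk Sym Reg := .push k (fun _ => s)

/-- `p` leads from `S` to `S'` in at most `T` steps, for all registers. -/
def Q (p : Prog Stk Sym Reg) (S : Stk → List Sym) (T : ℕ) (S' : Stk → List Sym) : Prop :=
  ∀ v : Reg, ∃ v' : Reg, R p v S T v' S'

theorem Q.seq {p q : Prog Stk Sym Reg} {S S' S'' : Stk → List Sym} {T T' : ℕ}
    (h : Q p S T S') (h' : Q q S' T' S'') : Q (.seq p q) S (T + T') S'' := by
  intro v
  obtain ⟨v', h1⟩ := h v
  obtain ⟨v'', h2⟩ := h' v'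
  exact ⟨v'', h1.seq h2⟩

theorem Q.mono {p : Prog Stk Sym Reg} {S S' : Stk → List Sym} {T T' : ℕ}
    (h : Q p S T S') (hT : T ≤ T') : Q p S T' S' := by
  intro v
  obtain ⟨v', h1⟩ := h v
  exact ⟨v', h1.mono hT⟩

theorem Q.skip {S : Stk → List Sym} : Q .skip S 1 S := fun v => ⟨v, R.skip⟩

theorem Q.pc {S S' : Stk → List Sym} (k : Stk) (s : Sym) (hS : update S k (s :: S k) = S') :
    Q (PT.pc k s) S 1 S' := fun v => ⟨v, R.pushD k _ rfl rfl hS⟩

/-- Pop a symbol of `main` and branch whether it is `o`. -/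
def popIte (p q : Prog Stk Sym Reg) : Prog Stk Sym Reg :=
  .seq (.pop .main (fun v o => (o, v.2))) (.ite (fun v => decide (v.1 = some .o)) p q)

theorem Q.popO {p q : Prog Stk Sym Reg} {r b t c e : List Sym} {T : ℕ} {S' : Stk → List Sym}
    (h : Q p (mkS r b t c e) T S') : Q (popIte p q) (mkS (.o :: r) b t c e) (T + 2) S' := by
  intro v
  obtain ⟨v', h1⟩ := h (some .o, v.2)
  have h2 : R (.pop .main (fun v o => (o, v.2))) v (mkS (.o :: r) b t c e) 1 (some .o, v.2)
      (mkS r b t c e) := R.popD .main _ (o := some .o) (l := r) rfl rfl rfl (upd_main ..)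
  exact ⟨v', (h2.seq (R.iteT (by simp) h1)).mono (by omega)⟩

theorem Q.popI {p q : Prog Stk Sym Reg} {r b t c e : List Sym} {T : ℕ} {S' : Stk → List Sym}
    (h : Q q (mkS r b t c e) T S') : Q (popIte p q) (mkS (.i :: r) b t c e) (T + 2) S' := by
  intro v
  obtain ⟨v', h1⟩ := h (some .i, v.2)
  have h2 : R (.pop .main (fun v o => (o, v.2))) v (mkS (.i :: r) b t c e) 1 (some .i, v.2)
      (mkS r b t c e) := R.popD .main _ (o := some .i) (l := r) rfl rfl rfl (upd_main ..)
  exact ⟨v', (h2.seq (R.iteF (by simp) h1)).mono (by omega)⟩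

/-! ### moves of trees -/

section moves
variable (t s : D) (r b m C : List Sym)

/-- Main to aux. -/
def tMA : Prog Stk Sym Reg := mvTree .main (ps .aux)
/-- Main to tmp. -/
def tMT : Prog Stk Sym Reg := mvTree .main (ps .tmp)
/-- Drop the top tree. -/
def drop : Prog Stk Sym Reg := mvTree .main .skip
/-- Aux to main, up to the marker. -/
def bAM : Prog Stk Sym Reg := mvMark .aux (ps .main)
/-- Tmp to main, up to the marker. -/
def bTM : Prog Stk Sym Reg := mvMark .tmp (ps .main)
/-- Tmp to aux, up to the marker. -/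
def bTA : Prog Stk Sym Reg := mvMark .tmp (ps .aux)
/-- Aux to main and tmp, up to the marker. -/
def bAMT : Prog Stk Sym Reg := mvMark .aux (.seq (ps .main) (ps .tmp))

theorem q_tMA : Q tMA (mkS (t.code ++ r) b m C []) (13 * t.size + 6)
    (mkS r (t.code.reverse ++ b) m C []) := by
  intro v
  have h : Tr .main (ps .aux) (fun a x c => mkS a (x ++ b) m c []) 1 :=
    ⟨fun _ _ _ => rfl, fun _ _ _ _ => upd_main .., fun _ _ _ => rfl, fun _ _ _ _ => upd_cnt ..,
      fun _ _ _ => rfl, fun v s a x c hv => R.ps .aux rfl hv (upd_aux ..)⟩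
  have h1 := h.run_tree t v r [] C
  simp only [List.append_nil, List.nil_append] at h1
  exact h1

theorem q_tMT : Q tMT (mkS (t.code ++ r) b m C []) (13 * t.size + 6)
    (mkS r b (t.code.reverse ++ m) C []) := by
  intro v
  have h : Tr .main (ps .tmp) (fun a x c => mkS a b (x ++ m) c []) 1 :=
    ⟨fun _ _ _ => rfl, fun _ _ _ _ => upd_main .., fun _ _ _ => rfl, fun _ _ _ _ => upd_cnt ..,
      fun _ _ _ => rfl, fun v s a x c hv => R.ps .tmp rfl hv (upd_tmp ..)⟩
  have h1 := h.run_tree t v r [] C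
  simp only [List.append_nil, List.nil_append] at h1
  exact h1

theorem q_drop : Q drop (mkS (t.code ++ r) b m C []) (13 * t.size + 6) (mkS r b m C []) := by
  intro v
  have h : Tr .main .skip (fun a x c => mkS a b m c []) 1 :=
    ⟨fun _ _ _ => rfl, fun _ _ _ _ => upd_main .., fun _ _ _ => rfl, fun _ _ _ _ => upd_cnt ..,
      fun _ _ _ => rfl, fun v s a x c hv => R.skip⟩
  exact h.run_tree t v r [] C

theorem q_bAM' (w : List Sym) (hw : Sym.m ∉ w) : Q bAM (mkS r (w ++ .m :: b) m C [])
    (6 * w.length + 11) (mkS (w.reverse ++ r) b m C []) := by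
  intro v
  have h : Mv .aux (ps .main) (fun a x => mkS (x ++ r) a m C []) 1 :=
    ⟨fun _ _ => rfl, fun _ _ _ => upd_aux .., fun _ _ => rfl,
      fun v s a x hv => R.ps .main rfl hv (upd_main ..)⟩
  have h1 := h.run_mark w hw v b []
  simp only [List.append_nil] at h1
  exact ⟨_, h1.mono (by omega)⟩

theorem q_bTM' (w : List Sym) (hw : Sym.m ∉ w) : Q bTM (mkS r b (w ++ .m :: m) C [])
    (6 * w.length + 11) (mkS (w.reverse ++ r) b m C []) := by
  intro v
  have h : Mv .tmp (ps .main) (fun a x => mkS (x ++ r) b a C []) 1 :=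
    ⟨fun _ _ => rfl, fun _ _ _ => upd_tmp .., fun _ _ => rfl,
      fun v s a x hv => R.ps .main rfl hv (upd_main ..)⟩
  have h1 := h.run_mark w hw v m []
  simp only [List.append_nil] at h1
  exact ⟨_, h1.mono (by omega)⟩

theorem q_bTA' (w : List Sym) (hw : Sym.m ∉ w) : Q bTA (mkS r b (w ++ .m :: m) C [])
    (6 * w.length + 11) (mkS r (w.reverse ++ b) m C []) := by
  intro v
  have h : Mv .tmp (ps .aux) (fun a x => mkS r (x ++ b) a C []) 1 :=
    ⟨fun _ _ => rfl, fun _ _ _ => upd_tmp .., fun _ _ => rfl,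
      fun v s a x hv => R.ps .aux rfl hv (upd_aux ..)⟩
  have h1 := h.run_mark w hw v m []
  simp only [List.append_nil] at h1
  exact ⟨_, h1.mono (by omega)⟩

theorem q_bAMT' (w : List Sym) (hw : Sym.m ∉ w) : Q bAMT (mkS r (w ++ .m :: b) m C [])
    (7 * w.length + 12) (mkS (w.reverse ++ r) b (w.reverse ++ m) C []) := by
  intro v
  have h : Mv .aux (.seq (ps .main) (ps .tmp)) (fun a x => mkS (x ++ r) a (x ++ m) C []) 2 :=
    ⟨fun _ _ => rfl, fun _ _ _ => upd_aux .., fun _ _ => rfl,
      fun v s a x hv => (R.ps .main rfl hv (upd_main ..)).seq (R.ps .tmp rfl hv (upd_tmp ..))⟩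
  have h1 := h.run_mark w hw v b []
  simp only [List.append_nil] at h1
  exact ⟨_, h1.mono (by omega)⟩

theorem q_bAM : Q bAM (mkS r (t.code.reverse ++ .m :: b) m C [])
    (6 * t.size + 11) (mkS (t.code ++ r) b m C []) := by
  simpa [t.code_length] using q_bAM' r b m C t.code.reverse t.m_not_mem_rev

theorem q_bTM : Q bTM (mkS r b (t.code.reverse ++ .m :: m) C [])
    (6 * t.size + 11) (mkS (t.code ++ r) b m C []) := by
  simpa [t.code_length] using q_bTM' r b m C t.code.reverse t.m_not_mem_rev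

theorem q_bAMT : Q bAMT (mkS r (t.code.reverse ++ .m :: b) m C [])
    (7 * t.size + 12) (mkS (t.code ++ r) b (t.code ++ m) C []) := by
  simpa [t.code_length] using q_bAMT' r b m C t.code.reverse t.m_not_mem_rev

theorem q_bTA : Q bTA (mkS r b (t.code ++ .m :: m) C [])
    (6 * t.size + 11) (mkS r (t.code.reverse ++ b) m C []) := by
  simpa [t.code_length] using q_bTA' r b m C t.code t.m_not_mem

/-- Duplicate the top tree. -/
def dup : Prog Stk Sym Reg :=
  .seq (pc .aux .m) (.seq tMA (.seq (pc .tmp .m) (.seq bAMT (.seq (pc .aux .m) (.seq bTA bAM)))))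

theorem q_dup : Q dup (mkS (t.code ++ r) b m C []) (32 * t.size + 43)
    (mkS (t.code ++ (t.code ++ r)) b m C []) := by
  have h1 : Q (pc .aux .m) (mkS (t.code ++ r) b m C []) 1
      (mkS (t.code ++ r) (.m :: b) m C []) := Q.pc _ _ (upd_aux ..)
  have h2 := q_tMA t r (.m :: b) m C
  have h3 : Q (pc .tmp .m) (mkS r (t.code.reverse ++ .m :: b) m C []) 1
      (mkS r (t.code.reverse ++ .m :: b) (.m :: m) C []) := Q.pc _ _ (upd_tmp ..)
  have h4 := q_bAMT t r b (.m :: m) C
  have h5 : Q (pc .aux .m) (mkS (t.code ++ r) b (t.code ++ .m :: m) C []) 1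
      (mkS (t.code ++ r) (.m :: b) (t.code ++ .m :: m) C []) := Q.pc _ _ (upd_aux ..)
  have h6 := q_bTA t (t.code ++ r) (.m :: b) m C
  have h7 := q_bAM t (t.code ++ r) b m C
  exact (h1.seq (h2.seq (h3.seq (h4.seq (h5.seq (h6.seq h7)))))).mono (by omega)

/-- Swap the two top trees. -/
def swap : Prog Stk Sym Reg :=
  .seq (pc .aux .m) (.seq tMA (.seq (pc .tmp .m) (.seq tMT (.seq bAM bTM))))

theorem q_swap : Q swap (mkS (t.code ++ (s.code ++ r)) b m C [])
    (19 * t.size + 19 * s.size + 36) (mkS (s.code ++ (t.code ++ r)) b m C []) := by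
  have h1 : Q (pc .aux .m) (mkS (t.code ++ (s.code ++ r)) b m C []) 1
      (mkS (t.code ++ (s.code ++ r)) (.m :: b) m C []) := Q.pc _ _ (upd_aux ..)
  have h2 := q_tMA t (s.code ++ r) (.m :: b) m C
  have h3 : Q (pc .tmp .m) (mkS (s.code ++ r) (t.code.reverse ++ .m :: b) m C []) 1
      (mkS (s.code ++ r) (t.code.reverse ++ .m :: b) (.m :: m) C []) := Q.pc _ _ (upd_tmp ..)
  have h4 := q_tMT s r (t.code.reverse ++ .m :: b) (.m :: m) C
  have h5 := q_bAM t r b (s.code.reverse ++ .m :: m) C
  have h6 := q_bTM s (t.code ++ r) b m C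
  exact (h1.seq (h2.seq (h3.seq (h4.seq (h5.seq h6))))).mono (by omega)

/-- Push a string. -/
def pushL : List Sym → Prog Stk Sym Reg
  | [] => .skip
  | c :: w => .seq (pushL w) (pc .main c)

theorem q_pushL (w : List Sym) : Q (pushL w) (mkS r b m C []) (w.length + 1)
    (mkS (w ++ r) b m C []) := by
  induction w with
  | nil => exact Q.skip
  | cons c w ih =>
    have h : Q (pc .main c) (mkS (w ++ r) b m C []) 1 (mkS (c :: (w ++ r)) b m C []) :=
      Q.pc _ _ (upd_main ..)
    exact (ih.seq h).mono (by simp only [List.length_cons]; omega)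

end moves

/-! ### polynomial bounds -/

/-- Polynomially bounded in the size, on `A`. -/
def PB (A : Set D) (T : D → ℕ) : Prop := ∃ c : ℕ, ∀ t ∈ A, T t ≤ (t.size + 2) ^ c

section PB
variable {A B : Set D} {T T' : D → ℕ}

theorem PB.mono (h : PB A T') (hT : ∀ t ∈ A, T t ≤ T' t) : PB A T := by
  obtain ⟨c, h⟩ := h
  exact ⟨c, fun t ht => (hT t ht).trans (h t ht)⟩

theorem PB.sub (h : PB A T) (hB : B ⊆ A) : PB B T := by
  obtain ⟨c, h⟩ := h
  exact ⟨c, fun t ht => h t (hB ht)⟩

theorem PB.const (k : ℕ) : PB A (fun _ => k) :=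
  ⟨k, fun t _ => (Nat.lt_pow_self (by omega)).le⟩

theorem PB.size : PB A D.size := ⟨1, fun t _ => by simp⟩

theorem PB.add (h : PB A T) (h' : PB A T') : PB A (fun t => T t + T' t) := by
  obtain ⟨c, h⟩ := h
  obtain ⟨c', h'⟩ := h'
  refine ⟨c + c' + 1, fun t ht => ?_⟩
  have h1 : (t.size + 2) ^ c ≤ (t.size + 2) ^ (c + c') := Nat.pow_le_pow_right (by omega) (by omega)
  have h2 : (t.size + 2) ^ c' ≤ (t.size + 2) ^ (c + c') :=
    Nat.pow_le_pow_right (by omega) (by omega)
  have h3 : (t.size + 2) ^ (c + c' + 1) = (t.size + 2) ^ (c + c') * (t.size + 2) := pow_succ _ _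
  have h4 := h t ht
  have h5 := h' t ht
  have h6 : (t.size + 2) ^ (c + c') * 2 ≤ (t.size + 2) ^ (c + c') * (t.size + 2) :=
    Nat.mul_le_mul_left _ (by omega)
  show T t + T' t ≤ _
  omega

theorem PB.mul (h : PB A T) (h' : PB A T') : PB A (fun t => T t * T' t) := by
  obtain ⟨c, h⟩ := h
  obtain ⟨c', h'⟩ := h'
  refine ⟨c + c', fun t ht => ?_⟩
  rw [pow_add]
  exact Nat.mul_le_mul (h t ht) (h' t ht)

theorem PB.ite {P : D → Prop} [DecidablePred P] (h : PB {t | t ∈ A ∧ P t} T)
    (h' : PB {t | t ∈ A ∧ ¬ P t} T') : PB A (fun t => if P t then T t else T' t) := by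
  obtain ⟨c, h⟩ := h
  obtain ⟨c', h'⟩ := h'
  refine ⟨c + c', fun t ht => ?_⟩
  show (if P t then T t else T' t) ≤ _
  by_cases hP : P t
  · rw [if_pos hP]
    exact (h t ⟨ht, hP⟩).trans (Nat.pow_le_pow_right (by omega) (by omega))
  · rw [if_neg hP]
    exact (h' t ⟨ht, hP⟩).trans (Nat.pow_le_pow_right (by omega) (by omega))

theorem PB.comp {g : D → D} (h : PB B T) (hg : PB A (fun t => (g t).size))
    (hA : ∀ t ∈ A, g t ∈ B) : PB A (fun t => T (g t)) := by
  obtain ⟨c, h⟩ := h
  obtain ⟨d, hg⟩ := hg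
  refine ⟨(d + 1) * c, fun t ht => (h (g t) (hA t ht)).trans ?_⟩
  rw [pow_mul]
  refine Nat.pow_le_pow_left ?_ c
  have h1 := hg t ht
  have h2 : 1 ≤ (t.size + 2) ^ d := Nat.one_le_pow _ _ (by omega)
  have h3 : (t.size + 2) ^ (d + 1) = (t.size + 2) ^ d * (t.size + 2) := pow_succ _ _
  have h4 := t.one_le_size
  have h5 : (t.size + 2) ^ d * 3 ≤ (t.size + 2) ^ d * (t.size + 2) :=
    Nat.mul_le_mul_left _ (by omega)
  dsimp only at h1
  omega

end PB

/-- `p` computes `g` in time `T`, on `A`. -/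
def Comp (p : Prog Stk Sym Reg) (A : Set D) (g : D → D) (T : D → ℕ) : Prop :=
  ∀ t ∈ A, ∀ (r b m C : List Sym), Q p (mkS (t.code ++ r) b m C []) (T t)
    (mkS ((g t).code ++ r) b m C [])

theorem ptd_iff {A : Set D} {g : D → D} :
    PTD A g ↔ ∃ p T, PB A T ∧ PB A (fun t => (g t).size) ∧ Comp p A g T := by
  constructor
  · rintro ⟨p, c, h⟩
    refine ⟨p, fun t => (t.size + 2) ^ c, ⟨c, fun t _ => le_rfl⟩, ⟨c, fun t ht => (h t ht).1⟩, ?_⟩
    intro t ht r b m C v
    obtain ⟨v', n, hn, he⟩ := (h t ht).2 v (mkS (t.code ++ r) b m C []) r rfl rfl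
    rw [upd_main] at he
    exact ⟨v', n, hn, he⟩
  · rintro ⟨p, T, ⟨c, hT⟩, ⟨d, hd⟩, h⟩
    have hc : ∀ t : D, (t.size + 2) ^ c ≤ (t.size + 2) ^ (c + d) := fun t =>
      Nat.pow_le_pow_right (by omega) (by omega)
    have hd' : ∀ t : D, (t.size + 2) ^ d ≤ (t.size + 2) ^ (c + d) := fun t =>
      Nat.pow_le_pow_right (by omega) (by omega)
    refine ⟨p, c + d, fun t ht => ⟨(hd t ht).trans (hd' t), ?_⟩⟩
    intro v S r h1 h2
    obtain ⟨v', n, hn, he⟩ := h t ht r (S .aux) (S .tmp) (S .cnt) v
    refine ⟨v', n, hn.trans ((hT t ht).trans (hc t)), ?_⟩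
    have e : S = mkS (t.code ++ r) (S .aux) (S .tmp) (S .cnt) [] := by
      rw [← h1, ← h2]; exact eq_mkS S
    have e' : update S .main ((g t).code ++ r) =
        mkS ((g t).code ++ r) (S .aux) (S .tmp) (S .cnt) [] := by
      conv_lhs => rw [e]
      rw [upd_main]
    have e2 : (v, S) = (v, mkS (t.code ++ r) (S .aux) (S .tmp) (S .cnt) []) := Prod.ext rfl e
    rw [e', e2]
    exact he

/-! ### basic functions -/

theorem ptd_id : PTD Set.univ (fun t => t) :=
  ptd_iff.2 ⟨.skip, fun _ => 1, PB.const 1, PB.size, fun _ _ _ _ _ _ => Q.skip⟩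

theorem ptd_comp {A B : Set D} {f g : D → D} (hf : PTD B f) (hg : PTD A g)
    (hA : ∀ t ∈ A, g t ∈ B) : PTD A (fun t => f (g t)) := by
  obtain ⟨p, T, h1, h2, h3⟩ := ptd_iff.1 hf
  obtain ⟨q, T', h4, h5, h6⟩ := ptd_iff.1 hg
  exact ptd_iff.2 ⟨.seq q p, fun t => T' t + T (g t), h4.add (h1.comp h5 hA), h2.comp h5 hA,
    fun t ht r b m C => (h6 t ht r b m C).seq (h3 (g t) (hA t ht) r b m C)⟩

theorem ptd_const (d : D) : PTD Set.univ (fun _ => d) := by
  refine ptd_iff.2 ⟨.seq drop (pushL d.code), fun t => 13 * t.size + 6 + (d.code.length + 1),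
    (((PB.const 13).mul PB.size).add (PB.const 6)).add (PB.const _), PB.const _, ?_⟩
  intro t _ r b m C
  exact (q_drop t r b m C).seq (q_pushL r b m C d.code)

theorem size_fst (t : D) : t.fst.size ≤ t.size := by
  cases t <;> simp only [D.fst, D.size] <;> omega

theorem size_snd (t : D) : t.snd.size ≤ t.size := by
  cases t <;> simp only [D.snd, D.size] <;> omega

theorem ptd_fst : PTD Set.univ D.fst := by
  refine ptd_iff.2 ⟨popIte (pc .main .o) (.seq (pc .aux .m) (.seq tMA (.seq drop bAM))),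
    fun t => 20 * t.size + 30, ((PB.const 20).mul PB.size).add (PB.const 30),
    PB.size.mono fun t _ => size_fst t, ?_⟩
  intro t _ r b m C
  cases t with
  | nil =>
    have h : Q (pc .main .o) (mkS r b m C []) 1 (mkS (.o :: r) b m C []) :=
      Q.pc _ _ (upd_main ..)
    exact h.popO.mono (by dsimp only; omega)
  | node a a' =>
    have h1 : Q (pc .aux .m) (mkS (a.code ++ (a'.code ++ r)) b m C []) 1
      (mkS (a.code ++ (a'.code ++ r)) (.m :: b) m C []) := Q.pc _ _ (upd_aux ..)
    have h2 := q_tMA a (a'.code ++ r) (.m :: b) m C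
    have h3 := q_drop a' r (a.code.reverse ++ .m :: b) m C
    have h4 := q_bAM a r b m C
    have h5 := (h1.seq (h2.seq (h3.seq h4))).popI (p := pc .main .o)
    have e : (D.node a a').code ++ r = .i :: (a.code ++ (a'.code ++ r)) := by simp [D.code]
    rw [e]
    exact h5.mono (by simp only [D.size]; omega)

theorem ptd_snd : PTD Set.univ D.snd := by
  refine ptd_iff.2 ⟨popIte (pc .main .o) drop,
    fun t => 20 * t.size + 30, ((PB.const 20).mul PB.size).add (PB.const 30),
    PB.size.mono fun t _ => size_snd t, ?_⟩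
  intro t _ r b m C
  cases t with
  | nil =>
    have h : Q (pc .main .o) (mkS r b m C []) 1 (mkS (.o :: r) b m C []) :=
      Q.pc _ _ (upd_main ..)
    exact h.popO.mono (by dsimp only; omega)
  | node a a' =>
    have h3 := (q_drop a (a'.code ++ r) b m C).popI (p := pc .main .o)
    have e : (D.node a a').code ++ r = .i :: (a.code ++ (a'.code ++ r)) := by simp [D.code]
    rw [e]
    exact h3.mono (by simp only [D.size]; omega)

theorem ptd_node {A : Set D} {f g : D → D} (hf : PTD A f) (hg : PTD A g) :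
    PTD A (fun t => .node (f t) (g t)) := by
  obtain ⟨p, T, h1, h2, h3⟩ := ptd_iff.1 hf
  obtain ⟨q, T', h4, h5, h6⟩ := ptd_iff.1 hg
  refine ptd_iff.2 ⟨.seq dup (.seq q (.seq swap (.seq p (pc .main .i)))),
    fun t => (32 * t.size + 43) + (T' t + ((19 * (g t).size + 19 * t.size + 36) + (T t + 1))),
    (((PB.const 32).mul PB.size).add (PB.const 43)).add (h4.add
      (((((PB.const 19).mul h5).add ((PB.const 19).mul PB.size)).add (PB.const 36)).add
        (h1.add (PB.const 1)))), (h2.add h5).add (PB.const 1), ?_⟩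
  intro t ht r b m C
  have h7 := q_dup t r b m C
  have h8 := h6 t ht (t.code ++ r) b m C
  have h9 := q_swap (g t) t r b m C
  have h10 := h3 t ht ((g t).code ++ r) b m C
  have h11 : Q (pc .main .i) (mkS ((f t).code ++ ((g t).code ++ r)) b m C []) 1
      (mkS ((D.node (f t) (g t)).code ++ r) b m C []) := by
    refine Q.pc _ _ ?_
    rw [upd_main]
    simp [D.code]
  exact h7.seq (h8.seq (h9.seq (h10.seq h11)))

theorem ptd_cas {A : Set D} {h f g : D → D} (hh : PTD A h) (hf : PTD {t | t ∈ A ∧ h t = .nil} f)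
    (hg : PTD {t | t ∈ A ∧ h t ≠ .nil} g) : PTD A (fun t => if h t = .nil then f t else g t) := by
  obtain ⟨p, T, h1, h2, h3⟩ := ptd_iff.1 hf
  obtain ⟨q, T', h4, h5, h6⟩ := ptd_iff.1 hg
  obtain ⟨k, T'', h7, h8, h9⟩ := ptd_iff.1 hh
  refine ptd_iff.2 ⟨.seq dup (.seq k (popIte p (.seq drop (.seq drop q)))),
    fun t => (32 * t.size + 43) + (T'' t + (((if h t = .nil then T t else T' t) +
      13 * (h t).size) + 20)),
    (((PB.const 32).mul PB.size).add (PB.const 43)).add (h7.add
      (((h1.ite h4).add ((PB.const 13).mul h8)).add (PB.const 20))),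
      (h2.ite h5).mono fun t _ => ?_, ?_⟩
  · split_ifs <;> exact le_rfl
  · intro t htA r b m C
    have h10 := q_dup t r b m C
    have h11 := h9 t htA (t.code ++ r) b m C
    by_cases ht : h t = .nil
    · have h12 := (h3 t ⟨htA, ht⟩ r b m C).popO (q := .seq drop (.seq drop q))
      have e : (h t).code ++ (t.code ++ r) = .o :: (t.code ++ r) := by rw [ht]; rfl
      rw [e] at h11
      simp only [ht, if_true]
      exact (h10.seq (h11.seq h12)).mono (by omega)
    · obtain ⟨a, a', ha⟩ : ∃ a a', h t = .node a a' := by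
        cases hh : h t with
        | nil => exact absurd hh ht
        | node a a' => exact ⟨a, a', rfl⟩
      have h12 := q_drop a (a'.code ++ (t.code ++ r)) b m C
      have h13 := q_drop a' (t.code ++ r) b m C
      have h14 := (h12.seq (h13.seq (h6 t ⟨htA, ht⟩ r b m C))).popI (p := p)
      have e : (h t).code ++ (t.code ++ r) = .i :: (a.code ++ (a'.code ++ (t.code ++ r))) := by
        rw [ha]; simp [D.code]
      rw [e] at h11
      simp only [ht, if_false]
      refine (h10.seq (h11.seq h14)).mono ?_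
      have e2 : (h t).size = a.size + a'.size + 1 := by rw [ha]; rfl
      omega

end Pool.Agent.PT
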