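import Pool.Agent.Lib.StackProg

/-!
# Polynomial time on trees: definitions

Data are binary trees, written on stacks in preorder. `PTD g` says that `g` is computed by a
structured stack program in polynomial time, acting locally on the top of the main stack.
`Core` lists the closure properties (proved in `Core.lean`), `Typed.lean` lifts them to ordinary
types.
-/

set_option autoImplicit false

namespace Pool.Agent.PT

open Pool.Agent.StackProg Function

/-- Binary trees. -/
inductive D : Type
  | nil : D
  | node (a b : D) : D
  deriving DecidableEq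

/-- Number of nodes and leaves. -/
def D.size : D → ℕ
  | .nil => 1
  | .node a b => a.size + b.size + 1

/-- First component. -/
def D.fst : D → D
  | .nil => .nil
  | .node a _ => a

/-- Second component. -/
def D.snd : D → D
  | .nil => .nil
  | .node _ b => b

/-- Tape symbols: `o`, `i` write trees, `m` is a marker, the others are for input and output. -/
inductive Sym : Type
  | o | i | m | b0 | b1 | comma | semi | minus
  deriving DecidableEq

instance : Fintype Sym where
  elems := {.o, .i, .m, .b0, .b1, .comma, .semi, .minus}
  complete := by intro x; cases x <;> decide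

/-- Preorder code of a tree. -/
def D.code : D → List Sym
  | .nil => [.o]
  | .node a b => .i :: (a.code ++ b.code)

/-- The stacks. -/
inductive Stk : Type
  | main | aux | tmp | cnt | ctl
  deriving DecidableEq

instance : Fintype Stk where
  elems := {.main, .aux, .tmp, .cnt, .ctl}
  complete := by intro x; cases x <;> decide

/-- The finite register: last popped symbol and two flags. -/
abbrev Reg : Type := Option Sym × Bool × Bool

/-- On inputs in `A` the program `p` computes `g` on the top of the main stack, in polynomial time,
leaving everything else on the stacks unchanged. The control stack `ctl` is empty before and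
after. -/
def Computes (p : Prog Stk Sym Reg) (A : Set D) (g : D → D) (c : ℕ) : Prop :=
  ∀ t ∈ A, (g t).size ≤ (t.size + 2) ^ c ∧
    ∀ (v : Reg) (S : Stk → List Sym) (r : List Sym), S .main = t.code ++ r → S .ctl = [] →
      ∃ (v' : Reg) (n : ℕ), n ≤ (t.size + 2) ^ c ∧
        Exec p (v, S) n (v', update S .main ((g t).code ++ r))

/-- On inputs in `A` the function `g` is computable in polynomial time. -/
def PTD (A : Set D) (g : D → D) : Prop := ∃ p c, Computes p A g c

theorem PTD.mono {A B : Set D} {g : D → D} (h : PTD A g) (hBA : B ⊆ A) : PTD B g := by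
  obtain ⟨p, c, h⟩ := h
  exact ⟨p, c, fun t ht => h t (hBA ht)⟩

theorem PTD.congr {A : Set D} {g g' : D → D} (h : PTD A g) (hg : ∀ t ∈ A, g t = g' t) :
    PTD A g' := by
  obtain ⟨p, c, h⟩ := h
  refine ⟨p, c, fun t ht => ?_⟩
  rw [← hg t ht]
  exact h t ht

/-- Trees as lists: the members along the right spine. -/
def D.list : D → List D
  | .nil => []
  | .node a b => a :: b.list

/-- The tree of a list of trees. -/
def D.ofList : List D → D
  | [] => .nil
  | a :: l => .node a (D.ofList l)

/-- The truth values as trees. -/
def D.ofBool : Bool → D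
  | false => .nil
  | true => .node .nil .nil

/-- Unary numbers as trees. -/
def D.un : ℕ → D
  | 0 => .nil
  | n + 1 => .node .nil (D.un n)

/-- The number of a symbol. -/
def Sym.idx : Sym → ℕ
  | .o => 0
  | .i => 1
  | .m => 2
  | .b0 => 3
  | .b1 => 4
  | .comma => 5
  | .semi => 6
  | .minus => 7

/-- The symbols as trees. -/
def D.ofSym (s : Sym) : D := D.un s.idx

/-- Closure properties of `PTD` (jobs PT-CORE). -/
structure Core : Prop where
  id : PTD Set.univ (fun t => t)
  comp : ∀ {A B : Set D} {f g : D → D}, PTD B f → PTD A g → (∀ t ∈ A, g t ∈ B) →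
    PTD A (fun t => f (g t))
  const : ∀ d : D, PTD Set.univ (fun _ => d)
  fst : PTD Set.univ D.fst
  snd : PTD Set.univ D.snd
  node : ∀ {A : Set D} {f g : D → D}, PTD A f → PTD A g → PTD A (fun t => .node (f t) (g t))
  cas : ∀ {A : Set D} {h f g : D → D}, PTD A h → PTD {t | t ∈ A ∧ h t = .nil} f →
    PTD {t | t ∈ A ∧ h t ≠ .nil} g → PTD A (fun t => if h t = .nil then f t else g t)
  eq : PTD Set.univ (fun t => D.ofBool (decide (t.fst = t.snd)))
  /-- `t = node l s`: fold `g` over the list `l` starting with `s`. -/
  fold : ∀ {A B : Set D} {g : D → D}, PTD B g →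
    (∀ t ∈ A, ∀ (l : List D) (a : D), l ++ [a] <+: t.fst.list →
      D.node a (l.foldl (fun s a => g (.node a s)) t.snd) ∈ B) →
    (∃ c : ℕ, ∀ t ∈ A, ∀ l : List D, l <+: t.fst.list →
      (l.foldl (fun s a => g (.node a s)) t.snd).size ≤ (t.size + 2) ^ c) →
    PTD A (fun t => t.fst.list.foldl (fun s a => g (.node a s)) t.snd)
  /-- Input and output as strings. -/
  io : ∀ {α β : Type} (ea : α → List Sym) (eb : β → List Sym) (f : α → β) (g : D → D),
    PTD (Set.range fun a => D.ofList ((ea a).map D.ofSym)) g →
    (∀ a, g (D.ofList ((ea a).map D.ofSym)) = D.ofList ((eb (f a)).map D.ofSym)) →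
    Nonempty (Turing.TM2ComputableInPolyTime ea eb f)

end Pool.Agent.PT
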