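import Pool.Agent.PT.Basic

/-!
# Polynomial time on trees: equality, folding, input and output
-/

set_option autoImplicit false

namespace Pool.Agent.PT

open Pool.Agent.StackProg Function

/-! ### equality -/

/-- Compare the top symbols of `aux` and `tmp`. -/
def cmpStep : Prog Stk Sym Reg :=
  .seq (.pop .aux (fun _ o => (o, false, false)))
    (.pop .tmp (fun v o => (v.1, decide (o ≠ some .m), decide (v.1 = o))))

/-- The condition for going on. -/
def cmpCond (v : Reg) : Bool := v.2.2 && decide (v.1 ≠ some .m)

/-- Drop up to the marker. -/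
def dropMark (A : Stk) : Prog Stk Sym Reg := mvMark A .skip

/-- The answer after the comparison. -/
def cmpEnd : Prog Stk Sym Reg :=
  .ite (fun v => v.2.2) (pushL [.i, .o, .o])
    (.seq (.ite (fun v => decide (v.1 = some .m)) (dropMark .tmp)
      (.ite (fun v => v.2.1) (.seq (dropMark .aux) (dropMark .tmp)) (dropMark .aux)))
      (pc .main .o))

section
variable (r b m C : List Sym)

theorem q_dropAux (w : List Sym) (hw : Sym.m ∉ w) : Q (dropMark .aux) (mkS r (w ++ .m :: b) m C [])
    (6 * w.length + 11) (mkS r b m C []) := by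
  intro v
  have h : Mv .aux .skip (fun a _ => mkS r a m C []) 1 :=
    ⟨fun _ _ => rfl, fun _ _ _ => upd_aux .., fun _ _ => rfl, fun v s a x hv => R.skip⟩
  have h1 := h.run_mark w hw v b []
  exact ⟨_, h1.mono (by omega)⟩

theorem q_dropTmp (w : List Sym) (hw : Sym.m ∉ w) : Q (dropMark .tmp) (mkS r b (w ++ .m :: m) C [])
    (6 * w.length + 11) (mkS r b m C []) := by
  intro v
  have h : Mv .tmp .skip (fun a _ => mkS r b a C []) 1 :=
    ⟨fun _ _ => rfl, fun _ _ _ => upd_tmp .., fun _ _ => rfl, fun v s a x hv => R.skip⟩
  have h1 := h.run_mark w hw v m []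
  exact ⟨_, h1.mono (by omega)⟩

theorem r_cmpStep (v : Reg) (x y : Sym) (w w' : List Sym) :
    R cmpStep v (mkS r (x :: w) (y :: w') C []) 2 (some x, decide (y ≠ .m), decide (x = y))
      (mkS r w w' C []) := by
  have h1 : R (.pop .aux (fun _ o => (o, false, false))) v (mkS r (x :: w) (y :: w') C []) 1
      (some x, false, false) (mkS r w (y :: w') C []) :=
    R.popD .aux _ (o := some x) (l := w) rfl rfl rfl (upd_aux ..)
  have h2 : R (.pop .tmp (fun v o => (v.1, decide (o ≠ some .m), decide (v.1 = o))))
      (some x, false, false) (mkS r w (y :: w') C []) 1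
      (some x, decide (y ≠ .m), decide (x = y)) (mkS r w w' C []) :=
    R.popD .tmp _ (o := some y) (l := w') rfl rfl (by simp) (upd_tmp ..)
  exact h1.seq h2

theorem cmp_it (w : List Sym) (hw : Sym.m ∉ w) : ∀ (w' : List Sym), Sym.m ∉ w' → ∀ (v : Reg),
    ∃ (v' : Reg) (S' : Stk → List Sym), It cmpCond cmpStep v
      (mkS r (w ++ .m :: b) (w' ++ .m :: m) C []) (5 * w.length + 2) v' S' ∧
      cmpCond v' = false ∧ ∃ v'' : Reg, R cmpEnd v' S' (6 * w.length + 6 * w'.length + 30) v''
        (mkS ((D.ofBool (decide (w = w'))).code ++ r) b m C []) := by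
  induction w with
  | nil =>
    intro w' hw' v
    cases w' with
    | nil =>
      refine ⟨(some .m, false, true), mkS r b m C [], .one rfl rfl ?_, rfl, ?_⟩
      · exact r_cmpStep r C v .m .m b m
      · obtain ⟨v'', h⟩ := q_pushL r b m C [.i, .o, .o] (some .m, false, true)
        exact ⟨v'', (R.iteT rfl h).mono (by simp)⟩
    | cons y w' =>
      have hy : y ≠ .m := fun h => hw' (by simp [h])
      have hw1 : Sym.m ∉ w' := fun h => hw' (by simp [h])
      refine ⟨(some .m, decide (y ≠ .m), decide (.m = y)), mkS r b (w' ++ .m :: m) C [],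
        .one rfl rfl ?_, ?_, ?_⟩
      · exact r_cmpStep r C v .m y b (w' ++ .m :: m)
      · simp [cmpCond]
      · obtain ⟨v1, h1⟩ := q_dropTmp r b m C w' hw1 (some .m, decide (y ≠ .m), decide (.m = y))
        obtain ⟨v2, h2⟩ := (Q.pc .main .o (upd_main ..) : Q (pc .main .o) (mkS r b m C []) 1
          (mkS (.o :: r) b m C [])) v1
        have h3 := (R.iteT (f := fun v : Reg => decide (v.1 = some .m))
          (q := .ite (fun v => v.2.1) (.seq (dropMark .aux) (dropMark .tmp)) (dropMark .aux))
          (by simp) h1).seq h2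
        refine ⟨v2, ?_⟩
        have h4 := R.iteF (f := fun v : Reg => v.2.2) (p := pushL [.i, .o, .o])
          (v := (some .m, decide (y ≠ .m), decide (.m = y))) (by simpa using hy.symm) h3
        have e : (D.ofBool (decide (([] : List Sym) = y :: w'))).code ++ r = .o :: r := by
          simp [D.ofBool, D.code]
        rw [e]
        exact h4.mono (by simp only [List.length_cons]; omega)
  | cons x w ih =>
    intro w' hw' v
    have hx : x ≠ .m := fun h => hw (by simp [h])
    have hw0 : Sym.m ∉ w := fun h => hw (by simp [h])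
    cases w' with
    | nil =>
      refine ⟨(some x, decide (Sym.m ≠ .m), decide (x = .m)), mkS r (w ++ .m :: b) m C [],
        .one rfl rfl ?_, ?_, ?_⟩
      · exact (r_cmpStep r C v x .m (w ++ .m :: b) m).mono (by omega)
      · simp [cmpCond, hx]
      · obtain ⟨v1, h1⟩ := q_dropAux r b m C w hw0 (some x, decide (Sym.m ≠ .m), decide (x = .m))
        obtain ⟨v2, h2⟩ := (Q.pc .main .o (upd_main ..) : Q (pc .main .o) (mkS r b m C []) 1
          (mkS (.o :: r) b m C [])) v1
        have h3 := (R.iteF (f := fun v : Reg => decide (v.1 = some .m))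
          (p := dropMark .tmp) (by simpa using hx) (R.iteF (f := fun v : Reg => v.2.1)
            (p := .seq (dropMark .aux) (dropMark .tmp)) (by simp) h1)).seq h2
        refine ⟨v2, ?_⟩
        have h4 := R.iteF (f := fun v : Reg => v.2.2) (p := pushL [.i, .o, .o])
          (v := (some x, decide (Sym.m ≠ .m), decide (x = .m))) (by simpa using hx) h3
        have e : (D.ofBool (decide (x :: w = []))).code ++ r = .o :: r := by
          simp [D.ofBool, D.code]
        rw [e]
        exact h4.mono (by simp only [List.length_cons]; omega)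
    | cons y w' =>
      have hy : y ≠ .m := fun h => hw' (by simp [h])
      have hw1 : Sym.m ∉ w' := fun h => hw' (by simp [h])
      have h0 := r_cmpStep r C v x y (w ++ .m :: b) (w' ++ .m :: m)
      by_cases hxy : x = y
      · obtain ⟨v', S', h1, h2, v'', h3⟩ := ih hw0 w' hw1 (some x, decide (y ≠ .m), decide (x = y))
        refine ⟨v', S', ?_, h2, v'', ?_⟩
        · have h4 := It.cons (f := cmpCond) rfl rfl h0 (by simp [cmpCond, hxy, hy]) h1
          exact h4.mono (by simp only [List.length_cons]; omega)
        · have e : decide (x :: w = y :: w') = decide (w = w') := by simp [hxy]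
          rw [e]
          exact h3.mono (by simp only [List.length_cons]; omega)
      · refine ⟨(some x, decide (y ≠ .m), decide (x = y)),
          mkS r (w ++ .m :: b) (w' ++ .m :: m) C [], .one rfl rfl (h0.mono (by omega)),
          by simp [cmpCond, hxy], ?_⟩
        obtain ⟨v1, h1⟩ := q_dropAux r b (w' ++ .m :: m) C w hw0
          (some x, decide (y ≠ .m), decide (x = y))
        obtain ⟨v2, h2⟩ := q_dropTmp r b m C w' hw1 v1
        obtain ⟨v3, h3⟩ := (Q.pc .main .o (upd_main ..) : Q (pc .main .o) (mkS r b m C []) 1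
          (mkS (.o :: r) b m C [])) v2
        have h4 := (R.iteF (f := fun v : Reg => decide (v.1 = some .m))
          (p := dropMark .tmp) (by simpa using hx) (R.iteT (f := fun v : Reg => v.2.1)
            (q := dropMark .aux) (by simpa using hy) (h1.seq h2))).seq h3
        refine ⟨v3, ?_⟩
        have h5 := R.iteF (f := fun v : Reg => v.2.2) (p := pushL [.i, .o, .o])
          (v := (some x, decide (y ≠ .m), decide (x = y))) (by simpa using hxy) h4
        have e : (D.ofBool (decide (x :: w = y :: w'))).code ++ r = .o :: r := by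
          simp [hxy, D.ofBool, D.code]
        rw [e]
        exact h5.mono (by simp only [List.length_cons]; omega)

end

/-- Compare the two top trees. -/
def cmp : Prog Stk Sym Reg :=
  .seq (pc .aux .m) (.seq tMA (.seq (pc .tmp .m) (.seq tMT (.seq (doWhile cmpCond cmpStep) cmpEnd))))

theorem q_cmp (t s : D) (r b m C : List Sym) : Q cmp (mkS (t.code ++ (s.code ++ r)) b m C [])
    (24 * t.size + 19 * s.size + 60) (mkS ((D.ofBool (decide (t = s))).code ++ r) b m C []) := by
  have h1 : Q (pc .aux .m) (mkS (t.code ++ (s.code ++ r)) b m C []) 1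
      (mkS (t.code ++ (s.code ++ r)) (.m :: b) m C []) := Q.pc _ _ (upd_aux ..)
  have h2 := q_tMA t (s.code ++ r) (.m :: b) m C
  have h3 : Q (pc .tmp .m) (mkS (s.code ++ r) (t.code.reverse ++ .m :: b) m C []) 1
      (mkS (s.code ++ r) (t.code.reverse ++ .m :: b) (.m :: m) C []) := Q.pc _ _ (upd_tmp ..)
  have h4 := q_tMT s r (t.code.reverse ++ .m :: b) (.m :: m) C
  have h5 : Q (.seq (doWhile cmpCond cmpStep) cmpEnd)
      (mkS r (t.code.reverse ++ .m :: b) (s.code.reverse ++ .m :: m) C [])
      (11 * t.size + 6 * s.size + 37)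
      (mkS ((D.ofBool (decide (t = s))).code ++ r) b m C []) := by
    intro v
    obtain ⟨v', S', h6, h7, v'', h8⟩ := cmp_it r b m C t.code.reverse t.m_not_mem_rev
      s.code.reverse s.m_not_mem_rev v
    refine ⟨v'', ?_⟩
    have e : decide (t.code.reverse = s.code.reverse) = decide (t = s) := by
      refine decide_eq_decide.2 ⟨fun h => D.code_inj (List.reverse_injective h), fun h => by rw [h]⟩
    rw [e] at h8
    refine ((h6.doWhile h7).seq h8).mono ?_
    simp only [List.length_reverse, D.code_length]
    omega
  exact (h1.seq (h2.seq (h3.seq (h4.seq h5)))).mono (by omega)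

theorem ptd_eq : PTD Set.univ (fun t => D.ofBool (decide (t.fst = t.snd))) := by
  refine ptd_iff.2 ⟨popIte (pushL [.i, .o, .o]) cmp,
    fun t => 24 * t.size + 100, ((PB.const 24).mul PB.size).add (PB.const 100),
    (PB.const 3).mono fun t _ => ?_, ?_⟩
  · cases decide (t.fst = t.snd) <;> simp [D.ofBool, D.size]
  intro t _ r b m C
  cases t with
  | nil =>
    have h := (q_pushL r b m C [.i, .o, .o]).popO (q := cmp)
    exact h.mono (by simp only [List.length_cons, List.length_nil]; omega)
  | node a a' =>
    have h3 := (q_cmp a a' r b m C).popI (p := pushL [.i, .o, .o])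
    have e : (D.node a a').code ++ r = .i :: (a.code ++ (a'.code ++ r)) := by simp [D.code]
    rw [e]
    exact h3.mono (by simp only [D.size]; omega)

/-! ### fold -/

/-- The body of the fold. -/
def foldStep (p : Prog Stk Sym Reg) : Prog Stk Sym Reg :=
  .seq (.pop .main (fun v o => (o, decide (o = some .i), v.2.2)))
    (.ite (fun v => v.2.1)
      (.seq (.seq (pc .aux .m) (.seq tMA (.seq (pc .tmp .m) (.seq tMT (.seq bAM
        (.seq (pc .main .i) (.seq p bTM))))))) (.load (fun v => (v.1, true, v.2.2)))) .skip)

theorem fold_it {B : Set D} {g : D → D} {p : Prog Stk Sym Reg} {T : D → ℕ} (hp : Comp p B g T)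
    (N M : ℕ) (L : D) : ∀ (s : D), L.size ≤ N →
    (∀ (l : List D) (a : D), l ++ [a] <+: L.list →
      D.node a (l.foldl (fun s a => g (.node a s)) s) ∈ B ∧
        T (D.node a (l.foldl (fun s a => g (.node a s)) s)) ≤ M) →
    ∀ (v : Reg) (r b m C : List Sym), ∃ v' : Reg, v'.2.1 = false ∧
      It (fun v => v.2.1) (foldStep p) v (mkS (L.code ++ (s.code ++ r)) b m C [])
        ((19 * N + 60 + M) * (L.list.length + 1)) v'
        (mkS ((L.list.foldl (fun s a => g (.node a s)) s).code ++ r) b m C []) := by
  induction L with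
  | nil =>
    intro s hN hB v r b m C
    refine ⟨(some .o, false, v.2.2), rfl, .one rfl rfl ?_⟩
    have h1 : R (.pop .main (fun v o => (o, decide (o = some .i), v.2.2))) v
        (mkS (.o :: (s.code ++ r)) b m C []) 1 (some .o, false, v.2.2)
        (mkS (s.code ++ r) b m C []) :=
      R.popD .main _ (o := some .o) (l := s.code ++ r) rfl rfl (by simp) (upd_main ..)
    exact (h1.seq (R.iteF rfl R.skip)).mono (by simp only [D.list, List.length_nil]; omega)
  | node a L' _ ih =>
    intro s hN hB v r b m C
    have hsz : a.size + L'.size + 1 ≤ N := hN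
    have hB0 := hB [] a (by simp [D.list])
    simp only [List.foldl_nil] at hB0
    have e0 : (D.node a L').code ++ (s.code ++ r) = .i :: (a.code ++ (L'.code ++ (s.code ++ r))) := by
      simp [D.code]
    have h1 : R (.pop .main (fun v o => (o, decide (o = some .i), v.2.2))) v
        (mkS (.i :: (a.code ++ (L'.code ++ (s.code ++ r)))) b m C []) 1 (some .i, true, v.2.2)
        (mkS (a.code ++ (L'.code ++ (s.code ++ r))) b m C []) :=
      R.popD .main _ (o := some .i) (l := a.code ++ (L'.code ++ (s.code ++ r))) rfl rfl (by simp)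
        (upd_main ..)
    have h2 : Q (.seq (pc .aux .m) (.seq tMA (.seq (pc .tmp .m) (.seq tMT (.seq bAM
        (.seq (pc .main .i) (.seq p bTM)))))))
        (mkS (a.code ++ (L'.code ++ (s.code ++ r))) b m C []) (19 * a.size + 19 * L'.size + 50 +
          T (.node a s)) (mkS (L'.code ++ ((g (.node a s)).code ++ r)) b m C []) := by
      have h3 : Q (pc .aux .m) (mkS (a.code ++ (L'.code ++ (s.code ++ r))) b m C []) 1
        (mkS (a.code ++ (L'.code ++ (s.code ++ r))) (.m :: b) m C []) := Q.pc _ _ (upd_aux ..)
      have h4 := q_tMA a (L'.code ++ (s.code ++ r)) (.m :: b) m C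
      have h5 : Q (pc .tmp .m) (mkS (L'.code ++ (s.code ++ r)) (a.code.reverse ++ .m :: b) m C []) 1
        (mkS (L'.code ++ (s.code ++ r)) (a.code.reverse ++ .m :: b) (.m :: m) C []) :=
        Q.pc _ _ (upd_tmp ..)
      have h6 := q_tMT L' (s.code ++ r) (a.code.reverse ++ .m :: b) (.m :: m) C
      have h7 := q_bAM a (s.code ++ r) b (L'.code.reverse ++ .m :: m) C
      have h8 : Q (pc .main .i) (mkS (a.code ++ (s.code ++ r)) b (L'.code.reverse ++ .m :: m) C [])
          1 (mkS ((D.node a s).code ++ r) b (L'.code.reverse ++ .m :: m) C []) := by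
        refine Q.pc _ _ ?_
        rw [upd_main]
        simp [D.code]
      have h9 := hp (.node a s) hB0.1 r b (L'.code.reverse ++ .m :: m) C
      have h10 := q_bTM L' ((g (.node a s)).code ++ r) b m C
      exact (h3.seq (h4.seq (h5.seq (h6.seq (h7.seq (h8.seq (h9.seq h10))))))).mono (by omega)
    obtain ⟨v1, h3⟩ := h2 (some .i, true, v.2.2)
    have h4 := h1.seq (R.iteT (f := fun v : Reg => v.2.1) (q := .skip) rfl
      (h3.seq (R.load (fun v => (v.1, true, v.2.2)))))
    obtain ⟨v', hv', h5⟩ := ih (g (.node a s)) (by omega) (fun l a' hl => by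
      have := hB (a :: l) a' (by
        simp only [D.list, List.cons_append, List.cons_prefix_cons, true_and]
        exact hl)
      simpa only [List.foldl_cons] using this) (v1.1, true, v1.2.2) r b m C
    refine ⟨v', hv', ?_⟩
    have h6 := It.cons (f := fun v : Reg => v.2.1) rfl rfl h4 rfl h5
    rw [e0]
    simp only [D.list, List.foldl_cons, List.length_cons]
    refine h6.mono ?_
    have h7 := hB0.2
    have e1 : (19 * N + 60 + M) * (L'.list.length + 1 + 1) =
      (19 * N + 60 + M) * (L'.list.length + 1) + (19 * N + 60 + M) := by ring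
    omega

theorem list_length_lt (t : D) : t.list.length + 1 ≤ t.size := by
  induction t with
  | nil => simp [D.list, D.size]
  | node a b _ ih =>
    have := a.one_le_size
    simp only [D.list, D.size, List.length_cons]
    omega

theorem size_of_mem_list {t a : D} (h : a ∈ t.list) : a.size ≤ t.size := by
  induction t with
  | nil => simp [D.list] at h
  | node b t _ ih =>
    simp only [D.list, List.mem_cons] at h
    simp only [D.size]
    rcases h with rfl | h
    · omega
    · have := ih h
      omega

theorem PB.pow {A : Set D} {T : D → ℕ} (h : PB A T) (k : ℕ) : PB A (fun t => T t ^ k) := by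
  obtain ⟨c, h⟩ := h
  refine ⟨c * k, fun t ht => ?_⟩
  rw [pow_mul]
  exact Nat.pow_le_pow_left (h t ht) k

theorem ptd_fold {A B : Set D} {g : D → D} (hg : PTD B g)
    (hB : ∀ t ∈ A, ∀ (l : List D) (a : D), l ++ [a] <+: t.fst.list →
      D.node a (l.foldl (fun s a => g (.node a s)) t.snd) ∈ B)
    (hs : ∃ c : ℕ, ∀ t ∈ A, ∀ l : List D, l <+: t.fst.list →
      (l.foldl (fun s a => g (.node a s)) t.snd).size ≤ (t.size + 2) ^ c) :
    PTD A (fun t => t.fst.list.foldl (fun s a => g (.node a s)) t.snd) := by
  obtain ⟨p, T, ⟨d, hT⟩, -, hp⟩ := ptd_iff.1 hg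
  obtain ⟨c, hs⟩ := hs
  have hM : PB A (fun t => (t.size + (t.size + 2) ^ c + 3) ^ d) :=
    ((PB.size.add ((PB.size.add (PB.const 2)).pow c)).add (PB.const 3)).pow d
  refine ptd_iff.2 ⟨popIte (pc .main .o) (doWhile (fun v => v.2.1) (foldStep p)),
    fun t => (19 * t.size + 60 + (t.size + (t.size + 2) ^ c + 3) ^ d) * t.size + 10,
    ((((((PB.const 19).mul PB.size).add (PB.const 60)).add hM).mul PB.size).add (PB.const 10)),
    ⟨c, fun t ht => hs t ht _ (List.prefix_refl _)⟩, ?_⟩
  intro t ht r b m C
  cases t with
  | nil =>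
    have h : Q (pc .main .o) (mkS r b m C []) 1 (mkS (.o :: r) b m C []) :=
      Q.pc _ _ (upd_main ..)
    exact h.popO.mono (by dsimp only; omega)
  | node L s =>
    have e : (D.node L s).code ++ r = .i :: (L.code ++ (s.code ++ r)) := by simp [D.code]
    rw [e]
    have h1 : Q (doWhile (fun v => v.2.1) (foldStep p)) (mkS (L.code ++ (s.code ++ r)) b m C [])
        ((19 * (D.node L s).size + 60 + ((D.node L s).size + ((D.node L s).size + 2) ^ c + 3) ^ d) *
          (D.node L s).size + 5)
        (mkS ((L.list.foldl (fun s a => g (.node a s)) s).code ++ r) b m C []) := by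
      have hX : ∀ (l : List D) (a : D), l ++ [a] <+: L.list →
          D.node a (l.foldl (fun s a => g (.node a s)) s) ∈ B ∧
          T (D.node a (l.foldl (fun s a => g (.node a s)) s)) ≤
            ((D.node L s).size + ((D.node L s).size + 2) ^ c + 3) ^ d := by
        intro l a hl
        refine ⟨hB _ ht l a hl, (hT _ (hB _ ht l a hl)).trans (Nat.pow_le_pow_left ?_ d)⟩
        have h3 := hs _ ht l ((List.prefix_append l [a]).trans hl)
        have h4 : a ∈ L.list := hl.subset (by simp)
        have h5 := size_of_mem_list h4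
        simp only [D.snd] at h3
        have h6 : (D.node a (l.foldl (fun s a => g (.node a s)) s)).size =
          a.size + (l.foldl (fun s a => g (.node a s)) s).size + 1 := rfl
        have h7 : (D.node L s).size = L.size + s.size + 1 := rfl
        show (D.node a (l.foldl (fun s a => g (.node a s)) s)).size + 2 ≤ _
        omega
      intro v
      obtain ⟨v', hv', h2⟩ := fold_it hp (D.node L s).size
        (((D.node L s).size + ((D.node L s).size + 2) ^ c + 3) ^ d) L s
        (by simp only [D.size]; omega) hX v r b m C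
      refine ⟨v', (h2.doWhile hv').mono ?_⟩
      have h3 := list_length_lt L
      have h4 : L.list.length + 1 ≤ (D.node L s).size := by simp only [D.size]; omega
      have := Nat.mul_le_mul_left (19 * (D.node L s).size + 60 +
        ((D.node L s).size + ((D.node L s).size + 2) ^ c + 3) ^ d) h4
      omega
    exact h1.popI.mono (by dsimp only; omega)

/-! ### input and output -/

/-- All symbols. -/
def syms : List Sym := [.o, .i, .m, .b0, .b1, .comma, .semi, .minus]

/-- Write the code of the symbol in the register. -/
def enc : List Sym → Prog Stk Sym Reg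
  | [] => .skip
  | s :: l => .ite (fun v => decide (v.1 = some s)) (pushL (.i :: (D.ofSym s).code)) (enc l)

theorem size_un (n : ℕ) : (D.un n).size = 2 * n + 1 := by
  induction n with
  | zero => rfl
  | succ n ih => simp only [D.un, D.size, ih]; ring

theorem size_ofSym (s : Sym) : (D.ofSym s).size ≤ 15 := by
  rw [D.ofSym, size_un]
  cases s <;> simp [Sym.idx]

theorem r_enc (s : Sym) (r b m C : List Sym) (l : List Sym) (hl : s ∈ l) : ∀ (v : Reg),
    v.1 = some s → ∃ v', R (enc l) v (mkS r b m C []) (l.length + 20) v'
      (mkS (.i :: ((D.ofSym s).code ++ r)) b m C []) := by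
  induction l with
  | nil => simp at hl
  | cons x l ih =>
    intro v hv
    by_cases hx : x = s
    · subst hx
      obtain ⟨v', h⟩ := q_pushL r b m C (.i :: (D.ofSym x).code) v
      refine ⟨v', (R.iteT (by simpa using hv) h).mono ?_⟩
      have := size_ofSym x
      simp only [List.length_cons, D.code_length]
      omega
    · obtain ⟨v', h⟩ := ih (by
        rcases List.mem_cons.1 hl with h | h
        · exact absurd h.symm hx
        · exact h) v hv
      exact ⟨v', (R.iteF (by simpa [hv] using fun h => hx h.symm) h).mono (by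
        simp only [List.length_cons]; omega)⟩

theorem mem_syms (s : Sym) : s ∈ syms := by cases s <;> simp [syms]

/-- Read the code of a symbol. -/
def dec : List Sym → Prog Stk Sym Reg
  | [] => .skip
  | s :: l => .seq (.pop .main (fun v o => (o, v.2)))
      (.ite (fun v => decide (v.1 = some .o)) (pc .aux s)
        (.seq (.pop .main (fun v _ => v)) (dec l)))

theorem q_dec (r b m C : List Sym) (l : List Sym) : ∀ (k : ℕ) (s : Sym), l[k]? = some s →
    Q (dec l) (mkS ((D.un k).code ++ r) b m C []) (3 * l.length + 3) (mkS r (s :: b) m C []) := by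
  induction l with
  | nil => intro k s h; simp at h
  | cons x l ih =>
    intro k s h v
    cases k with
    | zero =>
      have hx : x = s := by simpa using h
      subst hx
      have h1 : R (.pop .main (fun v o => (o, v.2))) v (mkS (.o :: r) b m C []) 1 (some .o, v.2)
        (mkS r b m C []) := R.popD .main _ (o := some .o) (l := r) rfl rfl rfl (upd_main ..)
      obtain ⟨v', h2⟩ := (Q.pc .aux x (upd_aux ..) : Q (pc .aux x) (mkS r b m C []) 1
        (mkS r (x :: b) m C [])) (some .o, v.2)
      exact ⟨v', (h1.seq (R.iteT (by simp) h2)).mono (by omega)⟩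
    | succ k =>
      have h1 : R (.pop .main (fun v o => (o, v.2))) v
        (mkS (.i :: .o :: ((D.un k).code ++ r)) b m C []) 1 (some .i, v.2)
        (mkS (.o :: ((D.un k).code ++ r)) b m C []) :=
        R.popD .main _ (o := some .i) (l := .o :: ((D.un k).code ++ r)) rfl rfl rfl (upd_main ..)
      have h2 : R (.pop .main (fun v _ => v)) (some .i, v.2)
        (mkS (.o :: ((D.un k).code ++ r)) b m C []) 1 (some .i, v.2)
        (mkS ((D.un k).code ++ r) b m C []) :=
        R.popD .main _ (o := some .o) (l := (D.un k).code ++ r) rfl rfl rfl (upd_main ..)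
      obtain ⟨v', h3⟩ := ih k s (by simpa using h) (some .i, v.2)
      exact ⟨v', (h1.seq (R.iteF (by simp) (h2.seq h3))).mono (by
        simp only [List.length_cons]; omega)⟩

theorem syms_idx (s : Sym) : syms[s.idx]? = some s := by cases s <;> rfl

end Pool.Agent.PT
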