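import Mathlib

/-!
# Structured stack programs with a different alphabet for every stack

The same as `Pool.Agent.Lib.StackProg` (by helper44), but the stack `k` has the alphabet `Γ k`.
-/

set_option autoImplicit false

namespace Pool.Agent.PT

open Turing Function

/-- Structured programs over stacks `K` with alphabets `Γ k` and a finite register `σ`. -/
inductive GProg (K : Type) (Γ : K → Type) (σ : Type) : Type
  | skip : GProg K Γ σ
  | push (k : K) (f : σ → Γ k) : GProg K Γ σ
  | pop (k : K) (f : σ → Option (Γ k) → σ) : GProg K Γ σ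
  | load (f : σ → σ) : GProg K Γ σ
  | seq (p q : GProg K Γ σ) : GProg K Γ σ
  | ite (f : σ → Bool) (p q : GProg K Γ σ) : GProg K Γ σ
  | loop (k : K) (f : σ → Γ k → σ) (p : GProg K Γ σ) : GProg K Γ σ

variable {K : Type} {Γ : K → Type} {σ : Type} [DecidableEq K]

/-- Big-step semantics with the exact number of machine steps. -/
inductive GExec : GProg K Γ σ → σ × (∀ k, List (Γ k)) → ℕ → σ × (∀ k, List (Γ k)) → Prop
  | skip (s : σ × (∀ k, List (Γ k))) : GExec .skip s 1 s
  | push (k : K) (f : σ → Γ k) (v : σ) (S : ∀ k, List (Γ k)) :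
      GExec (.push k f) (v, S) 1 (v, update S k (f v :: S k))
  | pop (k : K) (f : σ → Option (Γ k) → σ) (v : σ) (S : ∀ k, List (Γ k)) :
      GExec (.pop k f) (v, S) 1 (f v (S k).head?, update S k (S k).tail)
  | load (f : σ → σ) (v : σ) (S : ∀ k, List (Γ k)) : GExec (.load f) (v, S) 1 (f v, S)
  | seq {p q : GProg K Γ σ} {s s' s'' : σ × (∀ k, List (Γ k))} {t t' : ℕ} :
      GExec p s t s' → GExec q s' t' s'' → GExec (.seq p q) s (t + t') s''
  | iteT {f : σ → Bool} {p q : GProg K Γ σ} {v : σ} {S : ∀ k, List (Γ k)}
      {s' : σ × (∀ k, List (Γ k))} {t : ℕ} :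
      f v = true → GExec p (v, S) t s' → GExec (.ite f p q) (v, S) (1 + t) s'
  | iteF {f : σ → Bool} {p q : GProg K Γ σ} {v : σ} {S : ∀ k, List (Γ k)}
      {s' : σ × (∀ k, List (Γ k))} {t : ℕ} :
      f v = false → GExec q (v, S) t s' → GExec (.ite f p q) (v, S) (1 + t) s'
  | loopNil {k : K} {f : σ → Γ k → σ} {p : GProg K Γ σ} {v : σ} {S : ∀ k, List (Γ k)} :
      S k = [] → GExec (.loop k f p) (v, S) 1 (v, S)
  | loopCons {k : K} {f : σ → Γ k → σ} {p : GProg K Γ σ} {v : σ} {S : ∀ k, List (Γ k)} {c : Γ k}
      {l : List (Γ k)} {s' s'' : σ × (∀ k, List (Γ k))} {t t' : ℕ} :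
      S k = c :: l → GExec p (f v c, update S k l) t s' → GExec (.loop k f p) s' t' s'' →
      GExec (.loop k f p) (v, S) (1 + t + t') s''

/-- Labels of the compiled machine. -/
def GLab : GProg K Γ σ → Type
  | .skip => Unit
  | .push _ _ => Unit
  | .pop _ _ => Unit
  | .load _ => Unit
  | .seq p q => GLab p ⊕ GLab q
  | .ite _ p q => Option (GLab p ⊕ GLab q)
  | .loop _ _ p => Option (GLab p)

/-- There are finitely many labels. -/
@[reducible] def glabFintype : (p : GProg K Γ σ) → Fintype (GLab p)
  | .skip => inferInstanceAs (Fintype Unit)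
  | .push _ _ => inferInstanceAs (Fintype Unit)
  | .pop _ _ => inferInstanceAs (Fintype Unit)
  | .load _ => inferInstanceAs (Fintype Unit)
  | .seq p q =>
      letI := glabFintype p
      letI := glabFintype q
      inferInstanceAs (Fintype (GLab p ⊕ GLab q))
  | .ite _ p q =>
      letI := glabFintype p
      letI := glabFintype q
      inferInstanceAs (Fintype (Option (GLab p ⊕ GLab q)))
  | .loop _ _ p =>
      letI := glabFintype p
      inferInstanceAs (Fintype (Option (GLab p)))

/-- Entry label. -/
def gentry : (p : GProg K Γ σ) → GLab p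
  | .skip => ()
  | .push _ _ => ()
  | .pop _ _ => ()
  | .load _ => ()
  | .seq p _ => Sum.inl (gentry p)
  | .ite _ _ _ => none
  | .loop _ _ _ => none

/-- Machine code; `emb` embeds the labels of `p` into those of the whole machine, `ex` is the
label to jump to at the end. The second register component is a flag used by loops. -/
def gcode {Λ : Type} : (p : GProg K Γ σ) → (GLab p → Λ) → Λ → GLab p →
    TM2.Stmt Γ Λ (σ × Bool)
  | .skip, _, ex, _ => .goto fun _ => ex
  | .push k f, _, ex, _ => .push k (fun v => f v.1) (.goto fun _ => ex)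
  | .pop k f, _, ex, _ => .pop k (fun v o => (f v.1 o, false)) (.goto fun _ => ex)
  | .load f, _, ex, _ => .load (fun v => (f v.1, false)) (.goto fun _ => ex)
  | .seq p q, emb, _, .inl l => gcode p (fun x => emb (.inl x)) (emb (.inr (gentry q))) l
  | .seq _ q, emb, ex, .inr l => gcode q (fun x => emb (.inr x)) ex l
  | .ite f p q, emb, _, none =>
      .branch (fun v => f v.1) (.goto fun _ => emb (some (.inl (gentry p))))
        (.goto fun _ => emb (some (.inr (gentry q))))
  | .ite _ p _, emb, ex, some (.inl l) => gcode p (fun x => emb (some (.inl x))) ex l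
  | .ite _ _ q, emb, ex, some (.inr l) => gcode q (fun x => emb (some (.inr x))) ex l
  | .loop k f p, emb, ex, none =>
      .pop k (fun v o => match o with
        | none => (v.1, false)
        | some c => (f v.1 c, true))
        (.branch (fun v => v.2)
          (.load (fun v => (v.1, false)) (.goto fun _ => emb (some (gentry p))))
          (.goto fun _ => ex))
  | .loop _ _ p, emb, _, some l => gcode p (fun x => emb (some x)) (emb none) l

/-- Iterated steps of a machine. -/
def gsteps {Λ : Type} (M : Λ → TM2.Stmt Γ Λ (σ × Bool)) (t : ℕ)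
    (a b : TM2.Cfg Γ Λ (σ × Bool)) : Prop :=
  (flip bind (TM2.step M))^[t] (some a) = some b

lemma gsteps.trans {Λ : Type} {M : Λ → TM2.Stmt Γ Λ (σ × Bool)} {t t' : ℕ}
    {a b c : TM2.Cfg Γ Λ (σ × Bool)} (h : gsteps M t a b)
    (h' : gsteps M t' b c) : gsteps M (t + t') a c := by
  unfold gsteps at *
  rw [Nat.add_comm, Function.iterate_add_apply, h, h']

lemma gsteps_one {Λ : Type} {M : Λ → TM2.Stmt Γ Λ (σ × Bool)}
    {a b : TM2.Cfg Γ Λ (σ × Bool)} (h : TM2.step M a = some b) :
    gsteps M 1 a b := by
  unfold gsteps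
  simp only [Function.iterate_one]
  exact h

/-- Correctness of the compiler. -/
theorem gsim {Λ : Type} (M : Λ → TM2.Stmt Γ Λ (σ × Bool))
    {p : GProg K Γ σ} {s s' : σ × (∀ k, List (Γ k))} {t : ℕ} (h : GExec p s t s') :
    ∀ (emb : GLab p → Λ) (ex : Λ), (∀ l, M (emb l) = gcode p emb ex l) →
      gsteps M t ⟨some (emb (gentry p)), (s.1, false), s.2⟩ ⟨some ex, (s'.1, false), s'.2⟩ := by
  induction h with
  | skip s =>
    intro emb ex hM
    apply gsteps_one
    simp only [TM2.step, hM]
    rfl
  | push k f v S =>
    intro emb ex hM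
    apply gsteps_one
    simp only [TM2.step, hM]
    rfl
  | pop k f v S =>
    intro emb ex hM
    apply gsteps_one
    simp only [TM2.step, hM]
    rfl
  | load f v S =>
    intro emb ex hM
    apply gsteps_one
    simp only [TM2.step, hM]
    rfl
  | seq _ _ ih1 ih2 =>
    intro emb ex hM
    refine gsteps.trans (ih1 (fun x => emb (.inl x)) _ (fun l => hM (.inl l)))
      (ih2 (fun x => emb (.inr x)) ex (fun l => hM (.inr l)))
  | @iteT f p q v S s' t hf _ ih =>
    intro emb ex hM
    refine gsteps.trans (gsteps_one ?_)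
      (ih (fun x => emb (some (.inl x))) ex (fun l => hM (some (.inl l))))
    simp only [TM2.step, hM]
    simp only [gentry, gcode, TM2.stepAux, hf, cond_true]
  | @iteF f p q v S s' t hf _ ih =>
    intro emb ex hM
    refine gsteps.trans (gsteps_one ?_)
      (ih (fun x => emb (some (.inr x))) ex (fun l => hM (some (.inr l))))
    simp only [TM2.step, hM]
    simp only [gentry, gcode, TM2.stepAux, hf, cond_false]
  | @loopNil k f p v S hS =>
    intro emb ex hM
    apply gsteps_one
    simp only [TM2.step, hM]
    simp only [gentry, gcode, TM2.stepAux, hS, List.head?_nil, List.tail_nil, cond_false]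
    rw [← hS, update_eq_self]
  | @loopCons k f p v S c l s' s'' t t' hS _ _ ih1 ih2 =>
    intro emb ex hM
    refine gsteps.trans (gsteps.trans (gsteps_one ?_)
      (ih1 (fun x => emb (some x)) (emb none) (fun l => hM (some l)))) (ih2 emb ex hM)
    simp only [TM2.step, hM]
    simp only [gentry, gcode, TM2.stepAux, hS, List.head?_cons, List.tail_cons, cond_true]

/-- The machine of a program. -/
def gmachine (p : GProg K Γ σ) : Option (GLab p) → TM2.Stmt Γ (Option (GLab p)) (σ × Bool)
  | none => .halt
  | some l => gcode p some none l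

/-- The bundled machine. -/
def gtm [Fintype K] [∀ k, Fintype (Γ k)] [Fintype σ] (p : GProg K Γ σ) (k₀ k₁ : K) (v₀ : σ) :
    FinTM2 :=
  letI := glabFintype p
  { K := K
    k₀ := k₀
    k₁ := k₁
    Γ := Γ
    Λ := Option (GLab p)
    main := some (gentry p)
    σ := σ × Bool
    initialState := (v₀, false)
    m := gmachine p }

/-- The stack contents with only stack `k` nonempty. -/
def gonly (k : K) (l : List (Γ k)) : ∀ k, List (Γ k) := update (fun _ => []) k l

theorem gonly_self (k : K) (l : List (Γ k)) : gonly k l k = l := by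
  unfold gonly; rw [update_self]

theorem gonly_ne {k k' : K} (l : List (Γ k)) (h : k' ≠ k) : gonly k l k' = [] := by
  unfold gonly; rw [update_of_ne h]

/-- A program that computes the encoded output from the encoded input in polynomially many steps
gives a polynomial time machine. -/
theorem gcomputable [Fintype K] [∀ k, Fintype (Γ k)] [Fintype σ] {α β : Type} (k₀ k₁ : K)
    {ea : α → List (Γ k₀)} {eb : β → List (Γ k₁)} {f : α → β} (p : GProg K Γ σ) (v₀ : σ)
    (T : Polynomial ℕ)
    (h : ∀ a, ∃ t, t ≤ T.eval (ea a).length ∧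
      GExec p (v₀, gonly k₀ (ea a)) t (v₀, gonly k₁ (eb (f a)))) :
    Nonempty (TM2ComputableInPolyTime ea eb f) := by
  classical
  refine ⟨{ tm := gtm p k₀ k₁ v₀
            inputAlphabet := Equiv.refl (Γ k₀)
            outputAlphabet := Equiv.refl (Γ k₁)
            time := T + 1
            outputsFun := ?_ }⟩
  intro a
  have ht := (h a).choose_spec
  refine { steps := (h a).choose + 1
           evals_in_steps := ?_
           steps_le_m := ?_ }
  · have h1 := gsim (gmachine p) ht.2 some none (fun l => rfl)
    have h2 : gsteps (gmachine p) 1 ⟨some none, (v₀, false), gonly k₁ (eb (f a))⟩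
        ⟨none, (v₀, false), gonly k₁ (eb (f a))⟩ := gsteps_one rfl
    have h3 := h1.trans h2
    unfold gsteps at h3
    have hinit : initList (gtm p k₀ k₁ v₀) (List.map (Equiv.refl (Γ k₀)).invFun (ea a)) =
        ⟨some (some (gentry p)), (v₀, false), gonly k₀ (ea a)⟩ := by
      unfold initList
      congr 1
      funext k
      by_cases hk : k₀ = k
      · subst hk
        exact ((dif_pos rfl).trans (List.map_id _)).trans (gonly_self k₀ _).symm
      · exact (dif_neg (Ne.symm hk)).trans (gonly_ne _ (Ne.symm hk)).symm
    have hhalt : haltList (gtm p k₀ k₁ v₀) (List.map (Equiv.refl (Γ k₁)).invFun (eb (f a))) =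
        ⟨none, (v₀, false), gonly k₁ (eb (f a))⟩ := by
      unfold haltList
      congr 1
      funext k
      by_cases hk : k₁ = k
      · subst hk
        exact ((dif_pos rfl).trans (List.map_id _)).trans (gonly_self k₁ _).symm
      · exact (dif_neg (Ne.symm hk)).trans (gonly_ne _ (Ne.symm hk)).symm
    rw [hinit]
    simp only [Option.map_some]
    rw [hhalt]
    exact h3
  · have := ht.1
    simp only [Polynomial.eval_add, Polynomial.eval_one]
    omega

end Pool.Agent.PT
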