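import Pool.Agent.PT.Defs

/-!
# Polynomial time computable functions between ordinary types

`PolyF f` for `f : α → β`, where `α`, `β` are types of data (class `Dat`). The closure properties
are tagged for `fun_prop`.
-/

set_option autoImplicit false

namespace Pool.Agent.PT

/-- Types of data: injective encodings as trees. -/
class Dat (α : Type) where
  enc : α → D
  inj : Function.Injective enc

export Dat (enc)

/-- Size of the encoding. -/
def sz {α : Type} [Dat α] (a : α) : ℕ := (enc a).size

/-- Polynomial time computable functions. -/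
@[fun_prop] def PolyF {α β : Type} [Dat α] [Dat β] (f : α → β) : Prop :=
  ∃ g : D → D, PTD (Set.range (enc : α → D)) g ∧ ∀ a, g (enc a) = enc (f a)

/-! ### Instances -/

theorem D.size_pos (t : D) : 0 < t.size := by cases t <;> simp [D.size]

theorem sz_pos {α : Type} [Dat α] (a : α) : 0 < sz a := D.size_pos _

instance : Dat D := ⟨id, Function.injective_id⟩

instance : Dat Unit := ⟨fun _ => .nil, fun _ _ _ => rfl⟩

instance : Dat Bool := ⟨D.ofBool, by intro a b; cases a <;> cases b <;> simp [D.ofBool]⟩

instance {α β : Type} [Dat α] [Dat β] : Dat (α × β) :=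
  ⟨fun p => .node (enc p.1) (enc p.2), by
    rintro ⟨a, b⟩ ⟨a', b'⟩ h
    simp only [D.node.injEq] at h
    rw [Dat.inj h.1, Dat.inj h.2]⟩

theorem D.ofList_inj : Function.Injective D.ofList := by
  intro l
  induction l with
  | nil =>
    intro l' h
    cases l' with
    | nil => rfl
    | cons a l' => simp [D.ofList] at h
  | cons a l ih =>
    intro l' h
    cases l' with
    | nil => simp [D.ofList] at h
    | cons a' l' =>
      simp only [D.ofList, D.node.injEq] at h
      rw [h.1, ih h.2]

instance {α : Type} [Dat α] : Dat (List α) :=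
  ⟨fun l => D.ofList (l.map enc), fun _ _ h =>
    (List.map_injective_iff.mpr Dat.inj) (D.ofList_inj h)⟩

instance {α : Type} [Dat α] : Dat (Option α) :=
  ⟨fun o => match o with
    | none => .nil
    | some a => .node .nil (enc a), by
    intro a b h
    cases a <;> cases b <;> simp at h ⊢
    exact Dat.inj h⟩

theorem D.un_inj : Function.Injective D.un := by
  intro m
  induction m with
  | zero => intro n h; cases n <;> simp [D.un] at h ⊢
  | succ m ih =>
    intro n h
    cases n with
    | zero => simp [D.un] at h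
    | succ n => simp only [D.un, D.node.injEq, true_and] at h; rw [ih h]

instance : Dat Sym := ⟨D.ofSym, fun a b h => by
  have := D.un_inj h
  cases a <;> cases b <;> simp [Sym.idx] at this ⊢⟩

/-- The number with the given binary digits, least significant digit first. -/
def val : List Bool → ℕ
  | [] => 0
  | b :: l => (if b then 1 else 0) + 2 * val l

theorem bits_step (b : Bool) (v : ℕ) :
    ((if b then 1 else 0) + 2 * v).bits = if b = false ∧ v = 0 then [] else b :: v.bits := by
  cases b
  · by_cases hv : v = 0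
    · simp [hv]
    · simp [hv]
  · simp [Nat.add_comm 1, Nat.bit1_bits]

theorem val_bits (n : ℕ) : val n.bits = n := by
  induction n using Nat.strong_induction_on with
  | _ n ih =>
    rcases Nat.even_or_odd' n with ⟨m, h | h⟩
    · by_cases hm : m = 0
      · subst hm; subst h; simp [val]
      · rw [h, Nat.bit0_bits _ hm]
        simp only [val, ih m (by omega)]
        simp
    · rw [h, Nat.bit1_bits]
      simp only [val, ih m (by omega)]
      simp [Nat.add_comm]

instance : Dat ℕ := ⟨fun n => enc n.bits, fun a b h => by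
  have h1 : a.bits = b.bits := Dat.inj h
  rw [← val_bits a, ← val_bits b, h1]⟩

instance : Dat ℤ := ⟨fun z => enc (z.toNat, (-z).toNat), fun a b h => by
  have := Dat.inj h
  simp only [Prod.mk.injEq] at this
  omega⟩

theorem enc_nil {α : Type} [Dat α] : enc ([] : List α) = .nil := rfl

theorem enc_cons {α : Type} [Dat α] (a : α) (l : List α) :
    enc (a :: l) = .node (enc a) (enc l) := rfl

theorem enc_pair {α β : Type} [Dat α] [Dat β] (p : α × β) :
    enc p = .node (enc p.1) (enc p.2) := rfl

theorem enc_true : enc true = .node .nil .nil := rfl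

theorem enc_false : enc false = .nil := rfl

/-! ### Polynomial bounds -/

variable {α β γ δ : Type} [Dat α] [Dat β] [Dat γ] [Dat δ]

/-- Polynomially bounded functions. -/
def PolyB (B : α → ℕ) : Prop := ∃ c : ℕ, ∀ a, B a ≤ (sz a + 2) ^ c

theorem PolyF.bound {f : α → β} (hf : PolyF f) : PolyB (fun a => sz (f a)) := by
  obtain ⟨g, ⟨p, c, h⟩, hg⟩ := hf
  refine ⟨c, fun a => ?_⟩
  have := (h (enc a) ⟨a, rfl⟩).1
  rw [hg] at this
  exact this

theorem PolyB.of_le {B B' : α → ℕ} (h : PolyB B') (hle : ∀ a, B a ≤ B' a) : PolyB B := by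
  obtain ⟨c, hc⟩ := h
  exact ⟨c, fun a => (hle a).trans (hc a)⟩

theorem PolyB.sz : PolyB (fun a : α => sz a) := ⟨1, fun a => by simp⟩

theorem PolyB.const (n : ℕ) : PolyB (fun _ : α => n) := by
  refine ⟨n, fun a => ?_⟩
  calc n ≤ 2 ^ n := Nat.lt_two_pow_self.le
    _ ≤ (Pool.Agent.PT.sz a + 2) ^ n := Nat.pow_le_pow_left (by omega) n

theorem PolyB.mul {B B' : α → ℕ} (h : PolyB B) (h' : PolyB B') : PolyB (fun a => B a * B' a) := by
  obtain ⟨c, hc⟩ := h
  obtain ⟨c', hc'⟩ := h'
  exact ⟨c + c', fun a => by rw [pow_add]; exact Nat.mul_le_mul (hc a) (hc' a)⟩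

theorem PolyB.add {B B' : α → ℕ} (h : PolyB B) (h' : PolyB B') : PolyB (fun a => B a + B' a) := by
  obtain ⟨c, hc⟩ := h
  obtain ⟨c', hc'⟩ := h'
  refine ⟨c + c' + 1, fun a => ?_⟩
  have h1 : (Pool.Agent.PT.sz a + 2) ^ c ≤ (Pool.Agent.PT.sz a + 2) ^ (c + c') :=
    Nat.pow_le_pow_right (by omega) (by omega)
  have h2 : (Pool.Agent.PT.sz a + 2) ^ c' ≤ (Pool.Agent.PT.sz a + 2) ^ (c + c') :=
    Nat.pow_le_pow_right (by omega) (by omega)
  have h3 : (Pool.Agent.PT.sz a + 2) ^ (c + c') * 2 ≤
      (Pool.Agent.PT.sz a + 2) ^ (c + c') * (Pool.Agent.PT.sz a + 2) :=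
    Nat.mul_le_mul_left _ (by omega)
  have h4 := hc a
  have h5 := hc' a
  rw [pow_succ]
  simp only
  omega

theorem PolyB.pow {B : α → ℕ} (h : PolyB B) (n : ℕ) : PolyB (fun a => B a ^ n) := by
  obtain ⟨c, hc⟩ := h
  refine ⟨c * n, fun a => ?_⟩
  rw [pow_mul]
  exact Nat.pow_le_pow_left (hc a) n

theorem sz_pair (a : α) (b : β) : sz (a, b) = sz a + sz b + 1 := rfl

theorem sz_fst (p : α × β) : sz p.1 ≤ sz p := by
  obtain ⟨a, b⟩ := p; rw [sz_pair]; simp only; omega

theorem sz_snd (p : α × β) : sz p.2 ≤ sz p := by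
  obtain ⟨a, b⟩ := p; rw [sz_pair]; simp only; omega

theorem sz_nil : sz ([] : List α) = 1 := rfl

theorem sz_cons (a : α) (l : List α) : sz (a :: l) = sz a + sz l + 1 := rfl

theorem sz_bool (b : Bool) : sz b ≤ 3 := by
  cases b
  · rw [show sz false = 1 from rfl]; omega
  · rw [show sz true = 3 from rfl]

theorem sz_append (l l' : List α) : sz (l ++ l') + 1 = sz l + sz l' := by
  induction l with
  | nil => simp [sz_nil, Nat.add_comm]
  | cons a l ih => rw [List.cons_append, sz_cons, sz_cons]; omega

theorem sz_reverse (l : List α) : sz l.reverse = sz l := by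
  induction l with
  | nil => rfl
  | cons a l ih =>
    have := sz_append l.reverse [a]
    rw [List.reverse_cons, sz_cons]
    rw [sz_cons, sz_nil] at this
    omega

theorem sz_le_of_prefix {l₁ l : List α} (h : l₁ <+: l) : sz l₁ ≤ sz l := by
  obtain ⟨l₂, rfl⟩ := h
  have := sz_append l₁ l₂
  have := sz_pos l₂
  omega

theorem sz_mem {a : α} {l : List α} (h : a ∈ l) : sz a < sz l := by
  induction l with
  | nil => simp at h
  | cons b l ih =>
    rw [sz_cons]
    rcases List.mem_cons.mp h with h | h
    · rw [h]; omega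
    · have := ih h; omega

theorem length_lt_sz (l : List α) : l.length < sz l := by
  induction l with
  | nil => simp [sz_nil]
  | cons a l ih => rw [List.length_cons, sz_cons]; omega

theorem sz_drop (n : ℕ) (l : List α) : sz (l.drop n) ≤ sz l := by
  induction n generalizing l with
  | zero => simp
  | succ n ih =>
    cases l with
    | nil => simp
    | cons b m =>
      have := ih m
      rw [List.drop_succ_cons, sz_cons]
      omega

theorem sz_list_le {l : List α} {M : ℕ} (h : ∀ a ∈ l, sz a ≤ M) :
    sz l ≤ l.length * (M + 1) + 1 := by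
  induction l with
  | nil => simp [sz_nil]
  | cons a l ih =>
    rw [sz_cons, List.length_cons]
    have h1 := h a (by simp)
    have h2 := ih (fun b hb => h b (List.mem_cons_of_mem _ hb))
    rw [Nat.add_mul]
    omega

theorem PolyF.congr {f f' : α → β} (hf : PolyF f) (h : ∀ a, f a = f' a) : PolyF f' := by
  have : f = f' := funext h
  rw [← this]; exact hf

theorem pt_univ {g : D → D} (h : PTD Set.univ g) (A : Set D) : PTD A g :=
  h.mono (Set.subset_univ _)

theorem enc_list (l : List α) : (enc l).list = l.map enc := by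
  induction l with
  | nil => rfl
  | cons a l ih => rw [enc_cons, D.list, ih]; rfl

/-- A polynomial bound for the values on the members of a list. -/
theorem PolyB.members {B : γ × α → ℕ} (hB : PolyB B) {l : γ → List α} (hl : PolyB (fun x => Pool.Agent.PT.sz (l x))) :
    ∃ M : γ → ℕ, PolyB M ∧ ∀ x, ∀ a ∈ l x, B (x, a) ≤ M x := by
  obtain ⟨c, hc⟩ := hB
  refine ⟨fun x => (Pool.Agent.PT.sz x + Pool.Agent.PT.sz (l x) + 3) ^ c,
    ((PolyB.sz.add hl).add (PolyB.const 3)).pow c, ?_⟩
  intro x a ha
  refine (hc (x, a)).trans (Nat.pow_le_pow_left ?_ _)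
  have := sz_mem ha
  rw [sz_pair]
  omega

/-! ### Basic closure properties -/

variable [hC : Fact Core]

@[fun_prop] theorem PolyF.id : PolyF (fun a : α => a) :=
  ⟨fun t => t, pt_univ hC.out.id _, fun _ => rfl⟩

@[fun_prop] theorem PolyF.const (b : β) : PolyF (fun _ : α => b) :=
  ⟨fun _ => enc b, pt_univ (hC.out.const _) _, fun _ => rfl⟩

@[fun_prop] theorem PolyF.comp {f : β → γ} {g : α → β} (hf : PolyF f) (hg : PolyF g) :
    PolyF (fun a => f (g a)) := by
  obtain ⟨f', hf', hf''⟩ := hf
  obtain ⟨g', hg', hg''⟩ := hg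
  refine ⟨fun t => f' (g' t), hC.out.comp hf' hg' ?_, fun a => ?_⟩
  · rintro t ⟨a, rfl⟩
    exact ⟨g a, (hg'' a).symm⟩
  · show f' (g' (enc a)) = _
    rw [hg'', hf'']

@[fun_prop] theorem PolyF.pair {f : α → β} {g : α → γ} (hf : PolyF f) (hg : PolyF g) :
    PolyF (fun a => (f a, g a)) := by
  obtain ⟨f', hf', hf''⟩ := hf
  obtain ⟨g', hg', hg''⟩ := hg
  refine ⟨_, hC.out.node hf' hg', fun a => ?_⟩
  show D.node (f' (enc a)) (g' (enc a)) = _
  rw [hf'', hg'']; rfl

@[fun_prop] theorem PolyF.fst {f : α → β × γ} (hf : PolyF f) : PolyF (fun a => (f a).1) := by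
  have : PolyF (fun p : β × γ => p.1) := ⟨D.fst, pt_univ hC.out.fst _, fun _ => rfl⟩
  exact this.comp hf

@[fun_prop] theorem PolyF.snd {f : α → β × γ} (hf : PolyF f) : PolyF (fun a => (f a).2) := by
  have : PolyF (fun p : β × γ => p.2) := ⟨D.snd, pt_univ hC.out.snd _, fun _ => rfl⟩
  exact this.comp hf

/-- Case distinction on an encoded value being the empty tree. -/
theorem PolyF.cas {h : α → β} {f g : α → γ} (hh : PolyF h) (hf : PolyF f) (hg : PolyF g)
    (p : α → Prop) [∀ a, Decidable (p a)] (hp : ∀ a, enc (h a) = .nil ↔ p a) :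
    PolyF (fun a => if p a then f a else g a) := by
  obtain ⟨h', hh', hh''⟩ := hh
  obtain ⟨f', hf', hf''⟩ := hf
  obtain ⟨g', hg', hg''⟩ := hg
  refine ⟨_, hC.out.cas hh' (hf'.mono fun t ht => ht.1) (hg'.mono fun t ht => ht.1),
    fun a => ?_⟩
  show (if h' (enc a) = .nil then f' (enc a) else g' (enc a)) = enc (if p a then f a else g a)
  rw [hh'', hf'', hg'']
  by_cases hpa : p a
  · rw [if_pos hpa, if_pos ((hp a).mpr hpa)]
  · rw [if_neg hpa, if_neg (fun hh => hpa ((hp a).mp hh))]

@[fun_prop] theorem PolyF.cond {h : α → Bool} {f g : α → γ} (hh : PolyF h) (hf : PolyF f)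
    (hg : PolyF g) : PolyF (fun a => cond (h a) (f a) (g a)) := by
  refine (PolyF.cas hh hg hf (fun a => h a = false) ?_).congr ?_
  · intro a
    cases h a <;> simp [enc_true, enc_false]
  · intro a
    cases h a <;> simp

theorem PolyF.ite' {p : α → Prop} [∀ a, Decidable (p a)] {f g : α → γ}
    (hp : PolyF (fun a => decide (p a))) (hf : PolyF f) (hg : PolyF g) :
    PolyF (fun a => if p a then f a else g a) :=
  (PolyF.cond hp hf hg).congr (fun a => by by_cases h : p a <;> simp [h])

@[fun_prop] theorem PolyF.iteb {h : α → Bool} {f g : α → γ} (hh : PolyF h) (hf : PolyF f)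
    (hg : PolyF g) : PolyF (fun a => if h a = true then f a else g a) :=
  (PolyF.cond hh hf hg).congr (fun a => by cases h a <;> simp)

@[fun_prop] theorem PolyF.not {h : α → Bool} (hh : PolyF h) : PolyF (fun a => !(h a)) :=
  (PolyF.cond hh (PolyF.const false) (PolyF.const true)).congr (fun a => by cases h a <;> rfl)

@[fun_prop] theorem PolyF.and {h h' : α → Bool} (hh : PolyF h) (hh' : PolyF h') :
    PolyF (fun a => h a && h' a) :=
  (PolyF.cond hh hh' (PolyF.const false)).congr (fun a => by cases h a <;> rfl)

@[fun_prop] theorem PolyF.or {h h' : α → Bool} (hh : PolyF h) (hh' : PolyF h') :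
    PolyF (fun a => h a || h' a) :=
  (PolyF.cond hh (PolyF.const true) hh').congr (fun a => by cases h a <;> rfl)

/-- Equality of data. -/
theorem PolyF.eq [DecidableEq β] {f g : α → β} (hf : PolyF f) (hg : PolyF g) :
    PolyF (fun a => decide (f a = g a)) := by
  have h : PolyF (fun p : β × β => decide (p.1 = p.2)) := by
    refine ⟨_, pt_univ hC.out.eq _, ?_⟩
    rintro ⟨a, b⟩
    show D.ofBool (decide (enc a = enc b)) = enc (decide (a = b))
    congr 1
    simp only [decide_eq_decide]
    exact ⟨fun h => Dat.inj h, fun h => by rw [h]⟩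
  exact h.comp (hf.pair hg)

@[fun_prop] theorem PolyF.eq_bool {f g : α → Bool} (hf : PolyF f) (hg : PolyF g) :
    PolyF (fun a => decide (f a = g a)) := PolyF.eq hf hg

@[fun_prop] theorem PolyF.eq_nat {f g : α → ℕ} (hf : PolyF f) (hg : PolyF g) :
    PolyF (fun a => decide (f a = g a)) := PolyF.eq hf hg

@[fun_prop] theorem PolyF.eq_int {f g : α → ℤ} (hf : PolyF f) (hg : PolyF g) :
    PolyF (fun a => decide (f a = g a)) := PolyF.eq hf hg

@[fun_prop] theorem PolyF.eq_sym {f g : α → Sym} (hf : PolyF f) (hg : PolyF g) :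
    PolyF (fun a => decide (f a = g a)) := PolyF.eq hf hg

@[fun_prop] theorem PolyF.decide_and {p q : α → Prop} [∀ a, Decidable (p a)]
    [∀ a, Decidable (q a)] (hp : PolyF (fun a => decide (p a))) (hq : PolyF (fun a => decide (q a))) :
    PolyF (fun a => decide (p a ∧ q a)) :=
  (PolyF.and hp hq).congr (fun a => by simp)

/-! ### Lists -/

@[fun_prop] theorem PolyF.cons {f : α → β} {g : α → List β} (hf : PolyF f) (hg : PolyF g) :
    PolyF (fun a => f a :: g a) := by
  have h : PolyF (fun p : β × List β => p.1 :: p.2) :=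
    ⟨fun t => t, pt_univ hC.out.id _, fun _ => rfl⟩
  exact h.comp (hf.pair hg)

@[fun_prop] theorem PolyF.tail {f : α → List β} (hf : PolyF f) : PolyF (fun a => (f a).tail) := by
  have h : PolyF (fun l : List β => l.tail) := by
    refine ⟨D.snd, pt_univ hC.out.snd _, fun l => ?_⟩
    cases l <;> rfl
  exact h.comp hf

@[fun_prop] theorem PolyF.isEmpty {f : α → List β} (hf : PolyF f) :
    PolyF (fun a => (f a).isEmpty) := by
  have h : PolyF (fun l : List β => l.isEmpty) := by
    refine (PolyF.cas (PolyF.id (α := List β)) (PolyF.const true) (PolyF.const false)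
      (fun l => l = []) ?_).congr ?_
    · intro l
      cases l <;> simp [enc_nil, enc_cons]
    · intro l
      cases l <;> simp
  exact h.comp hf

@[fun_prop] theorem PolyF.headD {f : α → List β} {g : α → β} (hf : PolyF f) (hg : PolyF g) :
    PolyF (fun a => (f a).headD (g a)) := by
  have h : PolyF (fun p : List β × β => p.1.headD p.2) := by
    obtain ⟨e, he, he'⟩ := PolyF.isEmpty (PolyF.fst (PolyF.id (α := List β × β)))
    refine ⟨_, hC.out.cas he (f := fun t => t.fst.fst) (g := D.snd) ?_ ?_, ?_⟩
    · refine PTD.mono (hC.out.comp (pt_univ hC.out.fst Set.univ) (pt_univ hC.out.fst Set.univ)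
        (fun _ _ => Set.mem_univ _)) (Set.subset_univ _)
    · exact pt_univ hC.out.snd _
    · rintro ⟨l, b⟩
      show (if e (enc (l, b)) = .nil then _ else _) = _
      rw [he']
      cases l with
      | nil =>
        rw [if_neg (by simp [enc_true])]
        rfl
      | cons a l =>
        rw [if_pos (by simp [enc_false])]
        rfl
  exact h.comp (hf.pair hg)

/-- The fold over a list, provided that the intermediate values stay polynomially bounded. -/
theorem PolyF.foldl {l : γ → List α} {s : γ → β} {f : γ → β → α → β}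
    (hf : PolyF (fun p : γ × β × α => f p.1 p.2.1 p.2.2)) (hs : PolyF s) (hl : PolyF l)
    (B : γ → ℕ) (hB : PolyB B)
    (hb : ∀ x (l₁ : List α), l₁ <+: l x → sz (l₁.foldl (f x) (s x)) ≤ B x) :
    PolyF (fun x => (l x).foldl (f x) (s x)) := by
  obtain ⟨f', hf', hf''⟩ := hf
  -- the step on trees
  set G : D → D := fun t => .node t.snd.fst (f' (.node t.snd.fst (.node t.snd.snd t.fst))) with hG
  have hG1 : ∀ (x : γ) (s : β) (a : α), G (.node (enc a) (.node (enc x) (enc s))) =
      .node (enc x) (enc (f x s a)) := by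
    intro x s a
    have h := hf'' (x, s, a)
    show D.node (enc x) (f' (.node (enc x) (.node (enc s) (enc a)))) = _
    rw [show D.node (enc x) (.node (enc s) (enc a)) = enc (x, s, a) from rfl, h]
  have hG2 : PTD (Set.range (enc : α × γ × β → D)) G := by
    have h1 : PTD Set.univ (fun t : D => t.snd.fst) :=
      hC.out.comp (B := Set.univ) hC.out.fst hC.out.snd (fun _ _ => Set.mem_univ _)
    have h2 : PTD Set.univ (fun t : D => t.snd.snd) :=
      hC.out.comp (B := Set.univ) hC.out.snd hC.out.snd (fun _ _ => Set.mem_univ _)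
    have h3 : PTD Set.univ (fun t : D => D.node t.snd.fst (.node t.snd.snd t.fst)) :=
      hC.out.node h1 (hC.out.node h2 hC.out.fst)
    refine hC.out.node (pt_univ h1 _) (hC.out.comp hf' (pt_univ h3 _) ?_)
    rintro t ⟨⟨a, x, s⟩, rfl⟩
    exact ⟨(x, s, a), rfl⟩
  have hfold : ∀ (x : γ) (l₁ : List α) (s : β),
      (l₁.map enc).foldl (fun s a => G (.node a s)) (.node (enc x) (enc s)) =
      .node (enc x) (enc (l₁.foldl (f x) s)) := by
    intro x l₁
    induction l₁ with
    | nil => intro s; rfl
    | cons a l₁ ih =>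
      intro s
      rw [List.map_cons, List.foldl_cons, hG1, ih, List.foldl_cons]
  have hpre : ∀ (x : γ) (l₁ : List D), l₁ <+: (enc (l x)).list →
      ∃ l₂ : List α, l₂ <+: l x ∧ l₁ = l₂.map enc := by
    intro x l₁ h
    rw [enc_list] at h
    refine ⟨(l x).take l₁.length, List.take_prefix _ _, ?_⟩
    rw [List.map_take]
    exact List.prefix_iff_eq_take.mp h
  have h1 : PolyF (fun x => (l x, x, s x)) := hl.pair (PolyF.id.pair hs)
  obtain ⟨k, hk, hk'⟩ := h1
  set A : Set D := Set.range (fun x => enc (l x, x, s x)) with hA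
  obtain ⟨cB, hcB⟩ := hB
  have h2 : PTD A (fun t => t.fst.list.foldl (fun s a => G (.node a s)) t.snd) := by
    refine hC.out.fold hG2 ?_ ⟨cB + 2, ?_⟩
    · rintro t ⟨x, rfl⟩ l₁ a hla
      obtain ⟨l₂, hl₂, h⟩ := hpre x _ hla
      have h3 : l₂ ≠ [] := by
        rintro rfl
        simp at h
      obtain ⟨l₃, b, rfl⟩ : ∃ l₃ b, l₂ = l₃ ++ [b] :=
        ⟨l₂.dropLast, l₂.getLast h3, (List.dropLast_append_getLast h3).symm⟩
      rw [List.map_append, List.map_singleton] at h
      obtain ⟨h4, h5⟩ := List.append_inj' h rfl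
      rw [List.singleton_inj] at h5
      rw [h4, h5]
      show D.node (enc b) (List.foldl _ (D.node (enc x) (enc (s x))) _) ∈ _
      rw [hfold]
      exact ⟨(b, x, _), rfl⟩
    · rintro t ⟨x, rfl⟩ l₁ hl₁
      obtain ⟨l₂, hl₂, rfl⟩ := hpre x _ hl₁
      show (List.foldl _ (D.node (enc x) (enc (s x))) _).size ≤ _
      rw [hfold]
      show (enc x).size + (enc _).size + 1 ≤ _
      have h3 := hb x l₂ hl₂
      have h4 := hcB x
      have h5 : (enc (l x, x, s x)).size = sz (l x) + (sz x + sz (s x) + 1) + 1 := rfl
      set M := (enc (l x, x, s x)).size with hM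
      have h6 : sz x ≤ M := by omega
      have h7 : (sz x + 2) ^ cB ≤ (M + 2) ^ cB := Nat.pow_le_pow_left (by omega) _
      have h8 : (enc (List.foldl (f x) (s x) l₂)).size ≤ (M + 2) ^ cB :=
        h3.trans (h4.trans h7)
      have h9 : 1 ≤ (M + 2) ^ cB := Nat.one_le_pow _ _ (by omega)
      calc (enc x).size + (enc (List.foldl (f x) (s x) l₂)).size + 1
          ≤ M + (M + 2) ^ cB + 1 := by
            have : (enc x).size = sz x := rfl
            omega
        _ ≤ (M + 2) ^ cB * (M + 2) + (M + 2) ^ cB := by nlinarith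
        _ = (M + 2) ^ cB * ((M + 2) + 1) := by ring
        _ ≤ (M + 2) ^ cB * ((M + 2) * (M + 2)) := Nat.mul_le_mul_left _ (by nlinarith)
        _ = (M + 2) ^ (cB + 2) := by ring
  have h3 : PTD A (fun t => (t.fst.list.foldl (fun s a => G (.node a s)) t.snd).snd) :=
    hC.out.comp (B := Set.univ) hC.out.snd h2 (fun _ _ => Set.mem_univ _)
  refine ⟨_, hC.out.comp h3 hk ?_, ?_⟩
  · rintro t ⟨x, rfl⟩
    exact ⟨x, (hk' x).symm⟩
  · intro x
    show (List.foldl _ (k (enc x)).snd (k (enc x)).fst.list).snd = _
    rw [hk']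
    show (List.foldl _ (D.node (enc x) (enc (s x))) (enc (l x)).list).snd = _
    rw [enc_list, hfold]
    rfl

@[fun_prop] theorem PolyF.reverse {f : γ → List α} (hf : PolyF f) :
    PolyF (fun x => (f x).reverse) := by
  have h : ∀ (l s : List α), l.foldl (fun s a => a :: s) s = l.reverse ++ s := by
    intro l
    induction l with
    | nil => intro s; rfl
    | cons a l ih => intro s; rw [List.foldl_cons, ih]; simp
  have h1 : PolyF (fun x => (f x).foldl (fun (s : List α) a => a :: s) []) := by
    refine PolyF.foldl (by fun_prop) (by fun_prop) hf (fun x => sz (f x)) hf.bound ?_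
    intro x l₁ hl₁
    rw [h, List.append_nil, sz_reverse]
    exact sz_le_of_prefix hl₁
  refine h1.congr (fun x => ?_)
  rw [h, List.append_nil]

@[fun_prop] theorem PolyF.append {f g : γ → List α} (hf : PolyF f) (hg : PolyF g) :
    PolyF (fun x => f x ++ g x) := by
  have h : ∀ (l s : List α), l.foldl (fun s a => a :: s) s = l.reverse ++ s := by
    intro l
    induction l with
    | nil => intro s; rfl
    | cons a l ih => intro s; rw [List.foldl_cons, ih]; simp
  have h1 : PolyF (fun x => (f x).reverse.foldl (fun (s : List α) a => a :: s) (g x)) := by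
    refine PolyF.foldl (by fun_prop) hg hf.reverse (fun x => sz (f x) + sz (g x))
      (hf.bound.add hg.bound) ?_
    intro x l₁ hl₁
    have h2 := sz_append l₁.reverse (g x)
    have h3 := sz_le_of_prefix hl₁
    rw [sz_reverse] at h2 h3
    rw [h]
    omega
  refine h1.congr (fun x => ?_)
  rw [h, List.reverse_reverse]

@[fun_prop] theorem PolyF.map {f : γ → α → β} {l : γ → List α}
    (hf : PolyF (fun p : γ × α => f p.1 p.2)) (hl : PolyF l) :
    PolyF (fun x => (l x).map (f x)) := by
  have h : ∀ (x : γ) (l : List α) (s : List β),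
      l.foldl (fun s a => f x a :: s) s = (l.map (f x)).reverse ++ s := by
    intro x l
    induction l with
    | nil => intro s; rfl
    | cons a l ih => intro s; rw [List.foldl_cons, ih]; simp
  obtain ⟨M, hM, hM'⟩ := PolyB.members hf.bound hl.bound
  have h1 : PolyF (fun x => (l x).foldl (fun (s : List β) a => f x a :: s) []) := by
    refine PolyF.foldl ?_ (by fun_prop) hl (fun x => sz (l x) * (M x + 1) + 1)
      ((hl.bound.mul (hM.add (PolyB.const 1))).add (PolyB.const 1)) ?_
    · have h2 : PolyF (fun p : γ × List β × α => f p.1 p.2.2) :=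
        PolyF.comp (g := fun p : γ × List β × α => (p.1, p.2.2)) hf (by fun_prop)
      exact h2.cons (by fun_prop)
    · intro x l₁ hl₁
      rw [h, List.append_nil, sz_reverse]
      refine (sz_list_le (M := M x) ?_).trans ?_
      · intro b hb
        obtain ⟨a, ha, rfl⟩ := List.mem_map.mp hb
        exact hM' x a (hl₁.subset ha)
      · have h3 := length_lt_sz l₁
        have h4 := sz_le_of_prefix hl₁
        rw [List.length_map]
        have h5 : l₁.length ≤ sz (l x) := by omega
        have := Nat.mul_le_mul_right (M x + 1) h5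
        omega
  refine (h1.reverse).congr (fun x => ?_)
  rw [h, List.append_nil, List.reverse_reverse]

@[fun_prop] theorem PolyF.filter {f : γ → α → Bool} {l : γ → List α}
    (hf : PolyF (fun p : γ × α => f p.1 p.2)) (hl : PolyF l) :
    PolyF (fun x => (l x).filter (f x)) := by
  have h : ∀ (x : γ) (l : List α) (s : List α),
      l.foldl (fun s a => if f x a = true then a :: s else s) s =
        (l.filter (f x)).reverse ++ s := by
    intro x l
    induction l with
    | nil => intro s; rfl
    | cons a l ih =>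
      intro s
      rw [List.foldl_cons, ih]
      by_cases h : f x a = true <;> simp [h]
  have hsz : ∀ (x : γ) (l : List α), sz (l.filter (f x)) ≤ sz l := by
    intro x l
    induction l with
    | nil => simp
    | cons a l ih =>
      by_cases h : f x a = true
      · rw [List.filter_cons_of_pos h, sz_cons, sz_cons]; omega
      · rw [List.filter_cons_of_neg h, sz_cons]; omega
  have h1 : PolyF (fun x => (l x).foldl
      (fun (s : List α) a => if f x a = true then a :: s else s) []) := by
    refine PolyF.foldl ?_ (by fun_prop) hl (fun x => sz (l x)) hl.bound ?_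
    · have h2 : PolyF (fun p : γ × List α × α => f p.1 p.2.2) :=
        PolyF.comp (g := fun p : γ × List α × α => (p.1, p.2.2)) hf (by fun_prop)
      exact PolyF.iteb h2 (by fun_prop) (by fun_prop)
    · intro x l₁ hl₁
      rw [h, List.append_nil, sz_reverse]
      exact (hsz x l₁).trans (sz_le_of_prefix hl₁)
  refine (h1.reverse).congr (fun x => ?_)
  rw [h, List.append_nil, List.reverse_reverse]

@[fun_prop] theorem PolyF.all {f : γ → α → Bool} {l : γ → List α}
    (hf : PolyF (fun p : γ × α => f p.1 p.2)) (hl : PolyF l) :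
    PolyF (fun x => (l x).all (f x)) := by
  have h1 : PolyF (fun x => ((l x).filter (fun a => !(f x a))).isEmpty) := by
    refine PolyF.isEmpty (PolyF.filter ?_ hl)
    exact hf.not
  refine h1.congr (fun x => ?_)
  rw [Bool.eq_iff_iff]
  simp [List.filter_eq_nil_iff]

@[fun_prop] theorem PolyF.any {f : γ → α → Bool} {l : γ → List α}
    (hf : PolyF (fun p : γ × α => f p.1 p.2)) (hl : PolyF l) :
    PolyF (fun x => (l x).any (f x)) := by
  have h1 : PolyF (fun x => !((l x).all (fun a => !(f x a)))) := by
    refine PolyF.not (PolyF.all ?_ hl)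
    exact hf.not
  refine h1.congr (fun x => ?_)
  rw [Bool.eq_iff_iff]
  simp

@[fun_prop] theorem PolyF.flatten {l : γ → List (List α)} (hl : PolyF l) :
    PolyF (fun x => (l x).flatten) := by
  have h : ∀ (l : List (List α)) (s : List α),
      l.foldl (fun s a => a ++ s) s = l.reverse.flatten ++ s := by
    intro l
    induction l with
    | nil => intro s; rfl
    | cons a l ih => intro s; rw [List.foldl_cons, ih]; simp
  have hsz : ∀ (l : List (List α)), sz l.flatten ≤ sz l := by
    intro l
    induction l with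
    | nil => simp [sz_nil]
    | cons a l ih =>
      have := sz_append a l.flatten
      rw [List.flatten_cons, sz_cons]
      omega
  have h1 : PolyF (fun x => (l x).reverse.foldl (fun (s : List α) a => a ++ s) []) := by
    refine PolyF.foldl (by fun_prop) (by fun_prop) hl.reverse (fun x => sz (l x)) hl.bound ?_
    intro x l₁ hl₁
    have h2 := sz_le_of_prefix hl₁
    have h3 := hsz l₁.reverse
    rw [sz_reverse] at h2 h3
    rw [h, List.append_nil]
    omega
  refine h1.congr (fun x => ?_)
  rw [h, List.append_nil, List.reverse_reverse]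

@[fun_prop] theorem PolyF.flatMap {f : γ → α → List β} {l : γ → List α}
    (hf : PolyF (fun p : γ × α => f p.1 p.2)) (hl : PolyF l) :
    PolyF (fun x => (l x).flatMap (f x)) :=
  ((hf.map (l := l) hl).flatten).congr (fun x => by rw [List.flatMap_def])

@[fun_prop] theorem PolyF.take_one {f : γ → List α} (hf : PolyF f) :
    PolyF (fun x => (f x).take 1) := by
  have h : PolyF (fun l : List α => l.take 1) := by
    have h1 : PTD (Set.range (enc : List α → D)) (fun t => D.node t.fst .nil) :=
      hC.out.node (pt_univ hC.out.fst _) (pt_univ (hC.out.const _) _)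
    refine ⟨fun t => if t = .nil then .nil else .node t.fst .nil,
      hC.out.cas (h := fun t => t) (f := fun _ => D.nil) (pt_univ hC.out.id _)
        (pt_univ (hC.out.const _) _) (h1.mono fun t ht => ht.1), fun l => ?_⟩
    cases l with
    | nil => rfl
    | cons a l => simp [enc_cons, enc_nil, D.fst]
  exact h.comp hf

@[fun_prop] theorem PolyF.zip {f : γ → List α} {g : γ → List β} (hf : PolyF f) (hg : PolyF g) :
    PolyF (fun x => (f x).zip (g x)) := by
  -- the second list is consumed in the state
  set st : List β × List (α × β) → α → List β × List (α × β) := fun s a =>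
    (s.1.tail, (s.1.take 1).map (fun b => (a, b)) ++ s.2) with hst
  have h : ∀ (l : List α) (m : List β) (o : List (α × β)),
      l.foldl st (m, o) = (m.drop l.length, (l.zip m).reverse ++ o) := by
    intro l
    induction l with
    | nil => intro m o; rfl
    | cons a l ih =>
      intro m o
      rw [List.foldl_cons]
      cases m with
      | nil =>
        have : st ([], o) a = ([], o) := rfl
        rw [this, ih]
        simp
      | cons b m =>
        have : st (b :: m, o) a = (m, (a, b) :: o) := rfl
        rw [this, ih]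
        simp
  have hz : ∀ (l : List α) (m : List β), sz (l.zip m) ≤ sz l + sz m := by
    intro l
    induction l with
    | nil => intro m; simp [sz_nil]
    | cons a l ih =>
      intro m
      cases m with
      | nil => simp [sz_nil]
      | cons b m =>
        have := ih m
        rw [List.zip_cons_cons, sz_cons, sz_cons, sz_cons, sz_pair]
        omega
  have h1 : PolyF (fun x => (f x).foldl st (g x, [])) := by
    refine PolyF.foldl ?_ (by fun_prop) hf (fun x => sz (g x) + (sz (f x) + sz (g x)) + 1)
      ((hg.bound.add (hf.bound.add hg.bound)).add (PolyB.const 1)) ?_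
    · simp only [hst]
      fun_prop
    · intro x l₁ hl₁
      rw [h, List.append_nil, sz_pair, sz_reverse]
      have h2 := sz_le_of_prefix hl₁
      have h3 := hz l₁ (g x)
      have h4 := sz_drop l₁.length (g x)
      omega
  refine (h1.snd.reverse).congr (fun x => ?_)
  rw [h]
  simp

end Pool.Agent.PT
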